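import Pool.Agent.W86.Polar5

set_option autoImplicit false
open Filter Topology MeasureTheory
open scoped ENNReal NNReal

namespace Pool.Agent.W86.Polar

lemma upper {s : ℝ} (hs : 1 < s) {K : Set ℝ} (hK : IsCompact K) (hpos : 0 < volume.real K)
    {c : ℝ≥0∞} (hc : sig s * ENNReal.ofReal (volume.real K ^ (-s)) < c) :
    ∀ᶠ N : ℕ in atTop, P s K N / (N:ℝ≥0∞) ^ s ≤ c := by
  classical
  have hs0 : 0 < s := by linarith
  have hZc : 0 < Zc s := lt_of_lt_of_le one_pos (Zc_ge_one hs)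
  rcases eq_or_ne c ⊤ with rfl | hctop
  · exact Eventually.of_forall fun N => le_top
  set lam := volume.real K with hlam
  set σ0 := (sig s).toReal with hσ0
  have hσ0nn : 0 ≤ σ0 := ENNReal.toReal_nonneg
  have hσE : sig s = ENNReal.ofReal σ0 := (ENNReal.ofReal_toReal (sig_lt_top hs).ne).symm
  set c' := c.toReal with hc'
  have hcE : c = ENNReal.ofReal c' := (ENNReal.ofReal_toReal hctop).symm
  have h1 : σ0 * lam ^ (-s) < c' := by
    rw [hσE, hcE, ← ENNReal.ofReal_mul hσ0nn] at hc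
    exact (ENNReal.ofReal_lt_ofReal_iff_of_nonneg (by positivity)).1 hc
  obtain ⟨ε, hε, hε4, hε1⟩ : ∃ ε > 0, ε < 1 / 4 ∧
      ((1 - ε) * (1 - 2 * ε)) ^ (-s) * ((1 + ε) / (1 - ε)) ^ s * (σ0 + ε) * lam ^ (-s) + ε < c' := by
    have hcont : ContinuousAt (fun e : ℝ => ((1 - e) * (1 - 2 * e)) ^ (-s) *
        ((1 + e) / (1 - e)) ^ s * (σ0 + e) * lam ^ (-s) + e) 0 := by
      have ha : ContinuousAt (fun e : ℝ => ((1 - e) * (1 - 2 * e)) ^ (-s)) 0 :=
        ContinuousAt.rpow_const (by fun_prop) (Or.inl (by norm_num))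
      have hb : ContinuousAt (fun e : ℝ => ((1 + e) / (1 - e)) ^ s) 0 :=
        ContinuousAt.rpow_const (ContinuousAt.div (by fun_prop) (by fun_prop) (by norm_num))
          (Or.inl (by norm_num))
      exact (((ha.mul hb).mul (by fun_prop)).mul continuousAt_const).add continuousAt_id
    have hev := hcont.eventually_lt (continuousAt_const (y := c')) (by simpa using h1)
    have hev2 : ∀ᶠ e : ℝ in 𝓝 0, e < 1 / 4 := eventually_lt_nhds (by norm_num)
    obtain ⟨e, he⟩ := ((hev.and hev2).filter_mono (nhdsWithin_le_nhds (s := Set.Ioi (0:ℝ)))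
      |>.and self_mem_nhdsWithin).exists
    exact ⟨e, he.2, he.1.2, he.1.1⟩
  have h1ε : 0 < 1 - ε := by linarith
  have h2ε : 0 < 1 - 2 * ε := by linarith
  set A := (ε / 2) ^ (-s) * ((1 + ε) / ε * Zc s / ((1 - ε) * lam)) with hA
  have hA0 : 0 < A := by positivity
  obtain ⟨L, hL0, hL⟩ : ∃ L : ℝ, 0 < L ∧ A * L ^ (1 - s) ≤ ε := by
    have hlim : Tendsto (fun L : ℝ => A * L ^ (-(s - 1))) atTop (𝓝 (A * 0)) :=
      (tendsto_rpow_neg_atTop (by linarith)).const_mul A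
    rw [mul_zero] at hlim
    obtain ⟨L, hL1, hL2⟩ := ((hlim.eventually_lt_const hε).and (eventually_gt_atTop 0)).exists
    refine ⟨L, hL2, ?_⟩
    have : (1 - s) = -(s - 1) := by ring
    rw [this]; exact hL1.le
  set σ' := σ0 + ε with hσ'
  have hσ'0 : 0 < σ' := by positivity
  have hσσ' : sig s < ENNReal.ofReal σ' := by
    rw [hσE]
    exact (ENNReal.ofReal_lt_ofReal_iff hσ'0).2 (by linarith)
  set nmax := (1 + ε) * L / ((1 - ε) * lam) with hnmax
  have hnmax0 : 0 < nmax := by positivity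
  set D := σ' * nmax ^ s with hD
  have hD0 : 0 < D := by positivity
  set d := (2 * D) ^ (-(1 / s)) with hd
  have hd0 : 0 < d := by positivity
  have hdD : d ^ (-s) = 2 * D := by
    rw [hd, ← Real.rpow_mul (by positivity)]
    have : -(1 / s) * (-s) = 1 := by field_simp
    rw [this, Real.rpow_one]
  set η := min (ε / 2) (ε * d / 2) with hη
  have hη0 : 0 < η := lt_min (by positivity) (by positivity)
  set δ := η * (ε * lam) with hδ
  have hδ0 : 0 < δ := by positivity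
  obtain ⟨h0, hh0, H⟩ := cells' hK hδ0 hη0
  have hlim : Tendsto (fun N : ℕ => L / (N:ℝ)) atTop (𝓝 0) :=
    tendsto_const_div_atTop_nhds_zero_nat _
  filter_upwards [hlim.eventually_lt_const hh0, eventually_gt_atTop 0] with N hN hN0
  have hN0' : (0:ℝ) < N := by exact_mod_cast hN0
  set h := L / (N:ℝ) with hh
  have hhpos : 0 < h := by positivity
  have hNh : (N:ℝ) * h = L := by rw [hh]; field_simp
  obtain ⟨I, G, hGI, hI1, hI2, hI3, hG1, hG2, hG3⟩ := H h hhpos hN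
  have hG4 : (1 - ε) * lam ≤ G.card * h := by
    have : δ / η = ε * lam := by rw [hδ]; field_simp
    rw [this] at hG3
    linarith
  have hGc : (0:ℝ) < G.card := by
    by_contra hcon
    push Not at hcon
    have : (G.card : ℝ) * h ≤ 0 := mul_nonpos_of_nonpos_of_nonneg hcon hhpos.le
    have : 0 < (1 - ε) * lam := by positivity
    linarith
  have hGne : G.Nonempty := by
    rw [← Finset.card_pos]; exact_mod_cast hGc
  have hNE : (N:ℝ≥0∞) ^ s = ENNReal.ofReal ((N:ℝ) ^ s) := by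
    rw [← ENNReal.ofReal_rpow_of_pos hN0', ENNReal.ofReal_natCast]
  refine ENNReal.div_le_of_le_mul ?_
  unfold P
  refine iSup₂_le fun X hX => ?_
  obtain ⟨i, hi, hp1, hp2⟩ := pigeon hs (fun j => ⌊X j / h⌋) G hGne hε
  rw [Fintype.card_fin] at hp1 hp2
  have hgc := good_cell_bound hs hhpos hη0 hε hε4 (min_le_left _ _) (min_le_right _ _)
    hd0 hσσ' hσ'0 (hG1 i hi) X
  set n := (Finset.univ.filter (fun j => ⌊X j / h⌋ = i)).card with hn
  set T := ∑ j, |((i - ⌊X j / h⌋ : ℤ) : ℝ)| ^ (-s) with hT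
  have hT0 : 0 ≤ T := Finset.sum_nonneg fun j _ => by positivity
  clear_value n T
  have hn1 : (n:ℝ) ≤ nmax := by
    rw [hnmax, le_div_iff₀ (by positivity)]
    calc (n:ℝ) * ((1 - ε) * lam) ≤ n * (G.card * h) := by gcongr
      _ = (n * G.card) * h := by ring
      _ ≤ ((1 + ε) * N) * h := by gcongr
      _ = (1 + ε) * L := by rw [mul_assoc, hNh]
  have hT1 : T ≤ (1 + ε) / ε * Zc s / ((1 - ε) * lam) * L := by
    rw [div_mul_eq_mul_div, le_div_iff₀ (by positivity)]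
    calc T * ((1 - ε) * lam) ≤ T * (G.card * h) := by gcongr
      _ = (T * G.card) * h := by ring
      _ ≤ ((1 + ε) / ε * N * Zc s) * h := by gcongr
      _ = (1 + ε) / ε * Zc s * (N * h) := by ring
      _ = _ := by rw [hNh]
  obtain ⟨z, hzK, hz⟩ := hgc (by
      rw [hdD]
      calc σ' * (n:ℝ) ^ s ≤ σ' * nmax ^ s := by gcongr
        _ = D := rfl
        _ < 2 * D := by linarith)
  refine (iInf₂_le z hzK).trans (hz.trans ?_)
  rw [hNE, hcE, ← ENNReal.ofReal_mul (by positivity)]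
  apply ENNReal.ofReal_le_ofReal
  have hhs : h ^ (-s) = (N:ℝ) ^ s * L ^ (-s) := by
    rw [hh, Real.div_rpow hL0.le hN0'.le, Real.rpow_neg hN0'.le, div_inv_eq_mul, mul_comm]
  have hLL : L ^ (-s) * L ^ s = 1 := by
    rw [← Real.rpow_add hL0]; simp
  have hLL2 : L ^ (-s) * L = L ^ (1 - s) := by
    nth_rewrite 2 [← Real.rpow_one L]
    rw [← Real.rpow_add hL0]; ring_nf
  have e1 : ((1 - ε) * (1 - 2 * ε) * h) ^ (-s) * (σ' * (n:ℝ) ^ s) ≤
      (((1 - ε) * (1 - 2 * ε)) ^ (-s) * ((1 + ε) / (1 - ε)) ^ s * σ' * lam ^ (-s)) * (N:ℝ) ^ s := by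
    rw [Real.mul_rpow (by positivity) hhpos.le, hhs]
    have hn2 : (n:ℝ) ^ s ≤ ((1 + ε) / (1 - ε)) ^ s * L ^ s * lam ^ (-s) := by
      have e2 : nmax = ((1 + ε) / (1 - ε)) * L / lam := by rw [hnmax]; field_simp
      calc (n:ℝ) ^ s ≤ nmax ^ s := by gcongr
        _ = ((1 + ε) / (1 - ε)) ^ s * L ^ s * lam ^ (-s) := by
          rw [e2, Real.div_rpow (by positivity) hpos.le, Real.mul_rpow (by positivity) hL0.le,
            Real.rpow_neg hpos.le, div_eq_mul_inv]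
    calc ((1 - ε) * (1 - 2 * ε)) ^ (-s) * ((N:ℝ) ^ s * L ^ (-s)) * (σ' * (n:ℝ) ^ s)
        ≤ ((1 - ε) * (1 - 2 * ε)) ^ (-s) * ((N:ℝ) ^ s * L ^ (-s)) *
          (σ' * (((1 + ε) / (1 - ε)) ^ s * L ^ s * lam ^ (-s))) := by gcongr
      _ = (((1 - ε) * (1 - 2 * ε)) ^ (-s) * ((1 + ε) / (1 - ε)) ^ s * σ' * lam ^ (-s)) * (N:ℝ) ^ s
          * (L ^ (-s) * L ^ s) := by ring
      _ = _ := by rw [hLL, mul_one]
  have e3 : (ε / 2 * h) ^ (-s) * T ≤ ε * (N:ℝ) ^ s := by
    rw [Real.mul_rpow (by positivity) hhpos.le, hhs]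
    calc (ε / 2) ^ (-s) * ((N:ℝ) ^ s * L ^ (-s)) * T
        ≤ (ε / 2) ^ (-s) * ((N:ℝ) ^ s * L ^ (-s)) *
          ((1 + ε) / ε * Zc s / ((1 - ε) * lam) * L) := by gcongr
      _ = (A * (L ^ (-s) * L)) * (N:ℝ) ^ s := by rw [hA]; ring
      _ ≤ ε * (N:ℝ) ^ s := by rw [hLL2]; gcongr
  calc ((1 - ε) * (1 - 2 * ε) * h) ^ (-s) * (σ' * (n:ℝ) ^ s) + (ε / 2 * h) ^ (-s) * T
      ≤ (((1 - ε) * (1 - 2 * ε)) ^ (-s) * ((1 + ε) / (1 - ε)) ^ s * σ' * lam ^ (-s)) * (N:ℝ) ^ s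
        + ε * (N:ℝ) ^ s := add_le_add e1 e3
    _ = (((1 - ε) * (1 - 2 * ε)) ^ (-s) * ((1 + ε) / (1 - ε)) ^ s * σ' * lam ^ (-s) + ε)
        * (N:ℝ) ^ s := by ring
    _ ≤ c' * (N:ℝ) ^ s := by gcongr

/-- **Main theorem**: for a compact set `K` of positive measure the normalized polarization
constants converge to `sig s * volume K ^ (-s)`. -/
theorem main {s : ℝ} (hs : 1 < s) {K : Set ℝ} (hK : IsCompact K) (hpos : 0 < volume.real K) :
    Tendsto (fun N : ℕ => P s K N / (N:ℝ≥0∞) ^ s) atTop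
      (𝓝 (sig s * ENNReal.ofReal (volume.real K ^ (-s)))) := by
  rw [tendsto_order]
  constructor
  · intro a ha
    obtain ⟨b, hab, hb⟩ := exists_between ha
    filter_upwards [lower hs hK hpos hb] with N hN
    exact lt_of_lt_of_le hab hN
  · intro a ha
    obtain ⟨b, hb, hba⟩ := exists_between ha
    filter_upwards [upper hs hK hpos hb] with N hN
    exact lt_of_le_of_lt hN hba

end Pool.Agent.W86.Polar
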