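import Pool.Agent.W668.Uni.Stmts

/-!
# UNI-TIME: the integral of `1/rho`
-/

set_option autoImplicit false

open Set MeasureTheory
open scoped ContDiff Topology

namespace Pool.Agent.W668.Uni

noncomputable section

namespace Time

theorem evY_add (a b : Y) (y t : ℝ) : evY (a + b) y t = evY a y t + evY b y t := rfl
theorem evY_sub (a b : Y) (y t : ℝ) : evY (a - b) y t = evY a y t - evY b y t := rfl
theorem evY_mul (a b : Y) (y t : ℝ) : evY (a * b) y t = evY a y t * evY b y t := rfl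
theorem evY_neg (a : Y) (y t : ℝ) : evY (-a) y t = -evY a y t := rfl
theorem evY_one (y t : ℝ) : evY (1 : Y) y t = 1 := rfl
theorem evY_smul (r : ℝ) (a : Y) (y t : ℝ) : evY (r • a) y t = r * evY a y t := rfl
theorem evY_pow (a : Y) (n : ℕ) (y t : ℝ) : evY (a ^ n) y t = (evY a y t) ^ n := rfl

theorem evY_w (y t : ℝ) (h0 : 0 ≤ t) (h1 : t ≤ Real.pi / 2) : evY w y t = Real.sin t := by
  have h : (Set.projIcc (0 : ℝ) (Real.pi / 2) Th_le t) = ⟨t, h0, h1⟩ :=
    Set.projIcc_of_mem Th_le ⟨h0, h1⟩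
  show Real.sin ((Set.projIcc (0 : ℝ) (Real.pi / 2) Th_le t) : ℝ) = Real.sin t
  rw [h]

theorem evY_c (y t : ℝ) (h0 : 0 ≤ t) (h1 : t ≤ Real.pi / 2) : evY c y t = Real.cos t := by
  have h : (Set.projIcc (0 : ℝ) (Real.pi / 2) Th_le t) = ⟨t, h0, h1⟩ :=
    Set.projIcc_of_mem Th_le ⟨h0, h1⟩
  show Real.cos ((Set.projIcc (0 : ℝ) (Real.pi / 2) Th_le t) : ℝ) = Real.cos t
  rw [h]

theorem abs_evY_le (a : Y) (y t : ℝ) : |evY a y t| ≤ ‖a‖ :=
  ContinuousMap.norm_coe_le_norm a _

theorem continuous_evY' (h : Y) (y : ℝ) : Continuous (fun t : ℝ => evY h y t) :=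
  (continuous_evY h).comp (by fun_prop : Continuous fun t : ℝ => (y, t))

theorem evY_inverse (a : Y) (ha : ∀ z, a z ≠ 0) (y t : ℝ) :
    evY (Ring.inverse a) y t = (evY a y t)⁻¹ := by
  have hu : IsUnit a := (ContinuousMap.isUnit_iff_forall_ne_zero a).2 ha
  have h1 : Ring.inverse a * a = 1 := Ring.inverse_mul_cancel a hu
  have h2 : evY (Ring.inverse a) y t * evY a y t = 1 := by
    rw [← evY_mul, h1, evY_one]
  exact eq_inv_of_mul_eq_one_left h2

/-- pointwise bound of `rho` -/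
theorem rho_ge (ε : ℝ) (η : Y) (h : |ε| * ‖η‖ ≤ 1 / 4) (z : I1 × Th) :
    3 / 4 ≤ (rho ε η) z := by
  have e : (rho ε η) z = 1 + ε * (Real.sin (z.2 : ℝ) * η z) := rfl
  rw [e]
  have h1 : |ε * (Real.sin (z.2 : ℝ) * η z)| ≤ 1 / 4 := by
    rw [abs_mul, abs_mul]
    have h2 : |Real.sin (z.2 : ℝ)| ≤ 1 := Real.abs_sin_le_one _
    have h3 : |η z| ≤ ‖η‖ := ContinuousMap.norm_coe_le_norm η z
    calc |ε| * (|Real.sin (z.2 : ℝ)| * |η z|) ≤ |ε| * (1 * ‖η‖) := by gcongr
      _ = |ε| * ‖η‖ := by ring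
      _ ≤ 1 / 4 := h
  have := neg_abs_le (ε * (Real.sin (z.2 : ℝ) * η z))
  linarith

theorem dd_eq (ε : ℝ) (η : Y) (z : I1 × Th) :
    (dd ε η) z = Real.cos (z.2 : ℝ) ^ 2 + (rho ε η) z ^ 2 * Real.sin (z.2 : ℝ) ^ 2 := by
  have e : (rho ε η) z = 1 + ε * (Real.sin (z.2 : ℝ) * η z) := rfl
  have e2 : (dd ε η) z = 1 + ε * (Real.sin (z.2 : ℝ) ^ 3
    * (2 * η z + ε * (Real.sin (z.2 : ℝ) * η z ^ 2))) := rfl
  rw [e, e2]
  have := Real.sin_sq_add_cos_sq (z.2 : ℝ)
  linear_combination -this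

theorem dd_pos (ε : ℝ) (η : Y) (h : |ε| * ‖η‖ ≤ 1 / 4) (z : I1 × Th) : 0 < (dd ε η) z := by
  rw [dd_eq]
  have h1 := rho_ge ε η h z
  have h2 := Real.sin_sq_add_cos_sq (z.2 : ℝ)
  have h3 : 9 / 16 ≤ (rho ε η) z ^ 2 := by nlinarith
  nlinarith [sq_nonneg (Real.sin (z.2 : ℝ)), sq_nonneg (Real.cos (z.2 : ℝ))]

/-- the integral equation for `rho` -/
theorem rho_eqn (O : Ops) (ε : ℝ) (F η : Y) (h : EtaEq O ε F η) (y t : ℝ)
    (h0 : 0 ≤ t) (h1 : t ≤ Real.pi / 2) :
    evY (rho ε η) y t ^ 2 * Real.sin t ^ 2 = Real.sin t ^ 2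
        - 2 * ∫ s in (0 : ℝ)..t, Real.sin s ^ 2 * (ε * evY F y s) * evY (rho ε η) y s := by
  have e1 : evY (rho ε η) y t = 1 + ε * (Real.sin t * evY η y t) := by
    show 1 + ε * (evY w y t * evY η y t) = _
    rw [evY_w y t h0 h1]
  have hη : evY η y t = -evY (O.S3 (F * rho ε η)) y t
      - (ε / 2) * (Real.sin t * evY η y t ^ 2) := by
    have h2 := congrArg (fun a => evY a y t) h
    rw [← evY_w y t h0 h1]
    exact h2
  have hS := O.S3_ev (F * rho ε η) y t h0 h1
  have e2 : (∫ s in (0 : ℝ)..t, Real.sin s ^ 2 * (ε * evY F y s) * evY (rho ε η) y s)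
      = ε * ∫ s in (0 : ℝ)..t, Real.sin s ^ 2 * evY (F * rho ε η) y s := by
    rw [← intervalIntegral.integral_const_mul]
    refine intervalIntegral.integral_congr fun s _ => ?_
    simp only [evY_mul]
    ring
  rw [e2, ← hS, e1]
  linear_combination (2 * ε * Real.sin t ^ 3) * hη

/-- the angle integral for one of the two signs -/
theorem half (O : Ops) (ε : ℝ) (F η : Y) (h : EtaEq O ε F η) (hb : |ε| * ‖η‖ ≤ 1 / 4)
    (y : ℝ) :
    (∫ t in (0 : ℝ)..(Real.pi / 2), (1 / evY (rho ε η) y t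
      - ε * (evY F y t * Real.sin t * Real.cos t / evY (dd ε η) y t))) = Real.pi / 2 := by
  set r : ℝ → ℝ := fun t => evY (rho ε η) y t with hr
  have hrge : ∀ t, 3 / 4 ≤ r t := fun t => rho_ge ε η hb _
  have hrpos : ∀ t, 0 < r t := fun t => by have := hrge t; linarith
  have hrc : Continuous r := continuous_evY' _ y
  have hFc : Continuous (fun t => evY F y t) := continuous_evY' _ y
  have hdc : Continuous (fun t => evY (dd ε η) y t) := continuous_evY' _ y
  have hdpos : ∀ t, 0 < evY (dd ε η) y t := fun t => dd_pos ε η hb _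
  have hdeq : ∀ t, 0 ≤ t → t ≤ Real.pi / 2 → evY (dd ε η) y t
      = Real.cos t ^ 2 + r t ^ 2 * Real.sin t ^ 2 := by
    intro t h0 h1
    have h2 := dd_eq ε η (Set.projIcc (0 : ℝ) 1 zero_le_one y,
      Set.projIcc (0 : ℝ) (Real.pi / 2) Th_le t)
    have h3 : (Set.projIcc (0 : ℝ) (Real.pi / 2) Th_le t) = ⟨t, h0, h1⟩ :=
      Set.projIcc_of_mem Th_le ⟨h0, h1⟩
    have h4 : ((Set.projIcc (0 : ℝ) (Real.pi / 2) Th_le t) : ℝ) = t := by rw [h3]
    simp only at h2
    rw [h4] at h2
    exact h2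
  -- the function under the root
  set V : ℝ → ℝ := fun t => Real.sin t ^ 2
    - 2 * ∫ s in (0 : ℝ)..t, Real.sin s ^ 2 * (ε * evY F y s) * r s with hV
  have hVr : ∀ t, 0 ≤ t → t ≤ Real.pi / 2 → V t = r t ^ 2 * Real.sin t ^ 2 :=
    fun t h0 h1 => (rho_eqn O ε F η h y t h0 h1).symm
  have hVd : ∀ t, HasDerivAt V (2 * Real.sin t * Real.cos t
      - 2 * (Real.sin t ^ 2 * (ε * evY F y t) * r t)) t := by
    intro t
    have hc : Continuous (fun s => Real.sin s ^ 2 * (ε * evY F y s) * r s) := by fun_prop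
    have h1 : HasDerivAt (fun t => ∫ s in (0 : ℝ)..t,
        Real.sin s ^ 2 * (ε * evY F y s) * r s)
        (Real.sin t ^ 2 * (ε * evY F y t) * r t) t :=
      intervalIntegral.integral_hasDerivAt_right (hc.intervalIntegrable _ _)
        (hc.stronglyMeasurableAtFilter _ _) hc.continuousAt
    have h2 : HasDerivAt (fun t => Real.sin t ^ 2) (2 * Real.sin t * Real.cos t) t := by
      have := (Real.hasDerivAt_sin t).pow 2
      refine this.congr_deriv ?_
      norm_num
    exact h2.sub (h1.const_mul 2)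
  have hVc : Continuous V := continuous_iff_continuousAt.2 fun t => (hVd t).continuousAt
  set U : ℝ → ℝ := fun t => Real.sqrt (V t) with hU
  have hUr : ∀ t, 0 ≤ t → t ≤ Real.pi / 2 → U t = r t * Real.sin t := by
    intro t h0 h1
    have hs : 0 ≤ Real.sin t := Real.sin_nonneg_of_nonneg_of_le_pi h0 (by linarith [Real.pi_pos])
    simp only [hU]
    rw [hVr t h0 h1, ← mul_pow]
    exact Real.sqrt_sq (mul_nonneg (hrpos t).le hs)
  have hUd : ∀ t ∈ Ioo (0 : ℝ) (Real.pi / 2), HasDerivAt U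
      (Real.cos t / r t - ε * evY F y t * Real.sin t) t := by
    intro t ht
    have hs : 0 < Real.sin t := Real.sin_pos_of_pos_of_lt_pi ht.1 (by linarith [Real.pi_pos, ht.2])
    have hne : V t ≠ 0 := by
      rw [hVr t ht.1.le ht.2.le]
      have := hrpos t
      positivity
    have h1 := (hVd t).sqrt hne
    refine h1.congr_deriv ?_
    have h2 : Real.sqrt (V t) = r t * Real.sin t := hUr t ht.1.le ht.2.le
    rw [h2]
    have h3 := (hrpos t).ne'
    have h4 := hs.ne'
    field_simp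
  have hUc : Continuous U := hVc.sqrt
  -- the complex curve
  set z : ℝ → ℂ := fun t => (Real.cos t : ℂ) + (U t : ℂ) * Complex.I with hz
  have hzre : ∀ t, (z t).re = Real.cos t := fun t => by simp [hz, Complex.cos_ofReal_re]
  have hzim : ∀ t, (z t).im = U t := fun t => by simp [hz]
  have hzslit : ∀ t ∈ Icc (0 : ℝ) (Real.pi / 2), z t ∈ Complex.slitPlane := by
    intro t ht
    rw [Complex.mem_slitPlane_iff]
    rcases eq_or_lt_of_le ht.1 with h0 | h0
    · left
      rw [hzre, ← h0]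
      simp
    · right
      rw [hzim, hUr t ht.1 ht.2]
      have hs : 0 < Real.sin t := Real.sin_pos_of_pos_of_lt_pi h0
        (by linarith [Real.pi_pos, ht.2])
      exact (mul_pos (hrpos t) hs).ne'
  have hzc : Continuous z := by fun_prop
  set α : ℝ → ℝ := fun t => (Complex.log (z t)).im with hα
  have hαc : ContinuousOn α (Icc (0 : ℝ) (Real.pi / 2)) := by
    intro t ht
    have h1 : ContinuousAt (fun t => Complex.log (z t)) t :=
      (hzc.continuousAt).clog (hzslit t ht)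
    exact (Complex.continuous_im.continuousAt.comp h1).continuousWithinAt
  have hαd : ∀ t ∈ Ioo (0 : ℝ) (Real.pi / 2), HasDerivAt α
      (1 / r t - ε * (evY F y t * Real.sin t * Real.cos t / evY (dd ε η) y t)) t := by
    intro t ht
    have h1 : HasDerivAt z (-(Real.sin t : ℂ)
        + ((Real.cos t / r t - ε * evY F y t * Real.sin t : ℝ) : ℂ) * Complex.I) t := by
      have h2 : HasDerivAt (fun t : ℝ => (Real.cos t : ℂ)) ((-Real.sin t : ℝ) : ℂ) t :=
        (Real.hasDerivAt_cos t).ofReal_comp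
      have h3 : HasDerivAt (fun t : ℝ => (U t : ℂ))
        ((Real.cos t / r t - ε * evY F y t * Real.sin t : ℝ) : ℂ) t := (hUd t ht).ofReal_comp
      refine (h2.add (h3.mul_const Complex.I)).congr_deriv ?_
      push_cast
      ring
    have h4 := h1.clog_real (hzslit t ⟨ht.1.le, ht.2.le⟩)
    have h5 : HasDerivAt α ((-(Real.sin t : ℂ)
        + ((Real.cos t / r t - ε * evY F y t * Real.sin t : ℝ) : ℂ) * Complex.I) / z t).im t := by
      have := (Complex.imCLM.hasFDerivAt.comp_hasDerivAt t h4)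
      exact this
    refine h5.congr_deriv ?_
    have h6 : Complex.normSq (z t) = evY (dd ε η) y t := by
      rw [Complex.normSq_apply, hzre, hzim, hdeq t ht.1.le ht.2.le, hUr t ht.1.le ht.2.le]
      ring
    have h8 := (hdpos t).ne'
    have h9 := (hrpos t).ne'
    rw [Complex.div_im, h6, hzre, hzim]
    simp only [Complex.add_im, Complex.add_re, Complex.neg_im, Complex.neg_re,
      Complex.ofReal_im, Complex.ofReal_re, Complex.mul_im, Complex.mul_re, Complex.I_im,
      Complex.I_re]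
    rw [hUr t ht.1.le ht.2.le]
    have h10 := hdeq t ht.1.le ht.2.le
    field_simp
    rw [h10]
    ring
  have hint : IntervalIntegrable (fun t => 1 / r t
      - ε * (evY F y t * Real.sin t * Real.cos t / evY (dd ε η) y t)) volume 0
      (Real.pi / 2) := by
    apply Continuous.intervalIntegrable
    have h1 : Continuous (fun t => 1 / r t) :=
      continuous_const.div hrc fun t => (hrpos t).ne'
    have h2 : Continuous (fun t => evY F y t * Real.sin t * Real.cos t / evY (dd ε η) y t) :=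
      ((hFc.mul Real.continuous_sin).mul Real.continuous_cos).div hdc fun t => (hdpos t).ne'
    exact h1.sub (h2.const_mul ε)
  have hfin := intervalIntegral.integral_eq_sub_of_hasDerivAt_of_le Th_le hαc hαd hint
  rw [hfin]
  have ha0 : α 0 = 0 := by
    have h1 : z 0 = 1 := by
      apply Complex.ext
      · rw [hzre]; simp
      · rw [hzim, hUr 0 le_rfl Th_le]; simp
    simp only [hα]
    rw [h1]
    simp
  have ha1 : α (Real.pi / 2) = Real.pi / 2 := by
    have h1 : z (Real.pi / 2) = (r (Real.pi / 2) : ℂ) * Complex.I := by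
      apply Complex.ext
      · rw [hzre]; simp
      · rw [hzim, hUr (Real.pi / 2) Th_le le_rfl]; simp
    simp only [hα]
    rw [h1, Complex.log_ofReal_mul (hrpos _) Complex.I_ne_zero, Complex.log_I]
    simp
  rw [ha0, ha1, sub_zero]

theorem neg_mem (e₀ M : ℝ) (p : ℝ × Y) (hp : p ∈ dom e₀ M) : (-p.1, p.2) ∈ dom e₀ M :=
  ⟨by simpa using hp.1, hp.2⟩

theorem main : P_time := by
  intro O M e₀ η sol p hp y _ _
  have hp' := neg_mem e₀ M p hp
  have hq1 := sol.eqn p hp
  have hq2 := sol.eqn (-p.1, p.2) hp'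
  have hb1 := sol.bound p hp
  have hb2 := sol.bound (-p.1, p.2) hp'
  simp only at hq2 hb2
  refine ⟨?_, ?_⟩
  · intro t h0 h1
    refine ⟨rho_ge _ _ hb1 _, rho_ge _ _ hb2 _, rho_eqn O p.1 p.2 (η p) hq1 y t h0 h1, ?_⟩
    rw [rho_eqn O (-p.1) p.2 (η (-p.1, p.2)) hq2 y t h0 h1]
    have e : (∫ s in (0 : ℝ)..t, Real.sin s ^ 2 * (-p.1 * evY p.2 y s)
        * evY (rho (-p.1) (η (-p.1, p.2))) y s)
        = -∫ s in (0 : ℝ)..t, Real.sin s ^ 2 * (p.1 * evY p.2 y s)
            * evY (rho (-p.1) (η (-p.1, p.2))) y s := by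
      rw [← intervalIntegral.integral_neg]
      refine intervalIntegral.integral_congr fun s _ => ?_
      ring
    rw [e]
    ring
  · have H1 := half O p.1 p.2 (η p) hq1 hb1 y
    have H2 := half O (-p.1) p.2 (η (-p.1, p.2)) hq2 hb2 y
    have hr1 : ∀ t, 0 < evY (rho p.1 (η p)) y t := fun t => by
      have := rho_ge p.1 (η p) hb1 (Set.projIcc (0 : ℝ) 1 zero_le_one y,
        Set.projIcc (0 : ℝ) (Real.pi / 2) Th_le t)
      have h2 : evY (rho p.1 (η p)) y t = (rho p.1 (η p)) (Set.projIcc (0 : ℝ) 1 zero_le_one y,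
        Set.projIcc (0 : ℝ) (Real.pi / 2) Th_le t) := rfl
      rw [h2]; linarith
    have hr2 : ∀ t, 0 < evY (rho (-p.1) (η (-p.1, p.2))) y t := fun t => by
      have := rho_ge (-p.1) (η (-p.1, p.2)) hb2 (Set.projIcc (0 : ℝ) 1 zero_le_one y,
        Set.projIcc (0 : ℝ) (Real.pi / 2) Th_le t)
      have h2 : evY (rho (-p.1) (η (-p.1, p.2))) y t
        = (rho (-p.1) (η (-p.1, p.2))) (Set.projIcc (0 : ℝ) 1 zero_le_one y,
        Set.projIcc (0 : ℝ) (Real.pi / 2) Th_le t) := rfl
      rw [h2]; linarith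
    have hd1 : ∀ t, 0 < evY (dd p.1 (η p)) y t := fun t => dd_pos p.1 (η p) hb1 _
    have hd2 : ∀ t, 0 < evY (dd (-p.1) (η (-p.1, p.2))) y t :=
      fun t => dd_pos (-p.1) (η (-p.1, p.2)) hb2 _
    have i1 : IntervalIntegrable (fun t => 1 / evY (rho p.1 (η p)) y t
        - p.1 * (evY p.2 y t * Real.sin t * Real.cos t / evY (dd p.1 (η p)) y t)) volume 0
        (Real.pi / 2) := by
      apply Continuous.intervalIntegrable
      exact (continuous_const.div (continuous_evY' _ y) fun t => (hr1 t).ne').sub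
        (continuous_const.mul ((((continuous_evY' _ y).mul Real.continuous_sin).mul
          Real.continuous_cos).div (continuous_evY' _ y) fun t => (hd1 t).ne'))
    have i2 : IntervalIntegrable (fun t => 1 / evY (rho (-p.1) (η (-p.1, p.2))) y t
        - (-p.1) * (evY p.2 y t * Real.sin t * Real.cos t
          / evY (dd (-p.1) (η (-p.1, p.2))) y t)) volume 0 (Real.pi / 2) := by
      apply Continuous.intervalIntegrable
      exact (continuous_const.div (continuous_evY' _ y) fun t => (hr2 t).ne').sub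
        (continuous_const.mul ((((continuous_evY' _ y).mul Real.continuous_sin).mul
          Real.continuous_cos).div (continuous_evY' _ y) fun t => (hd2 t).ne'))
    have i3 : IntervalIntegrable (fun t => p.1 ^ 2 * (Real.sin t ^ 2
        * evY (p.2 * kE η p) y t)) volume 0 (Real.pi / 2) := by
      apply Continuous.intervalIntegrable
      exact continuous_const.mul ((Real.continuous_sin.pow 2).mul (continuous_evY' _ y))
    have e1 : evX (That O η p) y
        = ∫ s in (0 : ℝ)..(Real.pi / 2), Real.sin s ^ 2 * evY (p.2 * kE η p) y s :=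
      O.W_ev _ y
    rw [e1, ← intervalIntegral.integral_const_mul]
    have e2 : Real.pi = (∫ t in (0 : ℝ)..(Real.pi / 2), (1 / evY (rho p.1 (η p)) y t
        - p.1 * (evY p.2 y t * Real.sin t * Real.cos t / evY (dd p.1 (η p)) y t)))
        + ∫ t in (0 : ℝ)..(Real.pi / 2), (1 / evY (rho (-p.1) (η (-p.1, p.2))) y t
        - (-p.1) * (evY p.2 y t * Real.sin t * Real.cos t
          / evY (dd (-p.1) (η (-p.1, p.2))) y t)) := by
      rw [H1, H2]; ring
    refine Eq.trans ?_ (congrArg (fun a : ℝ => a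
      + ∫ t in (0 : ℝ)..(Real.pi / 2), p.1 ^ 2 * (Real.sin t ^ 2
        * evY (p.2 * kE η p) y t)) e2.symm)
    rw [← intervalIntegral.integral_add i1 i2, ← intervalIntegral.integral_add (i1.add i2) i3]
    refine intervalIntegral.integral_congr fun t ht => ?_
    rw [Set.uIcc_of_le Th_le] at ht
    have hk : evY (kE η p) y t = -(Real.sin t ^ 2 * Real.cos t
        * (evY (xi p.1 (η p)) y t + evY (xi (-p.1) (η (-p.1, p.2))) y t)
        * (evY (dd p.1 (η p)) y t)⁻¹ * (evY (dd (-p.1) (η (-p.1, p.2))) y t)⁻¹) := by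
      have h1 : evY (kE η p) y t = -(evY w y t ^ 2 * evY c y t
        * (evY (xi p.1 (η p)) y t + evY (xi (-p.1) (η (-p.1, p.2))) y t)
        * evY (di p.1 (η p)) y t * evY (di (-p.1) (η (-p.1, p.2))) y t) := rfl
      rw [h1, evY_w y t ht.1 ht.2, evY_c y t ht.1 ht.2]
      unfold di
      rw [evY_inverse _ (fun z => (dd_pos p.1 (η p) hb1 z).ne'),
        evY_inverse _ (fun z => (dd_pos (-p.1) (η (-p.1, p.2)) hb2 z).ne')]
    have hdd1 : evY (dd p.1 (η p)) y t = 1 + p.1 * (Real.sin t ^ 3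
        * evY (xi p.1 (η p)) y t) := by
      rw [← evY_w y t ht.1 ht.2]; rfl
    have hdd2 : evY (dd (-p.1) (η (-p.1, p.2))) y t = 1 + (-p.1) * (Real.sin t ^ 3
        * evY (xi (-p.1) (η (-p.1, p.2))) y t) := by
      rw [← evY_w y t ht.1 ht.2]; rfl
    have n1 := (hd1 t).ne'
    have n2 := (hd2 t).ne'
    have key : p.1 * (evY p.2 y t * Real.sin t * Real.cos t / evY (dd p.1 (η p)) y t)
        + (-p.1) * (evY p.2 y t * Real.sin t * Real.cos t
          / evY (dd (-p.1) (η (-p.1, p.2))) y t)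
        = p.1 ^ 2 * (Real.sin t ^ 2 * (evY p.2 y t * evY (kE η p) y t)) := by
      rw [hk]
      have e3 : p.1 * (evY p.2 y t * Real.sin t * Real.cos t / evY (dd p.1 (η p)) y t)
        + (-p.1) * (evY p.2 y t * Real.sin t * Real.cos t
          / evY (dd (-p.1) (η (-p.1, p.2))) y t)
        = p.1 * (evY p.2 y t * Real.sin t * Real.cos t) * (evY (dd (-p.1) (η (-p.1, p.2))) y t
          - evY (dd p.1 (η p)) y t) * (evY (dd p.1 (η p)) y t)⁻¹
          * (evY (dd (-p.1) (η (-p.1, p.2))) y t)⁻¹ := by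
        field_simp
        ring
      rw [e3]
      have e4 : evY (dd (-p.1) (η (-p.1, p.2))) y t - evY (dd p.1 (η p)) y t
        = -(p.1 * Real.sin t ^ 3 * (evY (xi p.1 (η p)) y t
          + evY (xi (-p.1) (η (-p.1, p.2))) y t)) := by
        rw [hdd1, hdd2]; ring
      rw [e4]
      ring
    simp only [evY_mul]
    linear_combination key

end Time

theorem uni_time : P_time := Time.main

end

end Pool.Agent.W668.Uni
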