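import Mathlib

set_option autoImplicit false
open Filter Topology MeasureTheory
open scoped ENNReal

namespace Pool.Agent.W86.Polar

/-- The Riesz kernel with values in the extended nonnegative reals. -/
noncomputable def f (s r : ℝ) : ℝ≥0∞ := (ENNReal.ofReal r) ^ (-s)

lemma f_anti {s : ℝ} (hs : 0 < s) {r r' : ℝ} (h : r ≤ r') : f s r' ≤ f s r := by
  unfold f
  rw [ENNReal.rpow_neg, ENNReal.rpow_neg]
  exact ENNReal.inv_le_inv.2 (ENNReal.rpow_le_rpow (ENNReal.ofReal_le_ofReal h) hs.le)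

lemma f_of_pos {s r : ℝ} (hr : 0 < r) : f s r = ENNReal.ofReal (r ^ (-s)) := by
  unfold f
  exact ENNReal.ofReal_rpow_of_pos hr

lemma f_mul {s c r : ℝ} (hc : 0 < c) : f s (c * r) = ENNReal.ofReal (c ^ (-s)) * f s r := by
  unfold f
  rw [ENNReal.ofReal_mul hc.le, ENNReal.mul_rpow_of_ne_top ENNReal.ofReal_ne_top
    ENNReal.ofReal_ne_top, ENNReal.ofReal_rpow_of_pos hc]

lemma f_zero {s : ℝ} (hs : 0 < s) : f s 0 = ⊤ := by
  unfold f
  rw [ENNReal.ofReal_zero, ENNReal.zero_rpow_of_neg (by linarith)]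

lemma f_cont (s : ℝ) : Continuous (f s) := by
  unfold f
  exact ENNReal.continuous_rpow_const.comp ENNReal.continuous_ofReal

/-- The Riesz potential of a finite family of points. -/
noncomputable def U (s : ℝ) {ι : Type} [Fintype ι] (X : ι → ℝ) (y : ℝ) : ℝ≥0∞ :=
  ∑ j, f s |y - X j|

/-- The polarization constant. -/
noncomputable def P (s : ℝ) (K : Set ℝ) (N : ℕ) : ℝ≥0∞ :=
  ⨆ (x : Fin N → ℝ) (_ : ∀ i, x i ∈ K), ⨅ y ∈ K, U s x y

lemma le_P {s : ℝ} {K : Set ℝ} (hne : K.Nonempty) {ι : Type} [Fintype ι] {N : ℕ}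
    (hN : Fintype.card ι ≤ N) (X : ι → ℝ) (hX : ∀ i, X i ∈ K) {B : ℝ≥0∞}
    (hB : ∀ y ∈ K, B ≤ U s X y) : B ≤ P s K N := by
  classical
  obtain ⟨k0, hk0⟩ := hne
  obtain ⟨e⟩ : Nonempty (ι ↪ Fin N) :=
    Function.Embedding.nonempty_of_card_le (by simpa using hN)
  set x : Fin N → ℝ := Function.extend e X (fun _ => k0) with hx
  have hxe : ∀ i, x (e i) = X i := fun i => e.injective.extend_apply _ _ _
  have hxK : ∀ j, x j ∈ K := by
    intro j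
    by_cases h : ∃ i, e i = j
    · obtain ⟨i, rfl⟩ := h
      rw [hxe]; exact hX i
    · rw [hx, Function.extend_apply' _ _ _ h]; exact hk0
  unfold P
  refine le_iSup₂_of_le x hxK (le_iInf₂ fun y hy => (hB y hy).trans ?_)
  unfold U
  calc ∑ i, f s |y - X i| = ∑ i, f s |y - x (e i)| := by simp_rw [hxe]
    _ = ∑ j ∈ Finset.univ.map e, f s |y - x j| := by rw [Finset.sum_map]
    _ ≤ ∑ j, f s |y - x j| := Finset.sum_le_sum_of_subset (Finset.subset_univ _)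

/-- Gluing configurations. -/
lemma le_P_glue {s : ℝ} {K : Set ℝ} (hne : K.Nonempty) {N : ℕ} (I : Finset ℤ) (m : ℤ → ℕ)
    (hm : ∑ i ∈ I, m i ≤ N) (X : ∀ i : ℤ, Fin (m i) → ℝ) (hX : ∀ i ∈ I, ∀ k, X i k ∈ K)
    {B : ℝ≥0∞} (hB : ∀ y ∈ K, ∃ i ∈ I, B ≤ U s (X i) y) : B ≤ P s K N := by
  classical
  refine le_P (ι := Σ i : I, Fin (m i)) hne ?_ (fun p => X p.1 p.2)
    (fun p => hX p.1 p.1.2 p.2) ?_
  · rw [Fintype.card_sigma]
    simp only [Fintype.card_fin]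
    calc ∑ i : I, m i = ∑ i ∈ I, m i := Finset.sum_coe_sort I m
      _ ≤ N := hm
  · intro y hy
    obtain ⟨i, hi, hBi⟩ := hB y hy
    refine hBi.trans ?_
    unfold U
    rw [Fintype.sum_sigma]
    exact Finset.single_le_sum (f := fun i : I => ∑ k : Fin (m i), f s |y - X i k|)
      (fun _ _ => bot_le) (Finset.mem_univ (⟨i, hi⟩ : I))

/-- The universal constant. -/
noncomputable def sig (s : ℝ) : ℝ≥0∞ :=
  ⨆ (n : ℕ) (_ : 1 ≤ n) (X : Fin n → ℝ) (_ : ∀ i, X i ∈ Set.Icc (0:ℝ) 1),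
    (⨅ y ∈ Set.Icc (0:ℝ) 1, U s X y) / (n:ℝ≥0∞) ^ s

lemma U_equiv {s : ℝ} {ι κ : Type} [Fintype ι] [Fintype κ] (e : ι ≃ κ) (X : κ → ℝ) (y : ℝ) :
    U s (X ∘ e) y = U s X y := by
  unfold U
  exact Fintype.sum_equiv e _ _ (fun _ => rfl)

lemma exists_t {s : ℝ} (hs : 0 < s) {c : ℝ≥0∞} (hc : sig s < c) {ι : Type} [Fintype ι]
    (Z : ι → ℝ) (hZ : ∀ i, Z i ∈ Set.Icc (0:ℝ) 1) :
    ∃ t ∈ Set.Icc (0:ℝ) 1, U s Z t ≤ c * (Fintype.card ι : ℝ≥0∞) ^ s := by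
  rcases Nat.eq_zero_or_pos (Fintype.card ι) with h0 | hpos
  · have : IsEmpty ι := Fintype.card_eq_zero_iff.1 h0
    exact ⟨0, by simp, by simp [U]⟩
  · set n := Fintype.card ι with hn
    set e := Fintype.equivFin ι with he
    set X : Fin n → ℝ := Z ∘ e.symm with hX
    have hXI : ∀ i, X i ∈ Set.Icc (0:ℝ) 1 := fun i => hZ _
    have h1 : (⨅ y ∈ Set.Icc (0:ℝ) 1, U s X y) / (n:ℝ≥0∞) ^ s ≤ sig s := by
      unfold sig
      exact le_iSup_of_le n (le_iSup_of_le hpos (le_iSup_of_le X (le_iSup_of_le hXI le_rfl)))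
    have hn0 : (n:ℝ≥0∞) ^ s ≠ 0 := by
      have : (n:ℝ≥0∞) ≠ 0 := by exact_mod_cast hpos.ne'
      simp only [ne_eq, ENNReal.rpow_eq_zero_iff, not_or, not_and]
      exact ⟨fun h => absurd h this, fun h => absurd h (ENNReal.natCast_ne_top n)⟩
    have hnt : (n:ℝ≥0∞) ^ s ≠ ⊤ :=
      ENNReal.rpow_ne_top_of_nonneg hs.le (ENNReal.natCast_ne_top n)
    have h2 : (⨅ y ∈ Set.Icc (0:ℝ) 1, U s X y) < c * (n:ℝ≥0∞) ^ s := by
      have := lt_of_le_of_lt h1 hc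
      rwa [ENNReal.div_lt_iff (Or.inl hn0) (Or.inl hnt)] at this
    obtain ⟨t, ht, h3⟩ : ∃ t ∈ Set.Icc (0:ℝ) 1, U s X t < c * (n:ℝ≥0∞) ^ s := by
      by_contra hcon
      push Not at hcon
      exact absurd (le_iInf₂ hcon) (not_le.2 h2)
    refine ⟨t, ht, ?_⟩
    have h4 : U s X t = U s Z t := by
      rw [hX]; exact U_equiv e.symm Z t
    rw [← h4]; exact h3.le

end Pool.Agent.W86.Polar
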