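import Mathlib

set_option autoImplicit false
open Filter Topology MeasureTheory
open scoped ENNReal

namespace Pool.Agent.W86.Polar

/-- The two-sided zeta constant. -/
noncomputable def Zc (s : ℝ) : ℝ := ∑' k : ℤ, |(k:ℝ)| ^ (-s)

lemma summ {s : ℝ} (hs : 1 < s) : Summable fun k : ℤ => |(k:ℝ)| ^ (-s) :=
  Real.summable_abs_int_rpow hs

lemma Zc_ge_one {s : ℝ} (hs : 1 < s) : 1 ≤ Zc s := by
  have h := (summ hs).sum_le_tsum {(1:ℤ)} (fun i _ => Real.rpow_nonneg (abs_nonneg _) _)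
  simpa [Zc] using h

lemma sum_shift_le {s : ℝ} (hs : 1 < s) (G : Finset ℤ) (m : ℤ) :
    ∑ i ∈ G, |((i - m : ℤ) : ℝ)| ^ (-s) ≤ Zc s := by
  classical
  have hinj : Function.Injective (fun i : ℤ => i - m) := fun a b h => by simpa using h
  calc ∑ i ∈ G, |((i - m : ℤ) : ℝ)| ^ (-s)
      = ∑ k ∈ G.image (fun i => i - m), |(k:ℝ)| ^ (-s) := by
        rw [Finset.sum_image (fun a _ b _ h => hinj h)]
    _ ≤ Zc s := (summ hs).sum_le_tsum _ (fun i _ => Real.rpow_nonneg (abs_nonneg _) _)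

lemma pigeon {s : ℝ} (hs : 1 < s) {ι : Type} [Fintype ι] (m : ι → ℤ) (G : Finset ℤ)
    (hG : G.Nonempty) {ε : ℝ} (hε : 0 < ε) :
    ∃ i ∈ G, ((Finset.univ.filter (fun j => m j = i)).card : ℝ) * G.card
        ≤ (1 + ε) * Fintype.card ι ∧
      (∑ j, |((i - m j : ℤ) : ℝ)| ^ (-s)) * G.card ≤ (1 + ε) / ε * Fintype.card ι * Zc s := by
  classical
  have hZ : 0 < Zc s := lt_of_lt_of_le one_pos (Zc_ge_one hs)
  have hGc : (0:ℝ) < G.card := by exact_mod_cast hG.card_pos
  set n : ℤ → ℝ := fun i => ((Finset.univ.filter (fun j => m j = i)).card : ℝ) with hn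
  set T : ℤ → ℝ := fun i => ∑ j, |((i - m j : ℤ) : ℝ)| ^ (-s) with hT
  have hn0 : ∀ i, 0 ≤ n i := fun i => Nat.cast_nonneg _
  have hT0 : ∀ i, 0 ≤ T i := fun i =>
    Finset.sum_nonneg fun j _ => Real.rpow_nonneg (abs_nonneg _) _
  have hsn : ∑ i ∈ G, n i ≤ Fintype.card ι := by
    have h1 : ∑ i ∈ G, (Finset.univ.filter (fun j => m j = i)).card
        = (Finset.univ.filter (fun j => m j ∈ G)).card := by
      rw [Finset.card_eq_sum_card_fiberwise (f := m) (t := G)]
      · refine Finset.sum_congr rfl fun i hi => ?_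
        congr 1
        ext j
        simp only [Finset.mem_filter, Finset.mem_univ, true_and]
        constructor
        · intro h; exact ⟨h ▸ hi, h⟩
        · intro h; exact h.2
      · intro j hj
        simpa using hj
    have h2 : ((∑ i ∈ G, (Finset.univ.filter (fun j => m j = i)).card : ℕ) : ℝ)
        ≤ Fintype.card ι := by
      rw [h1]
      exact_mod_cast Finset.card_le_univ _
    simpa [hn] using h2
  have hsT : ∑ i ∈ G, T i ≤ Fintype.card ι * Zc s := by
    rw [hT, Finset.sum_comm]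
    calc ∑ j, ∑ i ∈ G, |((i - m j : ℤ) : ℝ)| ^ (-s) ≤ ∑ _j : ι, Zc s :=
          Finset.sum_le_sum fun j _ => sum_shift_le hs G (m j)
      _ = Fintype.card ι * Zc s := by simp
  have hsum : ∑ i ∈ G, (n i + ε / Zc s * T i) ≤ ∑ i ∈ G, ((1 + ε) * Fintype.card ι / G.card) := by
    rw [Finset.sum_add_distrib, ← Finset.mul_sum, Finset.sum_const, nsmul_eq_mul]
    have h3 : ε / Zc s * ∑ i ∈ G, T i ≤ ε / Zc s * (Fintype.card ι * Zc s) :=
      mul_le_mul_of_nonneg_left hsT (by positivity)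
    have h4 : ε / Zc s * (Fintype.card ι * Zc s) = ε * Fintype.card ι := by
      field_simp
    have h5 : (G.card : ℝ) * ((1 + ε) * Fintype.card ι / G.card) = (1 + ε) * Fintype.card ι := by
      field_simp
    rw [h5]
    linarith
  obtain ⟨i, hi, hle⟩ := Finset.exists_le_of_sum_le hG hsum
  have hle' : (n i + ε / Zc s * T i) * G.card ≤ (1 + ε) * Fintype.card ι := by
    rwa [le_div_iff₀ hGc] at hle
  refine ⟨i, hi, ?_, ?_⟩
  · have : n i * G.card ≤ (n i + ε / Zc s * T i) * G.card := by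
      refine mul_le_mul_of_nonneg_right ?_ hGc.le
      have : 0 ≤ ε / Zc s * T i := mul_nonneg (by positivity) (hT0 i)
      linarith
    exact this.trans hle'
  · have h6 : (ε / Zc s * T i) * G.card ≤ (1 + ε) * Fintype.card ι := by
      refine le_trans (mul_le_mul_of_nonneg_right ?_ hGc.le) hle'
      linarith [hn0 i]
    have h7 : T i * G.card = (Zc s / ε) * ((ε / Zc s * T i) * G.card) := by
      field_simp
    have h8 : (1 + ε) / ε * Fintype.card ι * Zc s = (Zc s / ε) * ((1 + ε) * Fintype.card ι) := by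
      field_simp
    show T i * G.card ≤ _
    rw [h7, h8]
    exact mul_le_mul_of_nonneg_left h6 (by positivity)

/-- Points in a different cell are far away. -/
lemma far {h κ : ℝ} (hh : 0 < h) (hκ1 : κ ≤ 1) {i m : ℤ} (him : m ≠ i) {x y : ℝ}
    (hx1 : m * h ≤ x) (hx2 : x ≤ (m + 1) * h) (hy1 : (i + κ) * h ≤ y)
    (hy2 : y ≤ (i + 1 - κ) * h) : κ * h * |((i - m : ℤ) : ℝ)| ≤ |y - x| := by
  rcases lt_or_gt_of_ne him with hlt | hgt
  · -- m < i
    have h1 : (m:ℝ) + 1 ≤ i := by exact_mod_cast hlt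
    have h2 : |((i - m : ℤ) : ℝ)| = (i:ℝ) - m := by
      push_cast
      exact abs_of_nonneg (by linarith)
    rw [h2]
    have h3 : κ * h * ((i:ℝ) - m) ≤ y - x := by
      nlinarith [mul_nonneg (mul_nonneg (sub_nonneg.2 hκ1) hh.le) (sub_nonneg.2 h1)]
    exact h3.trans (le_abs_self _)
  · have h1 : (i:ℝ) + 1 ≤ m := by exact_mod_cast hgt
    have h2 : |((i - m : ℤ) : ℝ)| = (m:ℝ) - i := by
      push_cast
      rw [abs_of_nonpos (by linarith)]
      ring
    rw [h2]
    have h3 : κ * h * ((m:ℝ) - i) ≤ x - y := by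
      nlinarith [mul_nonneg (mul_nonneg (sub_nonneg.2 hκ1) hh.le) (sub_nonneg.2 h1)]
    rw [abs_sub_comm]
    exact h3.trans (le_abs_self _)

end Pool.Agent.W86.Polar
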