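import Mathlib

set_option autoImplicit false
open Filter Topology MeasureTheory
open scoped ENNReal

namespace Pool.Agent.W86.Polar

/-- cell number `i` at scale `h` -/
def cell (h : ℝ) (i : ℤ) : Set ℝ := Set.Ico (i * h) ((i + 1) * h)

lemma mem_cell_floor {h : ℝ} (hh : 0 < h) (y : ℝ) : y ∈ cell h ⌊y / h⌋ := by
  constructor
  · have := Int.floor_le (y / h)
    rwa [le_div_iff₀ hh] at this
  · have := Int.lt_floor_add_one (y / h)
    rwa [div_lt_iff₀ hh] at this

lemma cell_eq {h : ℝ} (hh : 0 < h) {y : ℝ} {i : ℤ} (hy : y ∈ cell h i) : ⌊y / h⌋ = i := by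
  rw [Int.floor_eq_iff]
  exact ⟨by rw [le_div_iff₀ hh]; exact hy.1, by rw [div_lt_iff₀ hh]; exact hy.2⟩

lemma cell_disj {h : ℝ} (hh : 0 < h) : Pairwise (Function.onFun Disjoint (cell h)) := by
  intro i j hij
  rw [Function.onFun, Set.disjoint_left]
  intro y hi hj
  exact hij ((cell_eq hh hi).symm.trans (cell_eq hh hj))

lemma cell_vol {h : ℝ} (hh : 0 < h) (i : ℤ) : volume.real (cell h i) = h := by
  unfold cell
  rw [Real.volume_real_Ico_of_le (by nlinarith)]
  ring

lemma cells {K : Set ℝ} (hK : IsCompact K) {δ : ℝ} (hδ : 0 < δ) :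
    ∃ h0 > 0, ∀ h, 0 < h → h < h0 → ∃ I : Finset ℤ,
      (∀ y ∈ K, ⌊y / h⌋ ∈ I) ∧ (∀ i ∈ I, (K ∩ cell h i).Nonempty) ∧
      (I.card * h ≤ volume.real K + δ) ∧
      ∑ i ∈ I, volume.real (K ∩ cell h i) = volume.real K := by
  classical
  obtain ⟨V, hVK, hVo, hVlt⟩ := K.exists_isOpen_lt_of_lt (μ := volume)
    (volume K + ENNReal.ofReal δ)
    (ENNReal.lt_add_right hK.measure_lt_top.ne (by simpa using hδ))
  obtain ⟨r, hr, hrV⟩ := hK.exists_thickening_subset_open hVo hVK
  refine ⟨r, hr, fun h hh hhr => ?_⟩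
  have hfin : Set.Finite {i : ℤ | (K ∩ cell h i).Nonempty} := by
    obtain ⟨R, hR⟩ := hK.isBounded.exists_norm_le
    apply (Set.finite_Icc (⌊-R / h⌋) (⌊R / h⌋)).subset
    rintro i ⟨y, hyK, hyi⟩
    have h1 := hR y hyK
    rw [Real.norm_eq_abs, abs_le] at h1
    rw [← cell_eq hh hyi]
    exact ⟨Int.floor_mono (div_le_div_of_nonneg_right h1.1 hh.le),
      Int.floor_mono (div_le_div_of_nonneg_right h1.2 hh.le)⟩
  set I := hfin.toFinset with hI
  have hImem : ∀ i, i ∈ I ↔ (K ∩ cell h i).Nonempty := fun i => by rw [hI]; simp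
  have hcov : K = ⋃ i ∈ I, K ∩ cell h i := by
    ext y
    simp only [Set.mem_iUnion, Set.mem_inter_iff, exists_prop]
    constructor
    · intro hy
      exact ⟨⌊y / h⌋, (hImem _).2 ⟨y, hy, mem_cell_floor hh y⟩, hy, mem_cell_floor hh y⟩
    · rintro ⟨i, _, hy, _⟩
      exact hy
  have hmeas : ∀ i, MeasurableSet (K ∩ cell h i) := fun i =>
    hK.measurableSet.inter measurableSet_Ico
  refine ⟨I, fun y hy => (hImem _).2 ⟨y, hy, mem_cell_floor hh y⟩, fun i hi => (hImem i).1 hi,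
    ?_, ?_⟩
  · have hsub : (⋃ i ∈ I, cell h i) ⊆ V := by
      refine Set.iUnion₂_subset fun i hi => ?_
      obtain ⟨z, hzK, hzi⟩ := (hImem i).1 hi
      intro y hy
      apply hrV
      rw [Metric.mem_thickening_iff]
      refine ⟨z, hzK, ?_⟩
      rw [Real.dist_eq, abs_lt]
      have h1 := hy.1; have h2 := hy.2; have h3 := hzi.1; have h4 := hzi.2
      constructor <;> nlinarith
    have hVfin : volume V ≠ ⊤ := (lt_of_lt_of_le hVlt le_top).ne
    have h1 : volume.real (⋃ i ∈ I, cell h i) ≤ volume.real V :=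
      measureReal_mono hsub hVfin
    have h2 : volume.real (⋃ i ∈ I, cell h i) = I.card * h := by
      rw [measureReal_biUnion_finset (fun i _ j _ hij => cell_disj hh hij)
        (fun i _ => measurableSet_Ico)
        (fun i _ => by unfold cell; rw [Real.volume_Ico]; exact ENNReal.ofReal_ne_top)]
      simp [cell_vol hh]
    have h3 : volume.real V ≤ volume.real K + δ := by
      have := ENNReal.toReal_mono (by
        exact ENNReal.add_ne_top.2 ⟨hK.measure_lt_top.ne, ENNReal.ofReal_ne_top⟩) hVlt.le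
      rwa [ENNReal.toReal_add hK.measure_lt_top.ne ENNReal.ofReal_ne_top,
        ENNReal.toReal_ofReal hδ.le] at this
    linarith
  · conv_rhs => rw [hcov]
    rw [measureReal_biUnion_finset (h := fun i _ =>
      ((measure_mono Set.inter_subset_left).trans_lt hK.measure_lt_top).ne)]
    · intro i _ j _ hij
      exact (cell_disj hh hij).mono Set.inter_subset_right Set.inter_subset_right
    · exact fun i _ => hmeas i

/-- number of bad cells -/
lemma cells' {K : Set ℝ} (hK : IsCompact K) {δ η : ℝ} (hδ : 0 < δ) (hη : 0 < η) :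
    ∃ h0 > 0, ∀ h, 0 < h → h < h0 → ∃ I G : Finset ℤ, G ⊆ I ∧
      (∀ y ∈ K, ⌊y / h⌋ ∈ I) ∧ (∀ i ∈ I, (K ∩ cell h i).Nonempty) ∧
      (I.card * h ≤ volume.real K + δ) ∧
      (∀ i ∈ G, (1 - η) * h < volume.real (K ∩ cell h i)) ∧
      (((I \ G).card : ℝ) * (η * h) ≤ δ) ∧
      (volume.real K - δ / η ≤ G.card * h) := by
  classical
  obtain ⟨h0, h0pos, H⟩ := cells hK hδ
  refine ⟨h0, h0pos, fun h hh hh0 => ?_⟩
  obtain ⟨I, h1, h2, h3, h4⟩ := H h hh hh0
  set G := I.filter (fun i => (1 - η) * h < volume.real (K ∩ cell h i)) with hG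
  have hGI : G ⊆ I := Finset.filter_subset _ _
  have hle : ∀ i, volume.real (K ∩ cell h i) ≤ h := fun i => by
    refine (measureReal_mono Set.inter_subset_right
      (by unfold cell; rw [Real.volume_Ico]; exact ENNReal.ofReal_ne_top)).trans
      (cell_vol hh i).le
  have hbad : ((I \ G).card : ℝ) * (η * h) ≤ δ := by
    have h5 : ∑ i ∈ I \ G, (η * h) ≤ ∑ i ∈ I \ G, (h - volume.real (K ∩ cell h i)) := by
      refine Finset.sum_le_sum fun i hi => ?_
      rw [Finset.mem_sdiff, hG, Finset.mem_filter, not_and, not_lt] at hi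
      have := hi.2 hi.1
      linarith
    have h6 : ∑ i ∈ I \ G, (h - volume.real (K ∩ cell h i))
        ≤ ∑ i ∈ I, (h - volume.real (K ∩ cell h i)) :=
      Finset.sum_le_sum_of_subset_of_nonneg Finset.sdiff_subset
        (fun i _ _ => sub_nonneg.2 (hle i))
    rw [Finset.sum_const, nsmul_eq_mul] at h5
    rw [Finset.sum_sub_distrib (s := I), Finset.sum_const, nsmul_eq_mul, h4] at h6
    linarith
  refine ⟨I, G, hGI, h1, h2, h3, fun i hi => (Finset.mem_filter.1 hi).2, hbad, ?_⟩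
  have h7 : ∑ i ∈ I, volume.real (K ∩ cell h i) ≤ (G.card : ℝ) * h + ((I \ G).card : ℝ) * h := by
    rw [← Finset.sum_sdiff hGI]
    have ha : ∑ i ∈ I \ G, volume.real (K ∩ cell h i) ≤ ∑ i ∈ I \ G, h :=
      Finset.sum_le_sum fun i _ => hle i
    have hb : ∑ i ∈ G, volume.real (K ∩ cell h i) ≤ ∑ i ∈ G, h :=
      Finset.sum_le_sum fun i _ => hle i
    rw [Finset.sum_const, nsmul_eq_mul] at ha hb
    linarith
  have h8 : ((I \ G).card : ℝ) * h ≤ δ / η := by
    rw [le_div_iff₀ hη]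
    linarith
  rw [h4] at h7
  linarith

/-- a good cell contains points of `K` near every point -/
lemma near {K : Set ℝ} {h η : ℝ} (hh : 0 < h) (hη : 0 < η) {i : ℤ}
    (hG : (1 - η) * h < volume.real (K ∩ cell h i)) {y : ℝ} (hy1 : i * h ≤ y)
    (hy2 : y ≤ (i + 1) * h) (hη1 : η ≤ 1 / 2) :
    ∃ z ∈ K, z ∈ cell h i ∧ |z - y| ≤ η * h := by
  by_contra hcon
  push Not at hcon
  -- choose a subinterval of length η h in the cell containing y
  obtain ⟨a, ha1, ha2, ha3, ha4⟩ : ∃ a, i * h ≤ a ∧ a + η * h ≤ (i + 1) * h ∧ a ≤ y ∧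
      y ≤ a + η * h := by
    by_cases hc : y + η * h ≤ (i + 1) * h
    · exact ⟨y, hy1, hc, le_rfl, by nlinarith [mul_pos hη hh]⟩
    · refine ⟨(i + 1) * h - η * h, by nlinarith, by linarith, by linarith, by linarith⟩
  have hsub : K ∩ cell h i ⊆ cell h i \ Set.Ico a (a + η * h) := by
    rintro z ⟨hzK, hzi⟩
    refine ⟨hzi, fun hz => ?_⟩
    have := hcon z hzK hzi
    rcases lt_abs.1 this with h1 | h1
    · linarith [hz.2]
    · linarith [hz.1]
  have hfin : volume (cell h i) ≠ ⊤ := by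
    unfold cell; rw [Real.volume_Ico]; exact ENNReal.ofReal_ne_top
  have h1 : volume.real (K ∩ cell h i) ≤ volume.real (cell h i \ Set.Ico a (a + η * h)) :=
    measureReal_mono hsub ((measure_mono Set.sdiff_subset).trans_lt (lt_top_iff_ne_top.2 hfin)).ne
  have h2 : volume.real (cell h i \ Set.Ico a (a + η * h)) = h - η * h := by
    have hs : Set.Ico a (a + η * h) ⊆ cell h i := by
      intro z hz
      exact ⟨ha1.trans hz.1, lt_of_lt_of_le hz.2 ha2⟩
    rw [measureReal_sdiff hs measurableSet_Ico hfin, cell_vol hh,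
      Real.volume_real_Ico_of_le (by nlinarith [mul_pos hη hh])]
    ring
  rw [h2] at h1
  linarith

end Pool.Agent.W86.Polar
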