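import Pool.Agent.W86.Polar1
import Pool.Agent.W86.Polar2
import Pool.Agent.W86.Polar3

set_option autoImplicit false
open Filter Topology MeasureTheory
open scoped ENNReal NNReal

namespace Pool.Agent.W86.Polar

lemma U_scale {s h : ℝ} (hh : 0 < h) {ι : Type} [Fintype ι] (Z : ι → ℝ) (t a : ℝ) :
    U s (fun k => (a + Z k) * h) ((a + t) * h) = ENNReal.ofReal (h ^ (-s)) * U s Z t := by
  unfold U
  rw [Finset.mul_sum]
  refine Finset.sum_congr rfl fun k _ => ?_
  rw [← f_mul hh]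
  congr 1
  rw [← abs_of_pos hh, ← abs_mul]
  congr 1
  rw [abs_of_pos hh]
  ring

lemma U_cont (s : ℝ) {n : ℕ} : Continuous fun p : (Fin n → ℝ) × ℝ => U s p.1 p.2 := by
  unfold U
  refine continuous_finsetSum _ fun k _ => (f_cont s).comp ?_
  fun_prop

lemma stable {s : ℝ} {n : ℕ} (X : Fin n → ℝ) {τ : ℝ≥0∞}
    (hτ : ∀ y ∈ Set.Icc (0:ℝ) 1, τ < U s X y) :
    ∃ θ > 0, ∀ Z : Fin n → ℝ, (∀ k, |Z k - X k| ≤ θ) → ∀ y ∈ Set.Icc (0:ℝ) 1, τ < U s Z y := by
  have h := (isCompact_Icc (a := (0:ℝ)) (b := 1)).eventually_forall_of_forall_eventually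
    (x₀ := X) (P := fun Z y => τ < U s Z y) (fun y hy =>
      ((U_cont s).isOpen_preimage _ isOpen_Ioi).mem_nhds (hτ y hy))
  rw [Metric.eventually_nhds_iff] at h
  obtain ⟨θ, hθ, H⟩ := h
  refine ⟨θ / 2, by positivity, fun Z hZ => H ?_⟩
  have : dist Z X ≤ θ / 2 := by
    rw [dist_pi_le_iff (by positivity)]
    intro k
    rw [Real.dist_eq]; exact hZ k
  linarith

lemma cell_good {s : ℝ} {K : Set ℝ} {h η θ : ℝ} (hh : 0 < h) (hη : 0 < η) (hη1 : η ≤ 1 / 2)
    (hηθ : η ≤ θ) {i : ℤ} (hG : (1 - η) * h < volume.real (K ∩ cell h i)) {n : ℕ}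
    (X : Fin n → ℝ) (hX : ∀ k, X k ∈ Set.Icc (0:ℝ) 1) {τ : ℝ≥0∞}
    (hθ : ∀ Z : Fin n → ℝ, (∀ k, |Z k - X k| ≤ θ) → ∀ y ∈ Set.Icc (0:ℝ) 1, τ < U s Z y) :
    ∃ X' : Fin n → ℝ, (∀ k, X' k ∈ K) ∧ ∀ y ∈ cell h i,
      ENNReal.ofReal (h ^ (-s)) * τ ≤ U s X' y := by
  have hn : ∀ k, ∃ z ∈ K, z ∈ cell h i ∧ |z - (i + X k) * h| ≤ η * h := fun k =>
    near hh hη hG (by nlinarith [(hX k).1]) (by nlinarith [(hX k).2]) hη1
  choose z hzK hzc hz using hn
  refine ⟨z, hzK, fun y hy => ?_⟩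
  set Z : Fin n → ℝ := fun k => z k / h - i with hZ
  set t : ℝ := y / h - i with ht
  have hzZ : z = fun k => ((i:ℝ) + Z k) * h := by
    funext k; rw [hZ]; field_simp; ring
  have hyt : y = ((i:ℝ) + t) * h := by rw [ht]; field_simp; ring
  have ht01 : t ∈ Set.Icc (0:ℝ) 1 := by
    have h1 := hy.1; have h2 := hy.2
    rw [hyt] at h1 h2
    constructor <;> nlinarith
  have h3 := hθ Z (fun k => by
    have h4 := hz k
    have h5 : z k - (i + X k) * h = (Z k - X k) * h := by rw [hzZ]; ring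
    rw [h5, abs_mul, abs_of_pos hh] at h4
    exact (le_of_mul_le_mul_right h4 hh).trans hηθ) t ht01
  rw [hzZ, hyt, U_scale hh]
  gcongr

lemma cell_bad {s : ℝ} (hs : 0 < s) {K : Set ℝ} (hne : K.Nonempty) {h : ℝ} (hh : 0 < h) {i : ℤ}
    {M : ℕ} (hM : 0 < M) :
    ∃ X' : Fin M → ℝ, (∀ k, X' k ∈ K) ∧ ∀ y ∈ K, y ∈ cell h i →
      f s (h / M) ≤ U s X' y := by
  classical
  obtain ⟨k0, hk0⟩ := hne
  have hM0 : (0:ℝ) < M := by exact_mod_cast hM
  have key : ∀ k : Fin M, ∃ z ∈ K, ∀ y ∈ K, (k:ℝ) * (h / M) ≤ y - i * h →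
      y - i * h ≤ ((k:ℝ) + 1) * (h / M) → |y - z| ≤ h / M := by
    intro k
    by_cases hc : ∃ z ∈ K, (k:ℝ) * (h / M) ≤ z - i * h ∧ z - i * h ≤ ((k:ℝ) + 1) * (h / M)
    · obtain ⟨z, hzK, hz1, hz2⟩ := hc
      refine ⟨z, hzK, fun y _ hy1 hy2 => ?_⟩
      rw [abs_le]; constructor <;> nlinarith
    · push Not at hc
      exact ⟨k0, hk0, fun y hy hy1 hy2 => absurd hy2 (not_le.2 (hc y hy hy1))⟩
  choose z hzK hz using key
  refine ⟨z, hzK, fun y hyK hy => ?_⟩
  set q := (y - i * h) / (h / M) with hq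
  have hhM : 0 < h / M := by positivity
  have hq0 : 0 ≤ q := div_nonneg (by linarith [hy.1]) hhM.le
  have hqM : q < M := by
    rw [hq, div_lt_iff₀ hhM]
    have : (M:ℝ) * (h / M) = h := by field_simp
    rw [this]; linarith [hy.2]
  have hfl : ⌊q⌋₊ < M := by
    rw [Nat.floor_lt hq0]; exact hqM
  have h1 : |y - z ⟨⌊q⌋₊, hfl⟩| ≤ h / M := by
    refine hz ⟨⌊q⌋₊, hfl⟩ y hyK ?_ ?_
    · have := Nat.floor_le hq0
      rw [← le_div_iff₀ hhM]; exact this
    · have := (Nat.lt_floor_add_one q).le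
      rw [← div_le_iff₀ hhM]; exact this
  refine (f_anti hs h1).trans ?_
  unfold U
  exact Finset.single_le_sum (f := fun k => f s |y - z k|) (fun _ _ => bot_le)
    (Finset.mem_univ (⟨⌊q⌋₊, hfl⟩ : Fin M))

lemma lower {s : ℝ} (hs : 1 < s) {K : Set ℝ} (hK : IsCompact K) (hpos : 0 < volume.real K)
    {c : ℝ≥0∞} (hc : c < sig s * ENNReal.ofReal (volume.real K ^ (-s))) :
    ∀ᶠ N : ℕ in atTop, c ≤ P s K N / (N:ℝ≥0∞) ^ s := by
  classical
  have hs0 : 0 < s := by linarith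
  set lam := volume.real K with hlam
  have hne : K.Nonempty := by
    rcases K.eq_empty_or_nonempty with h | h
    · rw [h] at hlam; simp [hlam] at hpos
    · exact h
  have hctop : c ≠ ⊤ := (lt_of_lt_of_le hc le_top).ne
  -- find the configuration
  have hv0 : ENNReal.ofReal (lam ^ (-s)) ≠ 0 := by
    rw [Ne, ENNReal.ofReal_eq_zero, not_le]; positivity
  have h1 : c / ENNReal.ofReal (lam ^ (-s)) < sig s := by
    rwa [ENNReal.div_lt_iff (Or.inl hv0) (Or.inl ENNReal.ofReal_ne_top)]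
  unfold sig at h1
  simp only [lt_iSup_iff] at h1
  obtain ⟨n, hn1, X, hX, h2⟩ := h1
  have hn0 : (0:ℝ) < n := by exact_mod_cast hn1
  have hnE : (n:ℝ≥0∞) ^ s = ENNReal.ofReal ((n:ℝ) ^ s) := by
    rw [← ENNReal.ofReal_rpow_of_pos hn0, ENNReal.ofReal_natCast]
  rw [ENNReal.lt_div_iff_mul_lt (Or.inl (by rw [hnE, Ne, ENNReal.ofReal_eq_zero, not_le]; positivity))
    (Or.inl (by rw [hnE]; exact ENNReal.ofReal_ne_top))] at h2
  obtain ⟨τ, hτ1, hτ2⟩ := ENNReal.lt_iff_exists_nnreal_btwn.1 h2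
  set c' := c.toReal with hc'
  have hcc : c = ENNReal.ofReal c' := (ENNReal.ofReal_toReal hctop).symm
  have hc0 : 0 ≤ c' := ENNReal.toReal_nonneg
  have hτ3 : c' * lam ^ s * (n:ℝ) ^ s < τ := by
    rw [hnE, hcc, ← ENNReal.ofReal_div_of_pos (by positivity), ← ENNReal.ofReal_mul (by positivity),
      ← ENNReal.ofReal_coe_nnreal (p := τ)] at hτ1
    have := (ENNReal.ofReal_lt_ofReal_iff_of_nonneg (by positivity)).1 hτ1
    rw [Real.rpow_neg hpos.le, div_inv_eq_mul] at this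
    exact this
  have hτ0 : (0:ℝ) < τ := lt_of_le_of_lt (by positivity) hτ3
  obtain ⟨ε, hε, hε1⟩ : ∃ ε > 0, c' * lam ^ s * (n:ℝ) ^ s * (1 + ε) ^ s < τ := by
    have hcont : ContinuousAt (fun e : ℝ => c' * lam ^ s * (n:ℝ) ^ s * (1 + e) ^ s) 0 := by
      refine ContinuousAt.mul continuousAt_const ?_
      exact ContinuousAt.rpow_const (by fun_prop) (Or.inl (by norm_num))
    have hev := hcont.eventually_lt (continuousAt_const (y := (τ:ℝ))) (by simpa using hτ3)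
    obtain ⟨e, he⟩ := (hev.filter_mono (nhdsWithin_le_nhds (s := Set.Ioi (0:ℝ)))
      |>.and self_mem_nhdsWithin).exists
    exact ⟨e, he.2, he.1⟩
  obtain ⟨θ, hθ, hst⟩ := stable (s := s) X (τ := (τ:ℝ≥0∞)) (fun y hy =>
    lt_of_lt_of_le hτ2 (iInf₂_le y hy))
  set η := min θ (1/2) with hη
  have hη0 : 0 < η := lt_min hθ (by norm_num)
  obtain ⟨M, hM⟩ := exists_nat_ge (max 1 ((τ:ℝ) ^ (1 / s)))
  have hM1 : (1:ℝ) ≤ M := (le_max_left _ _).trans hM
  have hM0 : 0 < M := by exact_mod_cast (lt_of_lt_of_le one_pos hM1)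
  have hMτ : (τ:ℝ) ≤ (M:ℝ) ^ s := by
    have h3 : (τ:ℝ) ^ (1 / s) ≤ M := (le_max_right _ _).trans hM
    have h4 := Real.rpow_le_rpow (by positivity) h3 hs0.le
    rwa [← Real.rpow_mul hτ0.le, one_div_mul_cancel hs0.ne', Real.rpow_one] at h4
  set δ := n * ε * lam / (n + M / η) with hδ
  have hMη : 0 < (n:ℝ) + M / η := by positivity
  have hδ0 : 0 < δ := by positivity
  have hδ1 : n * δ + M * (δ / η) = n * ε * lam := by
    rw [hδ]; field_simp
  obtain ⟨h0, hh0, H⟩ := cells' hK hδ0 hη0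
  have hlim : Tendsto (fun N : ℕ => n * lam * (1 + ε) / (N:ℝ)) atTop (𝓝 0) :=
    tendsto_const_div_atTop_nhds_zero_nat _
  filter_upwards [hlim.eventually_lt_const hh0, eventually_gt_atTop 0] with N hN hN0
  have hN0' : (0:ℝ) < N := by exact_mod_cast hN0
  set h := n * lam * (1 + ε) / (N:ℝ) with hh
  have hhpos : 0 < h := by positivity
  obtain ⟨I, G, hGI, hI1, hI2, hI3, hG1, hG2, hG3⟩ := H h hhpos hN
  set m : ℤ → ℕ := fun i => if i ∈ G then n else M with hm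
  have hconf : ∀ i : ℤ, ∃ X' : Fin (m i) → ℝ, (∀ k, X' k ∈ K) ∧ ∀ y ∈ K, y ∈ cell h i →
      ENNReal.ofReal (h ^ (-s)) * τ ≤ U s X' y := by
    intro i
    by_cases hi : i ∈ G
    · have hmi : m i = n := by rw [hm]; simp [hi]
      rw [hmi]
      obtain ⟨X', h5, h6⟩ := cell_good hhpos hη0 (min_le_right _ _) (min_le_left _ _) (hG1 i hi)
        X hX hst
      exact ⟨X', h5, fun y _ hy => h6 y hy⟩
    · have hmi : m i = M := by rw [hm]; simp [hi]
      rw [hmi]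
      obtain ⟨X', h5, h6⟩ := cell_bad hs0 hne hhpos (i := i) hM0
      refine ⟨X', h5, fun y hyK hy => le_trans ?_ (h6 y hyK hy)⟩
      rw [f_of_pos (by positivity), ← ENNReal.ofReal_coe_nnreal, ← ENNReal.ofReal_mul (by positivity)]
      apply ENNReal.ofReal_le_ofReal
      rw [Real.div_rpow hhpos.le (by positivity), Real.rpow_neg (by positivity) (x := (M:ℝ)),
        div_inv_eq_mul]
      gcongr
  choose X' hX'1 hX'2 using hconf
  have hsum : ∑ i ∈ I, m i ≤ N := by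
    have h7 : (∑ i ∈ I, m i : ℕ) = n * G.card + M * (I \ G).card := by
      rw [← Finset.sum_sdiff hGI]
      have ha : ∑ i ∈ I \ G, m i = M * (I \ G).card := by
        rw [Finset.sum_congr rfl (g := fun _ => M)]
        · simp [mul_comm]
        · intro i hi
          rw [Finset.mem_sdiff] at hi
          simp [hm, hi.2]
      have hb : ∑ i ∈ G, m i = n * G.card := by
        rw [Finset.sum_congr rfl (g := fun _ => n)]
        · simp [mul_comm]
        · intro i hi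
          simp [hm, hi]
      rw [ha, hb]; ring
    have h8 : ((n * G.card + M * (I \ G).card : ℕ) : ℝ) ≤ N := by
      push_cast
      have h9 : (G.card : ℝ) ≤ I.card := by exact_mod_cast Finset.card_le_card hGI
      have h10 : ((n:ℝ) * G.card + M * (I \ G).card) * h ≤ N * h := by
        have e1 : (n:ℝ) * G.card * h ≤ n * (lam + δ) := by
          calc (n:ℝ) * G.card * h = n * (G.card * h) := by ring
            _ ≤ n * (I.card * h) := by gcongr
            _ ≤ n * (lam + δ) := by gcongr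
        have e2 : (M:ℝ) * (I \ G).card * h ≤ M * (δ / η) := by
          calc (M:ℝ) * (I \ G).card * h = M * ((I \ G).card * h) := by ring
            _ ≤ M * (δ / η) := by
              gcongr
              rw [le_div_iff₀ hη0]; linarith
        have e3 : (N:ℝ) * h = n * lam * (1 + ε) := by rw [hh]; field_simp
        rw [e3, add_mul]
        nlinarith
      exact le_of_mul_le_mul_right h10 hhpos
    rw [h7]; exact_mod_cast h8
  have hfinal := le_P_glue (s := s) hne I m hsum X' (fun i _ k => hX'1 i k)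
    (B := ENNReal.ofReal (h ^ (-s)) * τ)
    (fun y hy => ⟨⌊y / h⌋, hI1 y hy, hX'2 _ y hy (mem_cell_floor hhpos y)⟩)
  have hNE : (N:ℝ≥0∞) ^ s = ENNReal.ofReal ((N:ℝ) ^ s) := by
    rw [← ENNReal.ofReal_rpow_of_pos hN0', ENNReal.ofReal_natCast]
  rw [ENNReal.le_div_iff_mul_le (Or.inl (by rw [hNE, Ne, ENNReal.ofReal_eq_zero, not_le]; positivity))
    (Or.inl (by rw [hNE]; exact ENNReal.ofReal_ne_top))]
  refine le_trans ?_ hfinal
  rw [hNE, hcc, ← ENNReal.ofReal_mul hc0, ← ENNReal.ofReal_coe_nnreal (p := τ),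
    ← ENNReal.ofReal_mul (by positivity)]
  apply ENNReal.ofReal_le_ofReal
  have e4 : h ^ (-s) = (N:ℝ) ^ s / (lam ^ s * (n:ℝ) ^ s * (1 + ε) ^ s) := by
    rw [hh, Real.rpow_neg (by positivity), Real.div_rpow (by positivity) (by positivity),
      Real.mul_rpow (by positivity) (by positivity), Real.mul_rpow (by positivity) (by positivity),
      inv_div]
    ring
  rw [e4, div_mul_eq_mul_div, le_div_iff₀ (by positivity)]
  have e5 : c' * (N:ℝ) ^ s * (lam ^ s * (n:ℝ) ^ s * (1 + ε) ^ s)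
      = (N:ℝ) ^ s * (c' * lam ^ s * (n:ℝ) ^ s * (1 + ε) ^ s) := by ring
  rw [e5]
  gcongr

end Pool.Agent.W86.Polar
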