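import Pool.Agent.W86.Polar4

set_option autoImplicit false
open Filter Topology MeasureTheory
open scoped ENNReal NNReal

namespace Pool.Agent.W86.Polar

/-- The contribution of the points outside of the cell. -/
lemma tail {s : ℝ} (hs : 0 < s) {ι : Type} [Fintype ι] (X : ι → ℝ) {h κ : ℝ} (hh : 0 < h)
    (hκ0 : 0 < κ) (hκ1 : κ ≤ 1) {i : ℤ} {y : ℝ} (hy1 : (i + κ) * h ≤ y)
    (hy2 : y ≤ (i + 1 - κ) * h) :
    ∑ j ∈ Finset.univ.filter (fun j => ¬ ⌊X j / h⌋ = i), f s |y - X j|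
      ≤ ENNReal.ofReal ((κ * h) ^ (-s) * ∑ j, |((i - ⌊X j / h⌋ : ℤ) : ℝ)| ^ (-s)) := by
  classical
  calc ∑ j ∈ Finset.univ.filter (fun j => ¬ ⌊X j / h⌋ = i), f s |y - X j|
      ≤ ∑ j ∈ Finset.univ.filter (fun j => ¬ ⌊X j / h⌋ = i),
        ENNReal.ofReal ((κ * h) ^ (-s) * |((i - ⌊X j / h⌋ : ℤ) : ℝ)| ^ (-s)) := by
        refine Finset.sum_le_sum fun j hj => ?_
        rw [Finset.mem_filter] at hj
        have hc := mem_cell_floor hh (X j)
        have h1 := far hh hκ1 hj.2 hc.1 hc.2.le hy1 hy2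
        have h2 : 0 < |((i - ⌊X j / h⌋ : ℤ) : ℝ)| := by
          rw [abs_pos]
          exact_mod_cast sub_ne_zero.2 (fun h => hj.2 h.symm)
        refine (f_anti hs h1).trans ?_
        rw [f_of_pos (by positivity), Real.mul_rpow (by positivity) (by positivity)]
    _ ≤ ∑ j, ENNReal.ofReal ((κ * h) ^ (-s) * |((i - ⌊X j / h⌋ : ℤ) : ℝ)| ^ (-s)) :=
        Finset.sum_le_sum_of_subset (Finset.filter_subset _ _)
    _ = ENNReal.ofReal ((κ * h) ^ (-s) * ∑ j, |((i - ⌊X j / h⌋ : ℤ) : ℝ)| ^ (-s)) := by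
        rw [Finset.mul_sum, ENNReal.ofReal_sum_of_nonneg]
        intro j _
        positivity

lemma sig_lt_top {s : ℝ} (hs : 1 < s) : sig s < ⊤ := by
  classical
  have hs0 : 0 < s := by linarith
  have hZ : 0 < Zc s := lt_of_lt_of_le one_pos (Zc_ge_one hs)
  refine lt_of_le_of_lt (b := ENNReal.ofReal ((4:ℝ) ^ s * (3 / 2 * Zc s))) ?_
    ENNReal.ofReal_lt_top
  unfold sig
  refine iSup_le fun n => iSup_le fun hn => iSup_le fun X => iSup_le fun hX => ?_
  have hn0 : (0:ℝ) < n := by exact_mod_cast hn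
  have hnE : (n:ℝ≥0∞) ^ s = ENNReal.ofReal ((n:ℝ) ^ s) := by
    rw [← ENNReal.ofReal_rpow_of_pos hn0, ENNReal.ofReal_natCast]
  set h : ℝ := 1 / (2 * n) with hh
  have hhpos : 0 < h := by positivity
  set G : Finset ℤ := Finset.Ico 0 (2 * n) with hG
  have hGc : G.card = 2 * n := by rw [hG, Int.card_Ico]; omega
  have hGne : G.Nonempty := by
    rw [← Finset.card_pos, hGc]; omega
  obtain ⟨i, hi, h1, h2⟩ := pigeon hs (fun j => ⌊X j / h⌋) G hGne (ε := 1 / 2) (by norm_num)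
  rw [hGc, Fintype.card_fin] at h1 h2
  have h3 : (Finset.univ.filter (fun j => ⌊X j / h⌋ = i)).card = 0 := by
    by_contra hne
    have h4 : (1:ℝ) ≤ ((Finset.univ.filter (fun j => ⌊X j / h⌋ = i)).card : ℝ) := by
      exact_mod_cast Nat.one_le_iff_ne_zero.2 hne
    push_cast at h1
    nlinarith
  have h4 : ∀ j, ¬ ⌊X j / h⌋ = i := by
    intro j hj
    rw [Finset.card_eq_zero] at h3
    have : j ∈ Finset.univ.filter (fun j => ⌊X j / h⌋ = i) := by simp [hj]
    rw [h3] at this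
    simp at this
  have h5 : (∑ j, |((i - ⌊X j / h⌋ : ℤ) : ℝ)| ^ (-s)) ≤ 3 / 2 * Zc s := by
    push_cast at h2
    have h6 : (∑ j, |((i:ℝ) - ⌊X j / h⌋)| ^ (-s)) * (2 * n) ≤ (3 / 2 * Zc s) * (2 * n) := by
      refine h2.trans (le_of_eq ?_)
      ring
    push_cast
    exact le_of_mul_le_mul_right h6 (by positivity)
  rw [hG, Finset.mem_Ico] at hi
  have hi0 : (0:ℝ) ≤ i := by exact_mod_cast hi.1
  have hi1 : (i:ℝ) + 1 ≤ 2 * n := by exact_mod_cast hi.2
  have h2n : (2 * n) * h = 1 := by rw [hh]; field_simp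
  have hy : ((i:ℝ) + 1 / 2) * h ∈ Set.Icc (0:ℝ) 1 := by
    constructor
    · positivity
    · nlinarith
  have h7 := tail hs0 X hhpos (κ := 1 / 2) (by norm_num) (by norm_num) (i := i)
    (y := ((i:ℝ) + 1 / 2) * h) le_rfl (by linarith)
  rw [Finset.filter_true_of_mem (fun j _ => h4 j)] at h7
  have h8 : (⨅ y ∈ Set.Icc (0:ℝ) 1, U s X y) ≤
      ENNReal.ofReal ((4:ℝ) ^ s * (3 / 2 * Zc s)) * (n:ℝ≥0∞) ^ s := by
    refine (iInf₂_le _ hy).trans (h7.trans ?_)
    rw [hnE, ← ENNReal.ofReal_mul (by positivity)]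
    apply ENNReal.ofReal_le_ofReal
    have h9 : (1 / 2 * h) ^ (-s) = (4:ℝ) ^ s * (n:ℝ) ^ s := by
      rw [← Real.mul_rpow (by positivity) (by positivity), Real.rpow_neg (by positivity),
        ← Real.inv_rpow (by positivity), hh]
      congr 1
      field_simp
      norm_num
    rw [h9]
    calc (4:ℝ) ^ s * (n:ℝ) ^ s * ∑ j, |((i - ⌊X j / h⌋ : ℤ) : ℝ)| ^ (-s)
        ≤ (4:ℝ) ^ s * (n:ℝ) ^ s * (3 / 2 * Zc s) := by gcongr
      _ = _ := by ring
  exact ENNReal.div_le_of_le_mul h8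

/-- One good cell with few points in it. -/
lemma good_cell_bound {s : ℝ} (hs : 1 < s) {K : Set ℝ} {h η ε σ' d : ℝ} (hh : 0 < h) (hη : 0 < η)
    (hε : 0 < ε) (hε1 : ε < 1 / 4) (hηε : η ≤ ε / 2) (hηd : η ≤ ε * d / 2) (hd : 0 < d)
    (hσ : sig s < ENNReal.ofReal σ') (hσ0 : 0 < σ') {i : ℤ}
    (hG : (1 - η) * h < volume.real (K ∩ cell h i)) {ι : Type} [Fintype ι] (X : ι → ℝ)
    (hcard : σ' * (((Finset.univ.filter (fun j => ⌊X j / h⌋ = i)).card : ℝ)) ^ s < d ^ (-s)) :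
    ∃ z ∈ K, U s X z ≤ ENNReal.ofReal (((1 - ε) * (1 - 2 * ε) * h) ^ (-s) * (σ' *
        (((Finset.univ.filter (fun j => ⌊X j / h⌋ = i)).card : ℝ)) ^ s) +
      (ε / 2 * h) ^ (-s) * ∑ j, |((i - ⌊X j / h⌋ : ℤ) : ℝ)| ^ (-s)) := by
  classical
  have hs0 : 0 < s := by linarith
  set n := (Finset.univ.filter (fun j => ⌊X j / h⌋ = i)).card with hn
  set r : {j // ⌊X j / h⌋ = i} → ℝ := fun j => X j / h - i with hr
  set p : {j // ⌊X j / h⌋ = i} → ℝ := fun j => max ε (min (r j) (1 - ε)) with hp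
  set Z : {j // ⌊X j / h⌋ = i} → ℝ := fun j => (p j - ε) / (1 - 2 * ε) with hZ
  have h2ε : 0 < 1 - 2 * ε := by linarith
  have hp1 : ∀ j, ε ≤ p j := fun j => le_max_left _ _
  have hp2 : ∀ j, p j ≤ 1 - ε := fun j => max_le (by linarith) (min_le_right _ _)
  have hZ01 : ∀ j, Z j ∈ Set.Icc (0:ℝ) 1 := fun j => by
    constructor
    · exact div_nonneg (by linarith [hp1 j]) h2ε.le
    · rw [hZ]; simp only; rw [div_le_one h2ε]; linarith [hp2 j]
  obtain ⟨t, ht, hUt⟩ := exists_t hs0 hσ Z hZ01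
  have hcardn : Fintype.card {j // ⌊X j / h⌋ = i} = n := by
    rw [Fintype.card_subtype]
  rw [hcardn] at hUt
  have hUt' : U s Z t ≤ ENNReal.ofReal (σ' * (n:ℝ) ^ s) := by
    refine hUt.trans (le_of_eq ?_)
    rw [ENNReal.ofReal_mul hσ0.le]
    congr 1
    rw [← ENNReal.ofReal_rpow_of_nonneg (Nat.cast_nonneg _) hs0.le, ENNReal.ofReal_natCast]
  have hdist : ∀ j, d < |t - Z j| := by
    intro j
    by_contra hcon
    push Not at hcon
    have h1 : f s d ≤ U s Z t := (f_anti hs0 hcon).trans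
      (Finset.single_le_sum (f := fun k => f s |t - Z k|) (fun _ _ => bot_le) (Finset.mem_univ j))
    have h2 := h1.trans hUt'
    rw [f_of_pos hd, ENNReal.ofReal_le_ofReal_iff (by positivity)] at h2
    linarith
  set y0 := ((i:ℝ) + (ε + (1 - 2 * ε) * t)) * h with hy0
  have hy01 : (i:ℝ) * h ≤ y0 := by
    rw [hy0]; nlinarith [ht.1, mul_nonneg h2ε.le ht.1, mul_nonneg (mul_nonneg h2ε.le ht.1) hh.le,
      mul_pos hε hh]
  have hq1 : ε ≤ ε + (1 - 2 * ε) * t := by nlinarith [ht.1, mul_nonneg h2ε.le ht.1]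
  have hq2 : ε + (1 - 2 * ε) * t ≤ 1 - ε := by nlinarith [ht.2, mul_nonneg h2ε.le (sub_nonneg.2 ht.2)]
  have hy02 : y0 ≤ ((i:ℝ) + 1) * h := by
    rw [hy0]
    apply mul_le_mul_of_nonneg_right _ hh.le
    linarith
  obtain ⟨z, hzK, hzc, hz⟩ := near hh hη hG hy01 hy02 (by linarith)
  have hbd : ∀ j : {j // ⌊X j / h⌋ = i}, (1 - ε) * (1 - 2 * ε) * h * |t - Z j| ≤ |z - X j| := by
    intro j
    have h1 : (1 - 2 * ε) * |t - Z j| ≤ |ε + (1 - 2 * ε) * t - r j| := by
      have h2 : (1 - 2 * ε) * |t - Z j| = |ε + (1 - 2 * ε) * t - p j| := by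
        rw [← abs_of_pos h2ε, ← abs_mul, abs_of_pos h2ε]
        congr 1
        rw [hZ]; field_simp; ring
      rw [h2]
      have hpj : p j = max ε (min (r j) (1 - ε)) := rfl
      rcases le_total (r j) (1 - ε) with ha | ha
      · rw [min_eq_left ha] at hpj
        rcases le_total ε (r j) with hb | hb
        · rw [max_eq_right hb] at hpj; rw [hpj]
        · rw [max_eq_left hb] at hpj; rw [hpj, abs_of_nonneg (by linarith), abs_of_nonneg (by linarith)]
          linarith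
      · rw [min_eq_right ha, max_eq_right (by linarith)] at hpj
        rw [hpj, abs_of_nonpos (by linarith), abs_of_nonpos (by linarith)]
        linarith
    have h3 : y0 - X j = h * (ε + (1 - 2 * ε) * t - r j) := by
      rw [hy0, hr]; field_simp; ring
    have h4 : h * ((1 - 2 * ε) * |t - Z j|) ≤ |y0 - X j| := by
      rw [h3, abs_mul, abs_of_pos hh]
      gcongr
    have h5 : η * h ≤ ε * |y0 - X j| := by
      have h6 : h * ((1 - 2 * ε) * d) ≤ |y0 - X j| := by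
        refine le_trans ?_ h4
        have := (hdist j).le
        gcongr
      have h7 : η * h ≤ ε * (h * ((1 - 2 * ε) * d)) := by
        have h8 : ε * d / 2 ≤ ε * ((1 - 2 * ε) * d) := by
          have : 0 < ε * d := by positivity
          nlinarith
        calc η * h ≤ (ε * d / 2) * h := by gcongr
          _ ≤ (ε * ((1 - 2 * ε) * d)) * h := by gcongr
          _ = _ := by ring
      refine h7.trans ?_
      gcongr
    have h9 : |y0 - X j| ≤ |z - X j| + η * h := by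
      have h10 : y0 - X j = (z - X j) - (z - y0) := by ring
      rw [h10]
      exact (abs_sub _ _).trans (by linarith)
    have h11 : (1 - ε) * (1 - 2 * ε) * h * |t - Z j| = (1 - ε) * (h * ((1 - 2 * ε) * |t - Z j|)) := by
      ring
    rw [h11]
    calc (1 - ε) * (h * ((1 - 2 * ε) * |t - Z j|)) ≤ (1 - ε) * |y0 - X j| := by
          apply mul_le_mul_of_nonneg_left h4 (by linarith)
      _ = |y0 - X j| - ε * |y0 - X j| := by ring
      _ ≤ |z - X j| := by linarith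
  have hc1 : 0 < (1 - ε) * (1 - 2 * ε) * h := by
    have : 0 < 1 - ε := by linarith
    positivity
  refine ⟨z, hzK, ?_⟩
  have hin : ∑ j ∈ Finset.univ.filter (fun j => ⌊X j / h⌋ = i), f s |z - X j| ≤
      ENNReal.ofReal (((1 - ε) * (1 - 2 * ε) * h) ^ (-s) * (σ' * (n:ℝ) ^ s)) := by
    have h1 : ∑ j ∈ Finset.univ.filter (fun j => ⌊X j / h⌋ = i), f s |z - X j|
        = ∑ j : {j // ⌊X j / h⌋ = i}, f s |z - X j| := by
      exact Finset.sum_subtype _ (by intro j; simp) (fun j => f s |z - X j|)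
    rw [h1, ENNReal.ofReal_mul (by positivity)]
    calc ∑ j : {j // ⌊X j / h⌋ = i}, f s |z - X j|
        ≤ ∑ j : {j // ⌊X j / h⌋ = i}, ENNReal.ofReal (((1 - ε) * (1 - 2 * ε) * h) ^ (-s)) *
            f s |t - Z j| := by
          refine Finset.sum_le_sum fun j _ => ?_
          rw [← f_mul hc1]
          exact f_anti hs0 (hbd j)
      _ = ENNReal.ofReal (((1 - ε) * (1 - 2 * ε) * h) ^ (-s)) * U s Z t := by
          unfold U; rw [Finset.mul_sum]
      _ ≤ _ := by gcongr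
  have hz1 : ((i:ℝ) + ε / 2) * h ≤ z := by
    have h1 := (abs_le.1 hz).1
    have h2 : ((i:ℝ) + ε) * h ≤ y0 := by
      rw [hy0]; apply mul_le_mul_of_nonneg_right _ hh.le; linarith
    nlinarith [mul_le_mul_of_nonneg_right hηε hh.le]
  have hz2 : z ≤ ((i:ℝ) + 1 - ε / 2) * h := by
    have h1 := (abs_le.1 hz).2
    have h2 : y0 ≤ ((i:ℝ) + (1 - ε)) * h := by
      rw [hy0]; apply mul_le_mul_of_nonneg_right _ hh.le; linarith
    nlinarith [mul_le_mul_of_nonneg_right hηε hh.le]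
  have hout := tail hs0 X hh (κ := ε / 2) (by positivity) (by linarith) hz1 hz2
  have hsplit : U s X z = ∑ j ∈ Finset.univ.filter (fun j => ⌊X j / h⌋ = i), f s |z - X j|
      + ∑ j ∈ Finset.univ.filter (fun j => ¬ ⌊X j / h⌋ = i), f s |z - X j| := by
    unfold U
    exact (Finset.sum_filter_add_sum_filter_not _ _ _).symm
  rw [hsplit, ENNReal.ofReal_add (by positivity)
    (mul_nonneg (by positivity) (Finset.sum_nonneg fun j _ => by positivity))]
  exact add_le_add hin hout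

end Pool.Agent.W86.Polar
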