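import Mathlib

set_option autoImplicit false
open Filter Topology MeasureTheory
open scoped ENNReal

namespace Pool.Agent.W86.Stairs

/-- The stair: pairs `(j, j)` and `(j + 1, j)` with `j ≥ 1`. -/
def Stair (x : ℕ × ℕ) : Prop := (x.1 = x.2 ∨ x.1 = x.2 + 1) ∧ 1 ≤ x.2

instance : DecidablePred Stair := fun x => by unfold Stair; infer_instance

/-- The unnormalised target `j ^ (-2)` on the stair, `0` outside. -/
noncomputable def wt (x : ℕ × ℕ) : ℝ := if Stair x then 1 / (x.2 : ℝ) ^ 2 else 0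

/-- Acceptance probability of the move from `x` to `y`. -/
noncomputable def acc (x y : ℕ × ℕ) : ℝ := wt y / (wt y + wt x)

/-- Forward neighbour: `(j, j) ↦ (j + 1, j)`, `(j + 1, j) ↦ (j + 1, j + 1)`. -/
def fwd (x : ℕ × ℕ) : ℕ × ℕ := if x.1 = x.2 then (x.1 + 1, x.2) else (x.1, x.2 + 1)

/-- Backward neighbour: `(j, j) ↦ (j, j - 1)`, `(j + 1, j) ↦ (j, j)`. -/
def bwd (x : ℕ × ℕ) : ℕ × ℕ := if x.1 = x.2 then (x.1, x.2 - 1) else (x.1 - 1, x.2)

/-- One-step transition probabilities from `x` to `y`, if the forward neighbour is proposed with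
probability `u` and the backward one with probability `1 - u`. -/
noncomputable def step (u : ℝ) (x y : ℕ × ℕ) : ℝ≥0∞ :=
  (if y = fwd x then ENNReal.ofReal (u * acc x (fwd x)) else 0) +
  (if y = bwd x then ENNReal.ofReal ((1 - u) * acc x (bwd x)) else 0) +
  (if y = x then ENNReal.ofReal (1 - u * acc x (fwd x) - (1 - u) * acc x (bwd x)) else 0)

lemma wt_nonneg (x : ℕ × ℕ) : 0 ≤ wt x := by unfold wt; split_ifs <;> positivity

lemma wt_pos {x : ℕ × ℕ} (hx : Stair x) : 0 < wt x := by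
  unfold wt; rw [if_pos hx]
  have : (0:ℝ) < x.2 := by exact_mod_cast hx.2
  positivity

lemma wt_zero {x : ℕ × ℕ} (hx : ¬ Stair x) : wt x = 0 := by
  unfold wt; rw [if_neg hx]

lemma acc_nonneg (x y : ℕ × ℕ) : 0 ≤ acc x y :=
  div_nonneg (wt_nonneg _) (add_nonneg (wt_nonneg _) (wt_nonneg _))

lemma acc_le_one (x y : ℕ × ℕ) : acc x y ≤ 1 := by
  unfold acc
  apply div_le_one_of_le₀
  · linarith [wt_nonneg x]
  · exact add_nonneg (wt_nonneg _) (wt_nonneg _)

lemma stair_cases {x : ℕ × ℕ} (hx : Stair x) :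
    (∃ j : ℕ, x = (j + 1, j + 1)) ∨ (∃ j : ℕ, x = (j + 2, j + 1)) := by
  obtain ⟨a, b⟩ := x
  obtain ⟨h1, h2⟩ := hx
  simp only at h1 h2
  obtain ⟨j, rfl⟩ : ∃ j, b = j + 1 := ⟨b - 1, by omega⟩
  rcases h1 with rfl | rfl
  · exact Or.inl ⟨j, rfl⟩
  · exact Or.inr ⟨j, rfl⟩

lemma stair_fwd {x : ℕ × ℕ} (hx : Stair x) : Stair (fwd x) := by
  rcases stair_cases hx with ⟨j, rfl⟩ | ⟨j, rfl⟩
  · simp [fwd, Stair]
  · simp [fwd, Stair]

lemma sum_fwd (x : ℕ × ℕ) : (fwd x).1 + (fwd x).2 = x.1 + x.2 + 1 := by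
  unfold fwd; split_ifs <;> simp <;> omega

lemma sum_bwd {x : ℕ × ℕ} (hx : Stair x) : (bwd x).1 + (bwd x).2 = x.1 + x.2 - 1 := by
  rcases stair_cases hx with ⟨j, rfl⟩ | ⟨j, rfl⟩
  · simp [bwd]
    try omega
  · simp [bwd]
    try omega

/-- `x ≥ y` total outflow -/
lemma out_le {u : ℝ} (h0 : 0 ≤ u) (h1 : u ≤ 1) (x : ℕ × ℕ) :
    u * acc x (fwd x) + (1 - u) * acc x (bwd x) ≤ 1 := by
  have := acc_le_one x (fwd x); have := acc_le_one x (bwd x)
  nlinarith [acc_nonneg x (fwd x), acc_nonneg x (bwd x)]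

/-- Applying the kernel to a function. -/
lemma tsum_step (u : ℝ) (x : ℕ × ℕ) (F : ℕ × ℕ → ℝ≥0∞) :
    ∑' y, step u x y * F y = ENNReal.ofReal (u * acc x (fwd x)) * F (fwd x) +
      ENNReal.ofReal ((1 - u) * acc x (bwd x)) * F (bwd x) +
      ENNReal.ofReal (1 - u * acc x (fwd x) - (1 - u) * acc x (bwd x)) * F x := by
  unfold step
  simp_rw [add_mul, ite_mul, zero_mul]
  rw [ENNReal.tsum_add, ENNReal.tsum_add, tsum_ite_eq, tsum_ite_eq, tsum_ite_eq]

lemma tsum_step_one {u : ℝ} (h0 : 0 ≤ u) (h1 : u ≤ 1) (x : ℕ × ℕ) : ∑' y, step u x y = 1 := by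
  have h := tsum_step u x (fun _ => 1)
  simp only [mul_one] at h
  have a1 := acc_nonneg x (fwd x)
  have a2 := acc_nonneg x (bwd x)
  have a3 := out_le h0 h1 x
  rw [h, ← ENNReal.ofReal_add (by positivity) (mul_nonneg (by linarith) a2),
    ← ENNReal.ofReal_add (add_nonneg (by positivity) (mul_nonneg (by linarith) a2)) (by linarith)]
  rw [show u * acc x (fwd x) + (1 - u) * acc x (bwd x) +
    (1 - u * acc x (fwd x) - (1 - u) * acc x (bwd x)) = 1 by ring]
  simp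

/-- The kernel stays on the stair. -/
lemma step_off {u : ℝ} {x y : ℕ × ℕ} (hx : Stair x) (hy : ¬ Stair y) : step u x y = 0 := by
  unfold step
  have h1 : y ≠ fwd x := fun h => hy (h ▸ stair_fwd hx)
  have h2 : y ≠ x := fun h => hy (h ▸ hx)
  rw [if_neg h1, if_neg h2]
  by_cases h3 : y = bwd x
  · subst h3
    have : acc x (bwd x) = 0 := by unfold acc; rw [wt_zero hy]; simp
    simp [this]
  · simp [h3]

end Pool.Agent.W86.Stairs
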