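import Pool.Agent.W86.Stairs1

set_option autoImplicit false
open Filter Topology MeasureTheory
open scoped ENNReal

namespace Pool.Agent.W86.Stairs

lemma acc_diag_fwd (j : ℕ) : acc (j + 1, j + 1) (fwd (j + 1, j + 1)) = 1 / 2 := by
  have h1 : Stair (j + 1, j + 1) := by simp [Stair]
  have h2 : Stair (j + 1 + 1, j + 1) := by simp [Stair]
  have hf : fwd (j + 1, j + 1) = (j + 1 + 1, j + 1) := by simp [fwd]
  rw [hf]
  unfold acc wt
  rw [if_pos h1, if_pos h2]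
  field_simp
  norm_num

lemma acc_off_bwd (j : ℕ) : acc (j + 2, j + 1) (bwd (j + 2, j + 1)) = 1 / 2 := by
  have h1 : Stair (j + 2, j + 1) := by simp [Stair]
  have h2 : Stair (j + 1, j + 1) := by simp [Stair]
  have hf : bwd (j + 2, j + 1) = (j + 1, j + 1) := by simp [bwd]
  rw [hf]
  unfold acc wt
  rw [if_pos h1, if_pos h2]
  field_simp
  norm_num

lemma acc_off_fwd (j : ℕ) : acc (j + 2, j + 1) (fwd (j + 2, j + 1)) =
    ((j:ℝ) + 1) ^ 2 / (((j:ℝ) + 1) ^ 2 + ((j:ℝ) + 2) ^ 2) := by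
  have h1 : Stair (j + 2, j + 1) := by simp [Stair]
  have h2 : Stair (j + 2, j + 2) := by simp [Stair]
  have hf : fwd (j + 2, j + 1) = (j + 2, j + 2) := by simp [fwd]
  rw [hf]
  unfold acc wt
  rw [if_pos h1, if_pos h2]
  push_cast
  field_simp

lemma acc_diag_bwd_le (j : ℕ) : acc (j + 1, j + 1) (bwd (j + 1, j + 1)) ≤
    ((j:ℝ) + 1) ^ 2 / (((j:ℝ) + 1) ^ 2 + (j:ℝ) ^ 2) := by
  have h1 : Stair (j + 1, j + 1) := by simp [Stair]
  have hf : bwd (j + 1, j + 1) = (j + 1, j) := by simp [bwd]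
  rw [hf]
  rcases Nat.eq_zero_or_pos j with rfl | hj
  · have h2 : ¬ Stair (0 + 1, 0) := by simp [Stair]
    unfold acc
    rw [wt_zero h2]
    simp
  · have h2 : Stair (j + 1, j) := ⟨Or.inr rfl, hj⟩
    have hj' : (0:ℝ) < j := by exact_mod_cast hj
    unfold acc wt
    rw [if_pos h1, if_pos h2]
    push_cast
    apply le_of_eq
    field_simp

lemma acc_fwd_ge {x : ℕ × ℕ} (hx : Stair x) : 1 / 5 ≤ acc x (fwd x) := by
  rcases stair_cases hx with ⟨j, rfl⟩ | ⟨j, rfl⟩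
  · rw [acc_diag_fwd]; norm_num
  · rw [acc_off_fwd, div_le_div_iff₀ (by norm_num) (by positivity)]
    have : (0:ℝ) ≤ j := Nat.cast_nonneg j
    nlinarith

/-- Far from the origin the drift is bounded below. -/
lemma far_est {A : ℝ} (hA : 8 ≤ A) {x : ℕ × ℕ} (hx : Stair x) (hxA : A ≤ x.2) :
    1 / A ≤ acc x (fwd x) / 2 - (1 / 2 - 4 / A) * acc x (bwd x) := by
  have hA0 : 0 < A := by linarith
  have hinv : 1 / A * A = 1 := by field_simp
  rcases stair_cases hx with ⟨j, rfl⟩ | ⟨j, rfl⟩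
  · have hj : (0:ℝ) ≤ j := Nat.cast_nonneg j
    simp only at hxA
    push_cast at hxA
    have h1 := acc_diag_bwd_le j
    rw [acc_diag_fwd]
    set B := acc (j + 1, j + 1) (bwd (j + 1, j + 1)) with hB
    -- B ≤ 1/2 + 1/(j+1) ≤ 1/2 + 1/A
    have h2 : ((j:ℝ) + 1) ^ 2 / (((j:ℝ) + 1) ^ 2 + (j:ℝ) ^ 2) ≤ 1 / 2 + 1 / ((j:ℝ) + 1) := by
      rw [div_le_iff₀ (by positivity)]
      have h3 : (1 / 2 + 1 / ((j:ℝ) + 1)) * (((j:ℝ) + 1) ^ 2 + (j:ℝ) ^ 2) =
          (((j:ℝ) + 1) ^ 2 + (j:ℝ) ^ 2) / 2 + ((j:ℝ) + 1) + (j:ℝ) ^ 2 / ((j:ℝ) + 1) := by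
        field_simp
        ring
      rw [h3]
      have h4 : 0 ≤ (j:ℝ) ^ 2 / ((j:ℝ) + 1) := by positivity
      nlinarith
    have h5 : 1 / ((j:ℝ) + 1) ≤ 1 / A := one_div_le_one_div_of_le hA0 hxA
    have h6 : B ≤ 1 / 2 + 1 / A := by linarith
    have h7 : 0 ≤ 1 / 2 - 4 / A := by
      rw [sub_nonneg, div_le_div_iff₀ hA0 (by norm_num)]; linarith
    have h8 : (1 / 2 - 4 / A) * B ≤ (1 / 2 - 4 / A) * (1 / 2 + 1 / A) :=
      mul_le_mul_of_nonneg_left h6 h7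
    have h9 : (1 / 2 - 4 / A) * (1 / 2 + 1 / A) ≤ 1 / 4 - 1 / A := by
      have : (4:ℝ) / A = 4 * (1 / A) := by ring
      rw [this]
      have h10 : 0 < 1 / A := by positivity
      nlinarith
    linarith
  · have hj : (0:ℝ) ≤ j := Nat.cast_nonneg j
    simp only at hxA
    push_cast at hxA
    rw [acc_off_fwd, acc_off_bwd]
    have h2 : 1 / 2 - 1 / ((j:ℝ) + 1) ≤
        ((j:ℝ) + 1) ^ 2 / (((j:ℝ) + 1) ^ 2 + ((j:ℝ) + 2) ^ 2) := by
      rw [le_div_iff₀ (by positivity)]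
      have h3 : (1 / 2 - 1 / ((j:ℝ) + 1)) * (((j:ℝ) + 1) ^ 2 + ((j:ℝ) + 2) ^ 2) =
          (((j:ℝ) + 1) ^ 2 + ((j:ℝ) + 2) ^ 2) / 2 - ((j:ℝ) + 1) -
            ((j:ℝ) + 2) ^ 2 / ((j:ℝ) + 1) := by
        field_simp
        ring
      rw [h3]
      have h4 : (j:ℝ) + 1 ≤ ((j:ℝ) + 2) ^ 2 / ((j:ℝ) + 1) := by
        rw [le_div_iff₀ (by positivity)]; nlinarith
      nlinarith
    have h5 : 1 / ((j:ℝ) + 1) ≤ 1 / A := one_div_le_one_div_of_le hA0 hxA
    have h6 : (4:ℝ) / A = 4 * (1 / A) := by ring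
    rw [h6]
    have h7 : 0 < 1 / A := by positivity
    linarith

lemma profile {ρ : ℝ} (hρ0 : 0 < ρ) (hρ1 : ρ < 1) (N : ℕ) :
    ∃ (W dd : ℕ → ℝ), (∀ s, W s - W (s + 1) = dd s) ∧ (∀ s, 0 < dd s) ∧ (∀ s, 0 < W s) ∧
      Tendsto W atTop (𝓝 0) ∧ (∀ s, s < N → 10 * dd s ≤ dd (s + 1) ∧ 1 ≤ dd s) ∧
      (∀ s, N ≤ s → dd (s + 1) = ρ * dd s ∧ W (s + 1) * (1 - ρ) = dd (s + 1)) := by
  have h1ρ : 0 < 1 - ρ := by linarith
  refine ⟨fun s => 10 ^ N * ρ ^ (s - N) / (1 - ρ) + ∑ m ∈ Finset.Ico s N, (10:ℝ) ^ m,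
    fun s => if s < N then 10 ^ s else 10 ^ N * ρ ^ (s - N), ?_, ?_, ?_, ?_, ?_, ?_⟩
  · intro s
    simp only
    by_cases h : s < N
    · rw [if_pos h, Finset.sum_eq_sum_Ico_succ_bot h]
      have e1 : s - N = 0 := by omega
      have e2 : s + 1 - N = 0 := by omega
      rw [e1, e2]; ring
    · rw [if_neg h]
      have e1 : s + 1 - N = (s - N) + 1 := by omega
      rw [e1, Finset.Ico_eq_empty (by omega), Finset.Ico_eq_empty (by omega), pow_succ]
      simp only [Finset.sum_empty]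
      field_simp
      ring
  · intro s; simp only; split_ifs <;> positivity
  · intro s
    simp only
    have : 0 ≤ ∑ m ∈ Finset.Ico s N, (10:ℝ) ^ m := Finset.sum_nonneg fun _ _ => by positivity
    positivity
  · rw [← tendsto_add_atTop_iff_nat N]
    have e : ∀ s, (10 ^ N * ρ ^ (s + N - N) / (1 - ρ) +
        ∑ m ∈ Finset.Ico (s + N) N, (10:ℝ) ^ m) = 10 ^ N / (1 - ρ) * ρ ^ s := by
      intro s
      rw [Finset.Ico_eq_empty (by omega), Nat.add_sub_cancel]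
      simp only [Finset.sum_empty]
      ring
    simp_rw [e]
    have := (tendsto_pow_atTop_nhds_zero_of_lt_one hρ0.le hρ1).const_mul (10 ^ N / (1 - ρ))
    simpa using this
  · intro s h
    simp only
    rw [if_pos h]
    constructor
    · by_cases h' : s + 1 < N
      · rw [if_pos h', pow_succ]; linarith
      · rw [if_neg h']
        have : s + 1 = N := by omega
        rw [this, Nat.sub_self, ← this, pow_succ]; linarith
    · exact one_le_pow₀ (by norm_num)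
  · intro s h
    simp only
    rw [if_neg (show ¬ s + 1 < N by omega), if_neg (show ¬ s < N by omega),
        show s + 1 - N = (s - N) + 1 by omega, pow_succ, Finset.Ico_eq_empty (by omega)]
    constructor
    · ring
    · simp only [Finset.sum_empty]
      field_simp
      ring

/-- The Lyapunov function. -/
lemma lyapunov {A : ℝ} (hA : 8 < A) :
    ∃ (W : ℕ → ℝ) (c : ℝ), 0 < c ∧ c < 1 ∧ (∀ s, 0 < W s) ∧ Antitone W ∧
      Tendsto W atTop (𝓝 0) ∧ ∀ x, Stair x → ∀ u, 1 / 2 + 4 / A ≤ u → u ≤ 1 →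
        u * acc x (fwd x) * (W (x.1 + x.2) - W (x.1 + x.2 + 1)) -
          (1 - u) * acc x (bwd x) * (W (x.1 + x.2 - 1) - W (x.1 + x.2)) ≥ c * W (x.1 + x.2) := by
  have hA0 : 0 < A := by linarith
  obtain ⟨u0, hu0⟩ : ∃ u0 : ℝ, u0 = 1 / 2 + 4 / A := ⟨_, rfl⟩
  have h4A : 0 < 4 / A := by positivity
  have hu0h : 1 / 2 < u0 := by rw [hu0]; linarith
  obtain ⟨ρ, hρ⟩ : ∃ ρ : ℝ, ρ = 1 / (2 * u0) := ⟨_, rfl⟩
  have hρ0 : 0 < ρ := by rw [hρ]; positivity
  have hρ1 : ρ < 1 := by rw [hρ, div_lt_one (by positivity)]; linarith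
  have hu0ρ : u0 * ρ = 1 / 2 := by rw [hρ]; field_simp
  obtain ⟨N, hN⟩ := exists_nat_ge (2 * A + 2)
  have h1ρ : 0 < 1 - ρ := by linarith
  obtain ⟨W, dd, hd, hdpos, hWpos, hlim, hnear, hfar'⟩ := profile hρ0 hρ1 N
  have hanti : Antitone W := antitone_nat_of_succ_le fun s => by linarith [hd s, hdpos s]
  have hcpos : 0 < min ((1 - ρ) / A) (1 / (2 * W 0)) :=
    lt_min (by positivity) (by have := hWpos 0; positivity)
  have hclt : min ((1 - ρ) / A) (1 / (2 * W 0)) < 1 := by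
    refine lt_of_le_of_lt (min_le_left _ _) ?_
    rw [div_lt_one hA0]; linarith
  refine ⟨W, min ((1 - ρ) / A) (1 / (2 * W 0)), hcpos, hclt, hWpos, hanti, hlim, ?_⟩
  intro x hx u hu hu1
  rw [← hu0] at hu
  have hs2 : 2 ≤ x.1 + x.2 := by
    rcases stair_cases hx with ⟨j, rfl⟩ | ⟨j, rfl⟩ <;> simp <;> omega
  obtain ⟨s, hs⟩ : ∃ s, x.1 + x.2 = s + 1 := ⟨x.1 + x.2 - 1, by omega⟩
  rw [hs, hd (s + 1), show s + 1 - 1 = s by omega, hd s]
  have hF := acc_fwd_ge hx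
  have hF1 := acc_le_one x (fwd x)
  have hB := acc_nonneg x (bwd x)
  have hB1 := acc_le_one x (bwd x)
  have hxA' : N + 1 ≤ x.1 + x.2 → A ≤ x.2 := by
    intro h1
    have h2 : x.1 ≤ x.2 + 1 := by rcases hx.1 with h | h <;> omega
    have h3 : N ≤ 2 * x.2 := by omega
    have h4 : (N:ℝ) ≤ 2 * x.2 := by exact_mod_cast h3
    linarith
  have hfar : A ≤ x.2 → 1 / A ≤ acc x (fwd x) / 2 - (1 / 2 - 4 / A) * acc x (bwd x) :=
    fun h => far_est hA.le hx h
  generalize acc x (fwd x) = F at *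
  generalize acc x (bwd x) = B at *
  have hc1 : min ((1 - ρ) / A) (1 / (2 * W 0)) ≤ (1 - ρ) / A := min_le_left _ _
  have hc2 : min ((1 - ρ) / A) (1 / (2 * W 0)) ≤ 1 / (2 * W 0) := min_le_right _ _
  generalize min ((1 - ρ) / A) (1 / (2 * W 0)) = c at *
  have hds := hdpos s
  by_cases h : s < N
  · -- near the origin
    obtain ⟨hd1, hd2⟩ := hnear s h
    have hcW : c * W (s + 1) ≤ 1 / 2 := by
      have h1 : W (s + 1) ≤ W 0 := hanti (Nat.zero_le _)
      calc c * W (s + 1) ≤ (1 / (2 * W 0)) * W 0 :=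
            mul_le_mul hc2 h1 (hWpos _).le (by have := hWpos 0; positivity)
        _ = 1 / 2 := by have := hWpos 0; field_simp
    have h2 : u * F * (10 * dd s) ≤ u * F * dd (s + 1) :=
      mul_le_mul_of_nonneg_left hd1 (mul_nonneg (by linarith) (by linarith))
    have h3 : (1 - u) * B ≤ 1 / 2 := by nlinarith
    have h4 : 1 ≤ u * F * 10 := by nlinarith
    have h5 : 1 / 2 * dd s ≤ (u * F * 10 - (1 - u) * B) * dd s :=
      mul_le_mul_of_nonneg_right (by linarith) hds.le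
    nlinarith
  · push Not at h
    obtain ⟨hd1, h12⟩ := hfar' s h
    have hfar2 := hfar (hxA' (by omega))
    have h7 : u0 * F * (ρ * dd s) ≤ u * F * (ρ * dd s) := by
      apply mul_le_mul_of_nonneg_right _ (by positivity)
      exact mul_le_mul_of_nonneg_right hu (by linarith)
    have h8 : (1 - u) * B * dd s ≤ (1 - u0) * B * dd s := by
      apply mul_le_mul_of_nonneg_right _ hds.le
      exact mul_le_mul_of_nonneg_right (by linarith) hB
    have h9 : u0 * F * (ρ * dd s) = F / 2 * dd s := by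
      calc u0 * F * (ρ * dd s) = (u0 * ρ) * (F * dd s) := by ring
        _ = F / 2 * dd s := by rw [hu0ρ]; ring
    have h10 : 1 - u0 = 1 / 2 - 4 / A := by rw [hu0]; ring
    have h11 : 1 / A * dd s ≤ (F / 2 - (1 / 2 - 4 / A) * B) * dd s :=
      mul_le_mul_of_nonneg_right hfar2 hds.le
    rw [h10] at h8
    have h6 : 1 / A * dd s ≤ u * F * dd (s + 1) - (1 - u) * B * dd s := by
      rw [hd1]
      have e : (F / 2 - (1 / 2 - 4 / A) * B) * dd s = F / 2 * dd s - (1 / 2 - 4 / A) * B * dd s := by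
        ring
      linarith
    have h13 : c * W (s + 1) ≤ 1 / A * dd s := by
      have h14 : c * W (s + 1) ≤ (1 - ρ) / A * W (s + 1) :=
        mul_le_mul_of_nonneg_right hc1 (hWpos _).le
      have h15 : (1 - ρ) / A * W (s + 1) = 1 / A * dd (s + 1) := by rw [← h12]; ring
      have h16 : dd (s + 1) ≤ dd s := by rw [hd1]; nlinarith
      have h17 : 1 / A * dd (s + 1) ≤ 1 / A * dd s :=
        mul_le_mul_of_nonneg_left h16 (by positivity)
      linarith
    linarith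

end Pool.Agent.W86.Stairs
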