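import Pool.Agent.W86.Stairs2

set_option autoImplicit false
open Filter Topology MeasureTheory
open scoped ENNReal

namespace Pool.Agent.W86.Stairs

/-- `X 0, X 1, ...` is the walk started at `(1, 1)` which at the step from time `t` to `t + 1`,
from the state `x`, proposes the forward neighbour with probability `u (t + 1) x`. -/
structure IsWalk {Ω : Type*} [MeasurableSpace Ω] (μ : Measure Ω) (X : ℕ → Ω → ℕ × ℕ)
    (u : ℕ → ℕ × ℕ → ℝ) : Prop where
  meas : ∀ t, Measurable (X t)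
  init : ∀ᵐ ω ∂μ, X 0 ω = (1, 1)
  markov : ∀ (t : ℕ) (B : Set (Fin (t + 1) → ℕ × ℕ)) (x y : ℕ × ℕ),
    μ {ω | (fun i : Fin (t + 1) => X i ω) ∈ B ∧ X t ω = x ∧ X (t + 1) ω = y} =
      μ {ω | (fun i : Fin (t + 1) => X i ω) ∈ B ∧ X t ω = x} * step (u (t + 1) x) x y

section
variable {Ω : Type*} [MeasurableSpace Ω] {μ : Measure Ω} {X : ℕ → Ω → ℕ × ℕ}
  {u : ℕ → ℕ × ℕ → ℝ}

/-- the law at time `t` -/
noncomputable def law (μ : Measure Ω) (X : ℕ → Ω → ℕ × ℕ) (t : ℕ) (x : ℕ × ℕ) : ℝ≥0∞ :=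
  μ {ω | X t ω = x}

lemma meas_eq (h : IsWalk μ X u) (t : ℕ) (x : ℕ × ℕ) : MeasurableSet {ω | X t ω = x} :=
  (h.meas t) (measurableSet_singleton x)

lemma law_succ (h : IsWalk μ X u) (t : ℕ) (y : ℕ × ℕ) :
    law μ X (t + 1) y = ∑' x, law μ X t x * step (u (t + 1) x) x y := by
  have h1 : {ω | X (t + 1) ω = y} = ⋃ x : ℕ × ℕ, {ω | X t ω = x ∧ X (t + 1) ω = y} := by
    ext ω; simp
  unfold law
  rw [h1, measure_iUnion]
  · refine tsum_congr fun x => ?_
    have h2 := h.markov t Set.univ x y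
    simpa using h2
  · intro x x' hxx'
    rw [Function.onFun, Set.disjoint_left]
    rintro ω ⟨ha, _⟩ ⟨hb, _⟩
    exact hxx' (ha.symm.trans hb)
  · intro x
    exact (meas_eq h t x).inter (meas_eq h (t + 1) y)

lemma law_sum [IsProbabilityMeasure μ] (h : IsWalk μ X u) (t : ℕ) : ∑' x, law μ X t x = 1 := by
  unfold law
  rw [← measure_iUnion]
  · have : (⋃ x : ℕ × ℕ, {ω | X t ω = x}) = Set.univ := by ext ω; simp
    rw [this, measure_univ]
  · intro x x' hxx'
    rw [Function.onFun, Set.disjoint_left]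
    intro ω ha hb
    exact hxx' (Eq.trans (Eq.symm ha) hb)
  · intro x
    exact meas_eq h t x

lemma law_zero (h : IsWalk μ X u) {x : ℕ × ℕ} (hx : x ≠ (1, 1)) : law μ X 0 x = 0 := by
  unfold law
  have : ∀ᵐ ω ∂μ, ¬ (X 0 ω = x) := by
    filter_upwards [h.init] with ω hω h'
    exact hx (h'.symm.trans hω)
  simpa [ae_iff] using this

lemma law_off (h : IsWalk μ X u) (t : ℕ) : ∀ x, ¬ Stair x → law μ X t x = 0 := by
  induction t with
  | zero =>
    intro x hx
    exact law_zero h (fun h' => hx (by rw [h']; simp [Stair]))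
  | succ t ih =>
    intro y hy
    rw [law_succ h, ENNReal.tsum_eq_zero]
    intro x
    by_cases hx : Stair x
    · rw [step_off hx hy, mul_zero]
    · rw [ih x hx, zero_mul]

/-- expectation of a function of `X t` -/
noncomputable def Ex (μ : Measure Ω) (X : ℕ → Ω → ℕ × ℕ) (t : ℕ) (W : ℕ → ℝ) : ℝ≥0∞ :=
  ∑' x, law μ X t x * ENNReal.ofReal (W (x.1 + x.2))

lemma Ex_succ (h : IsWalk μ X u) (t : ℕ) (W : ℕ → ℝ) :
    Ex μ X (t + 1) W = ∑' x, law μ X t x *
      ∑' y, step (u (t + 1) x) x y * ENNReal.ofReal (W (y.1 + y.2)) := by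
  unfold Ex
  simp_rw [law_succ h t, ← ENNReal.tsum_mul_right, ← ENNReal.tsum_mul_left]
  rw [ENNReal.tsum_comm]
  refine tsum_congr fun x => tsum_congr fun y => ?_
  rw [mul_assoc]

/-- pointwise drift -/
lemma drift_pt {W : ℕ → ℝ} {c v : ℝ} (hc1 : c < 1) (hW : ∀ s, 0 < W s)
    {x : ℕ × ℕ} (hx : Stair x) (hv0 : 0 ≤ v) (hv1 : v ≤ 1)
    (hd : v * acc x (fwd x) * (W (x.1 + x.2) - W (x.1 + x.2 + 1)) -
          (1 - v) * acc x (bwd x) * (W (x.1 + x.2 - 1) - W (x.1 + x.2)) ≥ c * W (x.1 + x.2)) :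
    ∑' y, step v x y * ENNReal.ofReal (W (y.1 + y.2)) ≤
      ENNReal.ofReal (1 - c) * ENNReal.ofReal (W (x.1 + x.2)) := by
  rw [tsum_step, sum_fwd, sum_bwd hx]
  have a1 := acc_nonneg x (fwd x)
  have a2 := acc_nonneg x (bwd x)
  have a3 := out_le hv0 hv1 x
  have w1 := hW (x.1 + x.2)
  have w2 := hW (x.1 + x.2 + 1)
  have w3 := hW (x.1 + x.2 - 1)
  have b1 : 0 ≤ v * acc x (fwd x) := by positivity
  have b2 : 0 ≤ (1 - v) * acc x (bwd x) := mul_nonneg (by linarith) a2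
  have b3 : 0 ≤ 1 - v * acc x (fwd x) - (1 - v) * acc x (bwd x) := by linarith
  rw [← ENNReal.ofReal_mul b1, ← ENNReal.ofReal_mul b2, ← ENNReal.ofReal_mul b3,
    ← ENNReal.ofReal_mul (by linarith), ← ENNReal.ofReal_add (by positivity) (by positivity),
    ← ENNReal.ofReal_add (by positivity) (by positivity)]
  apply ENNReal.ofReal_le_ofReal
  nlinarith

lemma Ex_drift (h : IsWalk μ X u) {t : ℕ} {W : ℕ → ℝ} {c : ℝ} (hc1 : c < 1)
    (hW : ∀ s, 0 < W s) (hu : ∀ x, Stair x → 0 ≤ u (t + 1) x ∧ u (t + 1) x ≤ 1)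
    (hd : ∀ x, Stair x → u (t + 1) x * acc x (fwd x) * (W (x.1 + x.2) - W (x.1 + x.2 + 1)) -
          (1 - u (t + 1) x) * acc x (bwd x) * (W (x.1 + x.2 - 1) - W (x.1 + x.2)) ≥
            c * W (x.1 + x.2)) :
    Ex μ X (t + 1) W ≤ ENNReal.ofReal (1 - c) * Ex μ X t W := by
  rw [Ex_succ h]
  unfold Ex
  rw [← ENNReal.tsum_mul_left]
  refine ENNReal.tsum_le_tsum fun x => ?_
  by_cases hx : Stair x
  · have := drift_pt hc1 hW hx (hu x hx).1 (hu x hx).2 (hd x hx)
    calc law μ X t x * ∑' y, step (u (t + 1) x) x y * ENNReal.ofReal (W (y.1 + y.2))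
        ≤ law μ X t x * (ENNReal.ofReal (1 - c) * ENNReal.ofReal (W (x.1 + x.2))) := by gcongr
      _ = _ := by ring
  · rw [law_off h t x hx]; simp

lemma Ex_le [IsProbabilityMeasure μ] (h : IsWalk μ X u) (t : ℕ) {W : ℕ → ℝ} (hW : Antitone W) :
    Ex μ X t W ≤ ENNReal.ofReal (W 0) := by
  calc Ex μ X t W ≤ ∑' x, law μ X t x * ENNReal.ofReal (W 0) := by
        unfold Ex
        refine ENNReal.tsum_le_tsum fun x => ?_
        gcongr
        exact hW (Nat.zero_le _)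
    _ = ENNReal.ofReal (W 0) := by rw [ENNReal.tsum_mul_right, law_sum h, one_mul]

lemma prob_le (t k : ℕ) {W : ℕ → ℝ} {c : ℝ} (hc : 0 ≤ c)
    (hW : ∀ s, s ≤ k → 1 ≤ c * W s) :
    μ {ω | (X t ω).1 + (X t ω).2 ≤ k} ≤ ENNReal.ofReal c * Ex μ X t W := by
  classical
  have h1 : {ω | (X t ω).1 + (X t ω).2 ≤ k} =
      ⋃ x : ℕ × ℕ, {ω | X t ω = x ∧ x.1 + x.2 ≤ k} := by
    ext ω; simp
  rw [h1]
  refine (measure_iUnion_le _).trans ?_
  unfold Ex
  rw [← ENNReal.tsum_mul_left]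
  refine ENNReal.tsum_le_tsum fun x => ?_
  by_cases hx : x.1 + x.2 ≤ k
  · have h2 : {ω | X t ω = x ∧ x.1 + x.2 ≤ k} = {ω | X t ω = x} := by ext ω; simp [hx]
    rw [h2]
    have h3 : (1:ℝ≥0∞) ≤ ENNReal.ofReal c * ENNReal.ofReal (W (x.1 + x.2)) := by
      rw [← ENNReal.ofReal_mul hc, ENNReal.one_le_ofReal]
      exact hW _ hx
    calc μ {ω | X t ω = x} = law μ X t x * 1 := by rw [mul_one]; rfl
      _ ≤ law μ X t x * (ENNReal.ofReal c * ENNReal.ofReal (W (x.1 + x.2))) := by gcongr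
      _ = _ := by ring
  · have h2 : {ω | X t ω = x ∧ x.1 + x.2 ≤ k} = ∅ := by ext ω; simp [hx]
    rw [h2]; simp

lemma Ex_compare [IsProbabilityMeasure μ] (h : IsWalk μ X u) (t : ℕ) {W W' : ℕ → ℝ} {η C : ℝ}
    (hη : 0 ≤ η) (hC : 0 ≤ C) (hW : ∀ s, 0 < W s) (hWW : ∀ s, W' s ≤ η + C * W s) :
    Ex μ X t W' ≤ ENNReal.ofReal η + ENNReal.ofReal C * Ex μ X t W := by
  calc Ex μ X t W' ≤ ∑' x, (law μ X t x * ENNReal.ofReal η +
        ENNReal.ofReal C * (law μ X t x * ENNReal.ofReal (W (x.1 + x.2)))) := by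
        unfold Ex
        refine ENNReal.tsum_le_tsum fun x => ?_
        calc law μ X t x * ENNReal.ofReal (W' (x.1 + x.2))
            ≤ law μ X t x * (ENNReal.ofReal η + ENNReal.ofReal C * ENNReal.ofReal (W (x.1 + x.2))) := by
              gcongr
              rw [← ENNReal.ofReal_mul hC, ← ENNReal.ofReal_add hη (by have := hW (x.1 + x.2); positivity)]
              exact ENNReal.ofReal_le_ofReal (hWW _)
          _ = _ := by ring
    _ = ENNReal.ofReal η + ENNReal.ofReal C * Ex μ X t W := by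
        rw [ENNReal.tsum_add, ENNReal.tsum_mul_right, law_sum h, one_mul, ENNReal.tsum_mul_left]
        rfl

end

/-- comparison of two profiles -/
lemma compare {W W' : ℕ → ℝ} (hW : ∀ s, 0 < W s) (hWa : Antitone W) (hW' : ∀ s, 0 < W' s)
    (hWa' : Antitone W') (hlim : Tendsto W' atTop (𝓝 0)) {η : ℝ} (hη : 0 < η) :
    ∃ C, 0 < C ∧ ∀ s, W' s ≤ η + C * W s := by
  obtain ⟨M, hM⟩ := (hlim.eventually_lt_const hη).exists
  refine ⟨W' 0 / W M, div_pos (hW' 0) (hW M), fun s => ?_⟩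
  rcases le_total s M with h | h
  · have h1 : W' s ≤ W' 0 := hWa' (Nat.zero_le _)
    have h2 : W M ≤ W s := hWa h
    have h3 : W' 0 ≤ W' 0 / W M * W s := by
      rw [div_mul_eq_mul_div, le_div_iff₀ (hW M)]
      exact mul_le_mul_of_nonneg_left h2 (hW' 0).le
    linarith
  · have h1 : W' s ≤ W' M := hWa' h
    have h2 : 0 < W' 0 / W M * W s := mul_pos (div_pos (hW' 0) (hW M)) (hW s)
    linarith

/-- normalised data for the stage `k` -/
structure Data (k : ℕ) where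
  W : ℕ → ℝ
  c : ℝ
  hc : 0 < c
  hc1 : c < 1
  pos : ∀ s, 0 < W s
  anti : Antitone W
  lim : Tendsto W atTop (𝓝 0)
  big : ∀ s, s ≤ k → 1 ≤ c * W s
  drift : ∀ x, Stair x → ∀ u, 1 / 2 + 4 / (9 + (k:ℝ)) ≤ u → u ≤ 1 →
        u * acc x (fwd x) * (W (x.1 + x.2) - W (x.1 + x.2 + 1)) -
          (1 - u) * acc x (bwd x) * (W (x.1 + x.2 - 1) - W (x.1 + x.2)) ≥ c * W (x.1 + x.2)

lemma exists_data (k : ℕ) : Nonempty (Data k) := by
  have hk : (0:ℝ) ≤ k := Nat.cast_nonneg k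
  obtain ⟨W, c, hc, hc1, hpos, hanti, hlim, hdr⟩ := lyapunov (A := 9 + (k:ℝ)) (by linarith)
  have hl : 0 < 1 / (c * W k) := by have := hpos k; positivity
  refine ⟨⟨fun s => 1 / (c * W k) * W s, c, hc, hc1, fun s => mul_pos hl (hpos s),
    fun a b hab => mul_le_mul_of_nonneg_left (hanti hab) hl.le, ?_, ?_, ?_⟩⟩
  · simpa using hlim.const_mul (1 / (c * W k))
  · intro s hs
    have h1 : W k ≤ W s := hanti hs
    have h2 : c * (1 / (c * W k) * W s) = W s / W k := by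
      have := hpos k
      field_simp
    rw [h2, le_div_iff₀ (hpos k)]; linarith
  · intro x hx u h1 h2
    have h3 := hdr x hx u h1 h2
    have h4 := mul_le_mul_of_nonneg_left h3 hl.le
    linarith

noncomputable def dat (k : ℕ) : Data k := (exists_data k).some

lemma exists_len (k : ℕ) : ∃ (C : ℝ) (l : ℕ), 1 ≤ l ∧ 0 < C ∧
    (∀ s, (dat (k + 1)).W s ≤ (1 / 2) ^ k / 2 + C * (dat k).W s) ∧
    C * ((1 - (dat k).c) ^ l * (dat k).W 0) ≤ (1 / 2) ^ k / 2 := by
  obtain ⟨C, hC, hCW⟩ := compare (dat k).pos (dat k).anti (dat (k + 1)).pos (dat (k + 1)).anti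
    (dat (k + 1)).lim (η := (1 / 2) ^ k / 2) (by positivity)
  have hc := (dat k).hc
  have hc1 := (dat k).hc1
  have hlim : Tendsto (fun l : ℕ => C * ((1 - (dat k).c) ^ l * (dat k).W 0)) atTop (𝓝 0) := by
    have := ((tendsto_pow_atTop_nhds_zero_of_lt_one (r := 1 - (dat k).c) (by linarith)
      (by linarith)).mul_const ((dat k).W 0)).const_mul C
    simpa using this
  obtain ⟨l, hl, hl1⟩ := ((hlim.eventually_le_const (show (0:ℝ) < (1 / 2) ^ k / 2 by positivity)).and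
    (eventually_ge_atTop 1)).exists
  exact ⟨C, l, hl1, hC, hCW, hl⟩

noncomputable def len (k : ℕ) : ℕ := (exists_len k).choose_spec.choose

lemma len_spec (k : ℕ) : ∃ C : ℝ, 1 ≤ len k ∧ 0 < C ∧
    (∀ s, (dat (k + 1)).W s ≤ (1 / 2) ^ k / 2 + C * (dat k).W s) ∧
    C * ((1 - (dat k).c) ^ (len k) * (dat k).W 0) ≤ (1 / 2) ^ k / 2 :=
  ⟨_, (exists_len k).choose_spec.choose_spec⟩

/-- stage boundaries -/
noncomputable def T (k : ℕ) : ℕ := ∑ j ∈ Finset.range k, len j

lemma T_succ (k : ℕ) : T (k + 1) = T k + len k := Finset.sum_range_succ _ _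

lemma T_strict : StrictMono T := strictMono_nat_of_lt_succ fun k => by
  rw [T_succ]
  obtain ⟨C, h, _⟩ := len_spec k
  omega

/-- the stage of time `t` -/
noncomputable def stage (t : ℕ) : ℕ := Nat.findGreatest (fun k => T k ≤ t) t

lemma T_stage_le (t : ℕ) : T (stage t) ≤ t :=
  Nat.findGreatest_spec (P := fun k => T k ≤ t) (m := 0) (Nat.zero_le _) (by simp [T])

lemma lt_T_stage (t : ℕ) : t < T (stage t + 1) := by
  by_contra hcon
  push Not at hcon
  have h1 : stage t + 1 ≤ t := (T_strict.id_le _).trans hcon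
  have := Nat.le_findGreatest (P := fun k => T k ≤ t) h1 hcon
  unfold stage at this
  omega

lemma stage_eq {t k : ℕ} (h1 : T k ≤ t) (h2 : t < T (k + 1)) : stage t = k := by
  have h3 := T_stage_le t
  have h4 := lt_T_stage t
  have h5 : k < stage t + 1 := T_strict.lt_iff_lt.1 (lt_of_le_of_lt h1 h4)
  have h6 : stage t < k + 1 := T_strict.lt_iff_lt.1 (lt_of_le_of_lt h3 h2)
  omega

lemma stage_mono : Monotone stage := by
  intro s t hst
  have h1 := T_stage_le s
  have h4 := lt_T_stage t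
  have h5 : stage s < stage t + 1 := T_strict.lt_iff_lt.1 (by omega)
  omega

lemma stage_zero : stage 0 = 0 := stage_eq (by simp [T]) (by
  have := T_strict (show 0 < 1 by omega); simp [T] at this ⊢; exact this)

lemma stage_tendsto : Tendsto stage atTop atTop := by
  rw [tendsto_atTop_atTop]
  intro k
  refine ⟨T k, fun t ht => ?_⟩
  have h1 : stage (T k) = k := stage_eq le_rfl (T_strict (Nat.lt_succ_self k))
  calc k = stage (T k) := h1.symm
    _ ≤ stage t := stage_mono ht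

/-- the slowly growing bound on the parameters -/
noncomputable def bd (t : ℕ) : ℝ := 9 + (stage (t - 1) : ℝ)

section
variable {Ω : Type*} [MeasurableSpace Ω] {μ : Measure Ω} {X : ℕ → Ω → ℕ × ℕ}

lemma Ex_stage [IsProbabilityMeasure μ] {a : ℕ → ℝ} (ha : ∀ t, 8 ≤ a t ∧ a t ≤ bd t)
    (h : IsWalk μ X (fun t _ => 1 / 2 + 4 / a t)) {t k : ℕ} (h1 : T k ≤ t) (h2 : t < T (k + 1)) :
    Ex μ X (t + 1) (dat k).W ≤ ENNReal.ofReal (1 - (dat k).c) * Ex μ X t (dat k).W := by
  have hst : stage t = k := stage_eq h1 h2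
  have hb : a (t + 1) ≤ 9 + (k:ℝ) := by
    have := (ha (t + 1)).2
    rw [bd, Nat.add_sub_cancel, hst] at this
    exact this
  have h8 := (ha (t + 1)).1
  have hk : (0:ℝ) ≤ k := Nat.cast_nonneg k
  have hlow : 4 / (9 + (k:ℝ)) ≤ 4 / a (t + 1) :=
    div_le_div_of_nonneg_left (by norm_num) (by linarith) hb
  have hup : 4 / a (t + 1) ≤ 1 / 2 := by
    rw [div_le_div_iff₀ (by linarith) (by norm_num)]; linarith
  have hpos : 0 ≤ 4 / a (t + 1) := div_nonneg (by norm_num) (by linarith)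
  refine Ex_drift h (dat k).hc1 (dat k).pos (fun x _ => ⟨by linarith, by linarith⟩)
    (fun x hx => (dat k).drift x hx _ (by linarith) (by linarith))

lemma Ex_switch [IsProbabilityMeasure μ] {a : ℕ → ℝ} (ha : ∀ t, 8 ≤ a t ∧ a t ≤ bd t)
    (h : IsWalk μ X (fun t _ => 1 / 2 + 4 / a t)) (k : ℕ) :
    Ex μ X (T (k + 1)) (dat (k + 1)).W ≤ ENNReal.ofReal ((1 / 2) ^ k) := by
  obtain ⟨C, hl1, hC, hCW, hCl⟩ := len_spec k
  have hc := (dat k).hc
  have hc1 := (dat k).hc1
  have hdec : ∀ i, i ≤ len k → Ex μ X (T k + i) (dat k).W ≤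
      ENNReal.ofReal ((1 - (dat k).c) ^ i * (dat k).W 0) := by
    intro i
    induction i with
    | zero => intro _; simpa using Ex_le h (T k) (dat k).anti
    | succ i ih =>
      intro hi
      have h1 := Ex_stage ha h (t := T k + i) (k := k) (Nat.le_add_right _ _)
        (by rw [T_succ]; omega)
      have h2 := ih (by omega)
      calc Ex μ X (T k + (i + 1)) (dat k).W = Ex μ X (T k + i + 1) (dat k).W := rfl
        _ ≤ ENNReal.ofReal (1 - (dat k).c) * Ex μ X (T k + i) (dat k).W := h1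
        _ ≤ ENNReal.ofReal (1 - (dat k).c) *
            ENNReal.ofReal ((1 - (dat k).c) ^ i * (dat k).W 0) := by gcongr
        _ = ENNReal.ofReal ((1 - (dat k).c) ^ (i + 1) * (dat k).W 0) := by
            rw [← ENNReal.ofReal_mul (by linarith)]
            congr 1
            ring
  have h3 := hdec (len k) le_rfl
  rw [← T_succ] at h3
  calc Ex μ X (T (k + 1)) (dat (k + 1)).W
      ≤ ENNReal.ofReal ((1 / 2) ^ k / 2) + ENNReal.ofReal C * Ex μ X (T (k + 1)) (dat k).W :=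
        Ex_compare h _ (by positivity) hC.le (dat k).pos hCW
    _ ≤ ENNReal.ofReal ((1 / 2) ^ k / 2) + ENNReal.ofReal C *
        ENNReal.ofReal ((1 - (dat k).c) ^ (len k) * (dat k).W 0) := by gcongr
    _ ≤ ENNReal.ofReal ((1 / 2) ^ k / 2) + ENNReal.ofReal ((1 / 2) ^ k / 2) := by
        rw [← ENNReal.ofReal_mul hC.le]
        gcongr
    _ = ENNReal.ofReal ((1 / 2) ^ k) := by
        rw [← ENNReal.ofReal_add (by positivity) (by positivity)]
        congr 1
        ring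

lemma stage_succ (t : ℕ) : stage (t + 1) = stage t ∨
    (stage (t + 1) = stage t + 1 ∧ t + 1 = T (stage t + 1)) := by
  have h1 := T_stage_le t
  have h2 := lt_T_stage t
  rcases Nat.lt_or_ge (t + 1) (T (stage t + 1)) with h | h
  · exact Or.inl (stage_eq (by omega) h)
  · have h3 : t + 1 = T (stage t + 1) := by omega
    refine Or.inr ⟨stage_eq h ?_, h3⟩
    rw [h3]; exact T_strict (Nat.lt_succ_self _)

lemma sum_bound [IsProbabilityMeasure μ] {a : ℕ → ℝ} (ha : ∀ t, 8 ≤ a t ∧ a t ≤ bd t)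
    (h : IsWalk μ X (fun t _ => 1 / 2 + 4 / a t)) (n : ℕ) :
    ∑ t ∈ Finset.range n, ENNReal.ofReal (dat (stage t)).c * Ex μ X t (dat (stage t)).W +
      Ex μ X n (dat (stage n)).W ≤ ENNReal.ofReal ((dat 0).W 0) +
        ∑ j ∈ Finset.range (stage n), ENNReal.ofReal ((1 / 2) ^ j) := by
  induction n with
  | zero =>
    rw [stage_zero]
    simpa using Ex_le h 0 (dat 0).anti
  | succ n ih =>
    have h1 := Ex_stage ha h (T_stage_le n) (lt_T_stage n)
    have hc := (dat (stage n)).hc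
    have hc1 := (dat (stage n)).hc1
    have h2 : ENNReal.ofReal (dat (stage n)).c * Ex μ X n (dat (stage n)).W +
        Ex μ X (n + 1) (dat (stage n)).W ≤ Ex μ X n (dat (stage n)).W := by
      calc _ ≤ ENNReal.ofReal (dat (stage n)).c * Ex μ X n (dat (stage n)).W +
            ENNReal.ofReal (1 - (dat (stage n)).c) * Ex μ X n (dat (stage n)).W := by gcongr
        _ = Ex μ X n (dat (stage n)).W := by
          rw [← add_mul, ← ENNReal.ofReal_add hc.le (by linarith)]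
          simp
    rw [Finset.sum_range_succ, add_assoc]
    rcases stage_succ n with hs | ⟨hs, hT⟩
    · rw [hs]
      calc _ ≤ ∑ t ∈ Finset.range n, ENNReal.ofReal (dat (stage t)).c *
              Ex μ X t (dat (stage t)).W + Ex μ X n (dat (stage n)).W := by gcongr
        _ ≤ _ := ih
    · rw [hs, Finset.sum_range_succ, ← add_assoc, ← add_assoc]
      have h3 : Ex μ X (n + 1) (dat (stage n + 1)).W ≤ ENNReal.ofReal ((1 / 2) ^ (stage n)) := by
        have := Ex_switch ha h (stage n)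
        rwa [← hT] at this
      refine add_le_add ?_ h3
      refine le_trans ?_ ih
      gcongr
      exact le_trans le_self_add h2

lemma sum_prob [IsProbabilityMeasure μ] {a : ℕ → ℝ} (ha : ∀ t, 8 ≤ a t ∧ a t ≤ bd t)
    (h : IsWalk μ X (fun t _ => 1 / 2 + 4 / a t)) :
    ∑' t, μ {ω | (X t ω).1 + (X t ω).2 ≤ stage t} ≠ ⊤ := by
  have hgeo : ∀ m, ∑ j ∈ Finset.range m, ENNReal.ofReal ((1 / 2) ^ j) ≤ ENNReal.ofReal 2 := by
    intro m
    rw [← ENNReal.ofReal_sum_of_nonneg (fun _ _ => by positivity)]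
    apply ENNReal.ofReal_le_ofReal
    calc ∑ j ∈ Finset.range m, ((1:ℝ) / 2) ^ j ≤ ∑' j : ℕ, ((1:ℝ) / 2) ^ j :=
          summable_geometric_two.sum_le_tsum _ (fun _ _ => by positivity)
      _ = 2 := tsum_geometric_two
  refine ne_top_of_le_ne_top (b := ENNReal.ofReal ((dat 0).W 0) + ENNReal.ofReal 2)
    (ENNReal.add_ne_top.2 ⟨ENNReal.ofReal_ne_top, ENNReal.ofReal_ne_top⟩) ?_
  rw [ENNReal.tsum_eq_iSup_nat]
  refine iSup_le fun n => ?_
  calc ∑ t ∈ Finset.range n, μ {ω | (X t ω).1 + (X t ω).2 ≤ stage t}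
      ≤ ∑ t ∈ Finset.range n, ENNReal.ofReal (dat (stage t)).c * Ex μ X t (dat (stage t)).W :=
        Finset.sum_le_sum fun t _ => prob_le t _ (dat (stage t)).hc.le (dat (stage t)).big
    _ ≤ _ := le_self_add
    _ ≤ _ := sum_bound ha h n
    _ ≤ _ := by gcongr; exact hgeo _

/-- **Escape to infinity** for all sequences below `bd`. -/
theorem escape [IsProbabilityMeasure μ] {a : ℕ → ℝ} (ha : ∀ t, 8 ≤ a t ∧ a t ≤ bd t)
    (h : IsWalk μ X (fun t _ => 1 / 2 + 4 / a t)) :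
    ∀ᵐ ω ∂μ, Tendsto (fun t => (X t ω).2) atTop atTop := by
  have h1 := ae_eventually_notMem (sum_prob ha h)
  have h2 : ∀ᵐ ω ∂μ, ∀ t, Stair (X t ω) := by
    rw [ae_all_iff]
    intro t
    have : {ω | ¬ Stair (X t ω)} = ⋃ x ∈ {x : ℕ × ℕ | ¬ Stair x}, {ω | X t ω = x} := by
      ext ω; simp
    rw [ae_iff, this, measure_biUnion_null_iff (Set.to_countable _)]
    intro x hx
    exact law_off h t x hx
  filter_upwards [h1, h2] with ω hω hω2
  rw [tendsto_atTop]
  intro m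
  have h3 := (tendsto_atTop.1 stage_tendsto) (2 * m + 1)
  filter_upwards [hω, h3] with t ht1 ht2
  have h4 : stage t < (X t ω).1 + (X t ω).2 := by
    by_contra hcon
    exact ht1 (by simpa using hcon)
  have h5 : (X t ω).1 ≤ (X t ω).2 + 1 := by rcases (hω2 t).1 with h | h <;> omega
  omega

end

lemma bd_mono : Monotone bd := by
  intro s t hst
  unfold bd
  have : stage (s - 1) ≤ stage (t - 1) := stage_mono (Nat.sub_le_sub_right hst 1)
  have : (stage (s - 1) : ℝ) ≤ stage (t - 1) := by exact_mod_cast this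
  linarith

lemma bd_ge (t : ℕ) : 9 ≤ bd t := by
  unfold bd
  have : (0:ℝ) ≤ stage (t - 1) := Nat.cast_nonneg _
  linarith

lemma bd_tendsto : Tendsto bd atTop atTop := by
  unfold bd
  refine tendsto_atTop_add_const_left _ _ ?_
  exact tendsto_natCast_atTop_atTop.comp (stage_tendsto.comp (tendsto_sub_atTop_nat 1))

end Pool.Agent.W86.Stairs
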