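import Pool.Agent.W86.Stairs3

set_option autoImplicit false
open Filter Topology MeasureTheory ProbabilityTheory
open scoped ENNReal

namespace Pool.Agent.W86.Stairs

/-! ### The walk with the other reading of the proposal probabilities is reversible -/

/-- proposal probabilities of the forward neighbour: `1/2 + 4/a` at `(j, j)` and `1/2 - 4/a` at
`(j + 1, j)` -/
noncomputable def uAlt (a : ℝ) (x : ℕ × ℕ) : ℝ := if x.1 = x.2 then 1 / 2 + 4 / a else 1 / 2 - 4 / a

lemma bwd_fwd {x : ℕ × ℕ} (hx : Stair x) : bwd (fwd x) = x := by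
  rcases stair_cases hx with ⟨j, rfl⟩ | ⟨j, rfl⟩ <;> simp [fwd, bwd]

lemma fwd_bwd {x : ℕ × ℕ} (hx : Stair x) (hb : Stair (bwd x)) : fwd (bwd x) = x := by
  rcases stair_cases hx with ⟨j, rfl⟩ | ⟨j, rfl⟩
  · have hj : 1 ≤ j := by simpa [bwd, Stair] using hb
    simp [fwd, bwd]
  · simp [fwd, bwd]

lemma diag_fwd {x : ℕ × ℕ} (hx : Stair x) : ((fwd x).1 = (fwd x).2) ↔ ¬ (x.1 = x.2) := by
  rcases stair_cases hx with ⟨j, rfl⟩ | ⟨j, rfl⟩ <;> simp [fwd]

lemma wt_acc (x y : ℕ × ℕ) : wt x * acc x y = wt y * acc y x := by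
  unfold acc
  rw [add_comm (wt x) (wt y)]
  ring

lemma ne_fwd {x : ℕ × ℕ} : x ≠ fwd x := by
  intro h
  have := sum_fwd x
  rw [← h] at this
  omega

lemma ne_bwd {x : ℕ × ℕ} (hx : Stair x) : x ≠ bwd x := by
  intro h
  have := sum_bwd hx
  rw [← h] at this
  have := hx.2
  omega

lemma fwd_ne_bwd {x : ℕ × ℕ} (hx : Stair x) : fwd x ≠ bwd x := by
  intro h
  have h1 := sum_bwd hx
  have h2 := sum_fwd x
  rw [h] at h2
  omega

lemma uAlt_mem {a : ℝ} (ha : 8 ≤ a) (x : ℕ × ℕ) : 0 ≤ uAlt a x ∧ uAlt a x ≤ 1 := by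
  have h1 : 4 / a ≤ 1 / 2 := by rw [div_le_div_iff₀ (by linarith) (by norm_num)]; linarith
  have h2 : 0 ≤ 4 / a := div_nonneg (by norm_num) (by linarith)
  unfold uAlt
  split_ifs <;> constructor <;> linarith

lemma uAlt_fwd {a : ℝ} {x : ℕ × ℕ} (hx : Stair x) : 1 - uAlt a (fwd x) = uAlt a x := by
  unfold uAlt
  by_cases h : x.1 = x.2
  · rw [if_pos h, if_neg (by rw [diag_fwd hx]; simpa using h)]; ring
  · rw [if_neg h, if_pos (by rw [diag_fwd hx]; exact h)]; ring

/-- detailed balance for forward moves -/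
lemma balance_fwd {a : ℝ} {x : ℕ × ℕ} (hx : Stair x) :
    ENNReal.ofReal (wt x) * step (uAlt a x) x (fwd x) =
      ENNReal.ofReal (wt (fwd x)) * step (uAlt a (fwd x)) (fwd x) x := by
  have hfx := stair_fwd hx
  have h1 : step (uAlt a x) x (fwd x) = ENNReal.ofReal (uAlt a x * acc x (fwd x)) := by
    unfold step
    rw [if_pos rfl, if_neg (fwd_ne_bwd hx), if_neg (Ne.symm ne_fwd)]
    simp
  have h2 : step (uAlt a (fwd x)) (fwd x) x =
      ENNReal.ofReal ((1 - uAlt a (fwd x)) * acc (fwd x) x) := by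
    unfold step
    have e1 : ¬ (x = fwd (fwd x)) := by
      intro h
      have h3 := sum_fwd (fwd x)
      have h4 := sum_fwd x
      rw [← h] at h3
      omega
    rw [if_neg e1, if_pos (bwd_fwd hx).symm, if_neg ne_fwd, bwd_fwd hx]
    simp
  rw [h1, h2, ← ENNReal.ofReal_mul (wt_nonneg _), ← ENNReal.ofReal_mul (wt_nonneg _), uAlt_fwd hx]
  congr 1
  calc wt x * (uAlt a x * acc x (fwd x)) = uAlt a x * (wt x * acc x (fwd x)) := by ring
    _ = uAlt a x * (wt (fwd x) * acc (fwd x) x) := by rw [wt_acc]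
    _ = _ := by ring

/-- detailed balance -/
lemma balance {a : ℝ} (x y : ℕ × ℕ) :
    ENNReal.ofReal (wt x) * step (uAlt a x) x y = ENNReal.ofReal (wt y) * step (uAlt a y) y x := by
  by_cases hx : Stair x
  · by_cases hy : Stair y
    · by_cases h1 : y = fwd x
      · subst h1; exact balance_fwd hx
      by_cases h2 : x = fwd y
      · subst h2; exact (balance_fwd hy).symm
      by_cases h3 : y = x
      · subst h3; rfl
      have h4 : ¬ (y = bwd x) := fun h => h2 (by rw [h]; exact (fwd_bwd hx (h ▸ hy)).symm)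
      have h5 : ¬ (x = bwd y) := fun h => h1 (by rw [h]; exact (fwd_bwd hy (h ▸ hx)).symm)
      have e1 : step (uAlt a x) x y = 0 := by
        unfold step; rw [if_neg h1, if_neg h4, if_neg h3]; simp
      have e2 : step (uAlt a y) y x = 0 := by
        unfold step; rw [if_neg h2, if_neg h5, if_neg (Ne.symm h3)]; simp
      rw [e1, e2]; simp
    · rw [step_off hx hy, wt_zero hy]; simp
  · rw [wt_zero hx]
    by_cases hy : Stair y
    · rw [step_off hy hx]; simp
    · rw [wt_zero hy]; simp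

section
variable {Ω : Type*} [MeasurableSpace Ω] {μ : Measure Ω} {X : ℕ → Ω → ℕ × ℕ}

lemma law_le_wt [IsProbabilityMeasure μ] {a : ℕ → ℝ} (ha : ∀ t, 8 ≤ a t)
    (h : IsWalk μ X (fun t x => uAlt (a t) x)) (t : ℕ) :
    ∀ x, law μ X t x ≤ ENNReal.ofReal (wt x) := by
  induction t with
  | zero =>
    intro x
    by_cases hx : x = (1, 1)
    · subst hx
      have : wt (1, 1) = 1 := by
        unfold wt; rw [if_pos (by simp [Stair])]; norm_num
      rw [this, ENNReal.ofReal_one]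
      exact prob_le_one
    · rw [law_zero h hx]; exact bot_le
  | succ t ih =>
    intro y
    rw [law_succ h]
    calc ∑' x, law μ X t x * step (uAlt (a (t + 1)) x) x y
        ≤ ∑' x, ENNReal.ofReal (wt x) * step (uAlt (a (t + 1)) x) x y :=
          ENNReal.tsum_le_tsum fun x => by gcongr; exact ih x
      _ = ∑' x, ENNReal.ofReal (wt y) * step (uAlt (a (t + 1)) y) y x :=
          tsum_congr fun x => balance x y
      _ = ENNReal.ofReal (wt y) := by
          rw [ENNReal.tsum_mul_left, tsum_step_one (uAlt_mem (ha _) y).1 (uAlt_mem (ha _) y).2,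
            mul_one]

/-- tail of the weights -/
lemma wt_tail : Tendsto (fun M : ℕ => ∑' x : ℕ × ℕ, if M ≤ x.2 then ENNReal.ofReal (wt x) else 0)
    atTop (𝓝 0) := by
  have hsum : ∑' x : ℕ × ℕ, ENNReal.ofReal (wt x) ≠ ⊤ := by
    have h1 : ∀ x : ℕ × ℕ, ENNReal.ofReal (wt x) ≤
        (if x.1 = x.2 then ENNReal.ofReal (1 / (x.2:ℝ) ^ 2) else 0) +
        (if x.1 = x.2 + 1 then ENNReal.ofReal (1 / (x.2:ℝ) ^ 2) else 0) := by
      intro x
      unfold wt
      by_cases hx : Stair x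
      · rw [if_pos hx]
        rcases hx.1 with h | h
        · rw [if_pos h]; exact le_self_add
        · rw [if_pos h]; exact le_add_self
      · rw [if_neg hx]; simp
    have h3 : ∑' j : ℕ, ENNReal.ofReal (1 / (j:ℝ) ^ 2) ≠ ⊤ := by
      have hs : Summable fun j : ℕ => 1 / (j:ℝ) ^ 2 := Real.summable_one_div_nat_pow.2 (by norm_num)
      rw [← ENNReal.ofReal_tsum_of_nonneg (fun _ => by positivity) hs]
      exact ENNReal.ofReal_ne_top
    refine ne_top_of_le_ne_top ?_ (ENNReal.tsum_le_tsum h1)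
    rw [ENNReal.tsum_add]
    refine ENNReal.add_ne_top.2 ⟨?_, ?_⟩
    · rw [ENNReal.tsum_prod', ENNReal.tsum_comm]
      have : ∀ j : ℕ, ∑' i : ℕ, (if (i, j).1 = (i, j).2 then
          ENNReal.ofReal (1 / (((i, j) : ℕ × ℕ).2:ℝ) ^ 2) else 0) = ENNReal.ofReal (1 / (j:ℝ) ^ 2) := by
        intro j
        simp only
        rw [tsum_ite_eq]
      rw [tsum_congr this]
      exact h3
    · rw [ENNReal.tsum_prod', ENNReal.tsum_comm]
      have : ∀ j : ℕ, ∑' i : ℕ, (if (i, j).1 = (i, j).2 + 1 then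
          ENNReal.ofReal (1 / (((i, j) : ℕ × ℕ).2:ℝ) ^ 2) else 0) = ENNReal.ofReal (1 / (j:ℝ) ^ 2) := by
        intro j
        simp only
        rw [tsum_ite_eq]
      rw [tsum_congr this]
      exact h3
  have hdom : ∀ M : ℕ, ∀ x : ℕ × ℕ, (if M ≤ x.2 then ENNReal.ofReal (wt x) else 0) ≤
      ENNReal.ofReal (wt x) := by
    intro M x; split_ifs <;> simp
  have key := tendsto_lintegral_of_dominated_convergence (μ := (Measure.count : Measure (ℕ × ℕ)))
    (F := fun (M : ℕ) (x : ℕ × ℕ) => if M ≤ x.2 then ENNReal.ofReal (wt x) else 0)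
    (f := fun _ => 0) (fun x => ENNReal.ofReal (wt x))
    (fun M => measurable_of_countable _) (fun M => Eventually.of_forall (hdom M))
    (by rw [lintegral_count]; exact hsum) (Eventually.of_forall fun x => by
      refine tendsto_const_nhds.congr' ?_
      filter_upwards [eventually_gt_atTop x.2] with M hM
      rw [if_neg (by omega)])
  simpa [lintegral_count] using key

/-- The literal reading: the walk does not tend to infinity, almost surely. -/
theorem noEscape [IsProbabilityMeasure μ] {a : ℕ → ℝ} (ha : ∀ t, 8 ≤ a t)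
    (h : IsWalk μ X (fun t x => uAlt (a t) x)) :
    ∀ᵐ ω ∂μ, ¬ Tendsto (fun t => (X t ω).2) atTop atTop := by
  have htail : ∀ M t : ℕ, μ {ω | M ≤ (X t ω).2} ≤
      ∑' x : ℕ × ℕ, if M ≤ x.2 then ENNReal.ofReal (wt x) else 0 := by
    intro M t
    have h1 : {ω | M ≤ (X t ω).2} = ⋃ x : ℕ × ℕ, {ω | X t ω = x ∧ M ≤ x.2} := by
      ext ω; simp
    rw [h1]
    refine (measure_iUnion_le _).trans (ENNReal.tsum_le_tsum fun x => ?_)
    by_cases hx : M ≤ x.2
    · rw [if_pos hx]
      have h2 : {ω | X t ω = x ∧ M ≤ x.2} = {ω | X t ω = x} := by ext ω; simp [hx]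
      rw [h2]
      exact law_le_wt ha h t x
    · have h2 : {ω | X t ω = x ∧ M ≤ x.2} = ∅ := by ext ω; simp [hx]
      rw [h2]; simp
  have hbound : ∀ M : ℕ, μ {ω | Tendsto (fun t => (X t ω).2) atTop atTop} ≤
      ∑' x : ℕ × ℕ, if M ≤ x.2 then ENNReal.ofReal (wt x) else 0 := by
    intro M
    have h1 : {ω | Tendsto (fun t => (X t ω).2) atTop atTop} ⊆
        ⋃ n : ℕ, ⋂ t ∈ Set.Ici n, {ω | M ≤ (X t ω).2} := by
      intro ω hω
      obtain ⟨n, hn⟩ := (tendsto_atTop.1 hω M).exists_forall_of_atTop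
      simp only [Set.mem_iUnion, Set.mem_iInter, Set.mem_Ici, Set.mem_ofPred_eq]
      exact ⟨n, hn⟩
    refine (measure_mono h1).trans ?_
    rw [Monotone.measure_iUnion]
    · refine iSup_le fun n => (measure_mono ?_).trans (htail M n)
      intro ω hω
      simp only [Set.mem_iInter, Set.mem_Ici, Set.mem_ofPred_eq] at hω
      exact hω n le_rfl
    · intro n m hnm ω hω
      simp only [Set.mem_iInter, Set.mem_Ici, Set.mem_ofPred_eq] at hω ⊢
      exact fun t ht => hω t (hnm.trans ht)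
  have h0 : μ {ω | Tendsto (fun t => (X t ω).2) atTop atTop} = 0 :=
    le_antisymm (ge_of_tendsto' wt_tail hbound) bot_le
  rw [ae_iff]
  simpa using h0

end

/-! ### Existence of the walks -/

/-- the one-step law as a probability mass function -/
noncomputable def pmf (v : ℝ) (h0 : 0 ≤ v) (h1 : v ≤ 1) (x : ℕ × ℕ) : PMF (ℕ × ℕ) :=
  ⟨fun y => step v x y, by
    rw [← tsum_step_one h0 h1 x]
    exact ENNReal.summable.hasSum⟩

/-- the transition kernel -/
noncomputable def ker (v : ℕ × ℕ → ℝ) (h : ∀ x, 0 ≤ v x ∧ v x ≤ 1) : Kernel (ℕ × ℕ) (ℕ × ℕ) where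
  toFun x := (pmf (v x) (h x).1 (h x).2 x).toMeasure
  measurable' := measurable_of_countable _

instance (v : ℕ × ℕ → ℝ) (h : ∀ x, 0 ≤ v x ∧ v x ≤ 1) : IsMarkovKernel (ker v h) :=
  ⟨fun x => by
    show IsProbabilityMeasure (pmf (v x) (h x).1 (h x).2 x).toMeasure
    infer_instance⟩

theorem exists_walk (u : ℕ → ℕ × ℕ → ℝ) (hu : ∀ t x, 0 ≤ u t x ∧ u t x ≤ 1) :
    ∃ (μ : Measure (ℕ → ℕ × ℕ)), IsProbabilityMeasure μ ∧ IsWalk μ (fun t ω => ω t) u := by
  classical
  let κ : (n : ℕ) → Kernel (Π _i : Finset.Iic n, ℕ × ℕ) (ℕ × ℕ) := fun n =>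
    (ker (u (n + 1)) (hu (n + 1))).comap (fun f => f ⟨n, Finset.mem_Iic.2 le_rfl⟩)
      (measurable_pi_apply _)
  have hκ : ∀ n, IsMarkovKernel (κ n) := fun n => by
    show IsMarkovKernel (Kernel.comap _ _ _)
    infer_instance
  let μ : Measure (ℕ → ℕ × ℕ) := Kernel.trajMeasure (X := fun _ => ℕ × ℕ)
    (Measure.dirac ((1, 1) : ℕ × ℕ)) κ
  have hμ : IsProbabilityMeasure μ := by
    show IsProbabilityMeasure (Kernel.trajMeasure (X := fun _ => ℕ × ℕ)
      (Measure.dirac ((1, 1) : ℕ × ℕ)) κ)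
    infer_instance
  refine ⟨μ, hμ, fun t => measurable_pi_apply t, ?_, ?_⟩
  · have h0 : μ.map (Preorder.frestrictLe 0) = (Measure.dirac ((1, 1) : ℕ × ℕ)).map
        (MeasurableEquiv.piUnique (fun _i : Finset.Iic 0 => ℕ × ℕ)).symm := by
      show (Kernel.trajMeasure (X := fun _ => ℕ × ℕ)
        (Measure.dirac ((1, 1) : ℕ × ℕ)) κ).map _ = _
      rw [Kernel.trajMeasure, Measure.map_comp _ _ (by fun_prop), Kernel.traj_map_frestrictLe,
        Kernel.partialTraj_self, Measure.id_comp]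
    let S0 : Set (Π _i : Finset.Iic 0, ℕ × ℕ) := {f | ¬ f ⟨0, Finset.mem_Iic.2 le_rfl⟩ = (1, 1)}
    have hS0 : MeasurableSet S0 := (Set.to_countable S0).measurableSet
    have h1 : μ.map (Preorder.frestrictLe 0) S0 = 0 := by
      rw [h0, Measure.map_apply (MeasurableEquiv.measurable _) hS0, Measure.dirac_apply]
      apply Set.indicator_of_notMem
      intro hmem
      exact hmem rfl
    rw [Measure.map_apply (by fun_prop) hS0] at h1
    rw [ae_iff]
    exact h1
  · intro t B x y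
    let S : Set (Π _i : Finset.Iic t, ℕ × ℕ) :=
      {f | (fun i : Fin (t + 1) => f ⟨i, Finset.mem_Iic.2 (by omega)⟩) ∈ B ∧
        f ⟨t, Finset.mem_Iic.2 le_rfl⟩ = x}
    have hS : MeasurableSet S := (Set.to_countable S).measurableSet
    have key := Kernel.map_frestrictLe_trajMeasure_compProd_eq_map_trajMeasure
      (X := fun _ => ℕ × ℕ) (κ := κ) (μ₀ := Measure.dirac ((1, 1) : ℕ × ℕ)) (a := t)
    have h1 := congrArg (fun ν => ν (S ×ˢ {y})) key
    rw [Measure.compProd_apply_prod hS (measurableSet_singleton y),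
      Measure.map_apply (by fun_prop) (hS.prod (measurableSet_singleton y))] at h1
    have h2 : ∫⁻ f in S, κ t f {y} ∂(μ.map (Preorder.frestrictLe t)) =
        ∫⁻ _f in S, step (u (t + 1) x) x y ∂(μ.map (Preorder.frestrictLe t)) := by
      refine setLIntegral_congr_fun hS fun f hf => ?_
      show (ker (u (t + 1)) (hu (t + 1))) (f ⟨t, Finset.mem_Iic.2 le_rfl⟩) {y} = _
      rw [hf.2]
      show (pmf (u (t + 1) x) _ _ x).toMeasure {y} = _
      rw [PMF.toMeasure_apply_singleton _ _ (measurableSet_singleton y)]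
      rfl
    have h3 : μ {ω : ℕ → ℕ × ℕ | (fun i : Fin (t + 1) => ω i) ∈ B ∧ ω t = x ∧ ω (t + 1) = y} =
        ∫⁻ f in S, κ t f {y} ∂(μ.map (Preorder.frestrictLe t)) := by
      rw [h1]
      congr 1
      ext ω
      simp [S, Preorder.frestrictLe, and_assoc]
    rw [h3, h2, setLIntegral_const, Measure.map_apply (by fun_prop) hS, mul_comm]
    congr 1

end Pool.Agent.W86.Stairs
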