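import Mathlib

set_option autoImplicit false
open Filter Topology MeasureTheory ProbabilityTheory
open scoped ENNReal

namespace Pool.Agent.W86.Urn

/-- A configuration of `d` urns: numbers of black balls, numbers of red balls. -/
abbrev Conf (d : ℕ) := (Fin d → ℕ) × (Fin d → ℕ)

variable {d : ℕ}

/-- total number of black balls -/
def blk (c : Conf d) : ℕ := ∑ i, c.1 i

/-- total number of red balls -/
def red (c : Conf d) : ℕ := ∑ i, c.2 i

/-- The configuration after each urn in `S` has received a black ball and each other urn a red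
ball. -/
def add (c : Conf d) (S : Finset (Fin d)) : Conf d :=
  (fun i => c.1 i + if i ∈ S then 1 else 0, fun i => c.2 i + if i ∈ S then 0 else 1)

/-- probability that a given urn receives a black ball -/
noncomputable def pr (W : ℕ → ℝ) (b r : ℕ) : ℝ := W b / (W b + W r)

/-- The interacting urn process with interaction parameter `1`: given the history up to time `n`,
every urn independently receives a black ball with probability `W(B*) / (W(B*) + W(R*))` and a red
ball otherwise. -/
structure IsUrn {Ω : Type*} [MeasurableSpace Ω] (μ : Measure Ω) (X : ℕ → Ω → Conf d)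
    (W : ℕ → ℝ) (c₀ : Conf d) : Prop where
  meas : ∀ n, Measurable (X n)
  init : ∀ᵐ ω ∂μ, X 0 ω = c₀
  step : ∀ (n : ℕ) (A : Set (Fin (n + 1) → Conf d)) (c : Conf d) (S : Finset (Fin d)),
    μ {ω | (fun i : Fin (n + 1) => X i ω) ∈ A ∧ X n ω = c ∧ X (n + 1) ω = add c S} =
      μ {ω | (fun i : Fin (n + 1) => X i ω) ∈ A ∧ X n ω = c} *
        ENNReal.ofReal (pr W (blk c) (red c) ^ S.card * (1 - pr W (blk c) (red c)) ^ (d - S.card))

/-- Monopoly: from some time on no red ball is added, or no black ball is added. -/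
def Monopoly (x : ℕ → Conf d) : Prop :=
  (∃ m, ∀ n, m ≤ n → red (x (n + 1)) = red (x n)) ∨
  (∃ m, ∀ n, m ≤ n → blk (x (n + 1)) = blk (x n))

lemma blk_add (c : Conf d) (S : Finset (Fin d)) : blk (add c S) = blk c + S.card := by
  simp [blk, add, Finset.sum_add_distrib]

lemma red_add (c : Conf d) (S : Finset (Fin d)) : red (add c S) = red c + (d - S.card) := by
  have h : ∑ i : Fin d, (if i ∈ S then (0:ℕ) else 1) = d - S.card := by
    have h1 : ∀ i : Fin d, (if i ∈ S then (0:ℕ) else 1) = if i ∈ Sᶜ then 1 else 0 := by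
      intro i
      by_cases hi : i ∈ S
      · rw [if_pos hi, if_neg (by simpa using hi)]
      · rw [if_neg hi, if_pos (by simpa using hi)]
    rw [Finset.sum_congr rfl fun i _ => h1 i, Finset.sum_ite_mem, Finset.univ_inter,
      Finset.sum_const, smul_eq_mul, mul_one, Finset.card_compl, Fintype.card_fin]
  simp only [red, add, Finset.sum_add_distrib]
  rw [h]

lemma add_injective (c : Conf d) : Function.Injective (add c) := by
  intro S T h
  ext i
  have h1 := congrFun (congrArg Prod.fst h) i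
  simp only [add] at h1
  by_cases hS : i ∈ S <;> by_cases hT : i ∈ T <;> simp [hS, hT] at h1 ⊢

lemma pr_nonneg {W : ℕ → ℝ} (hW : ∀ n, 0 ≤ W n) (b r : ℕ) : 0 ≤ pr W b r :=
  div_nonneg (hW _) (add_nonneg (hW _) (hW _))

lemma pr_le_one {W : ℕ → ℝ} (hW : ∀ n, 0 ≤ W n) (b r : ℕ) : pr W b r ≤ 1 := by
  unfold pr
  apply div_le_one_of_le₀
  · linarith [hW r]
  · exact add_nonneg (hW _) (hW _)

/-- survival probability: the totals stay in `G` during `n` steps -/
noncomputable def surv (d : ℕ) (W : ℕ → ℝ) (G : ℕ → ℕ → Prop) [∀ b r, Decidable (G b r)] :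
    ℕ → ℕ → ℕ → ℝ
  | 0, b, r => if G b r then 1 else 0
  | n + 1, b, r => if G b r then ∑ j ∈ Finset.range (d + 1),
      (d.choose j : ℝ) * (pr W b r ^ j * (1 - pr W b r) ^ (d - j)) *
        surv d W G n (b + j) (r + (d - j)) else 0

lemma surv_nonneg {W : ℕ → ℝ} (hW : ∀ n, 0 ≤ W n) (G : ℕ → ℕ → Prop) [∀ b r, Decidable (G b r)]
    (n b r : ℕ) : 0 ≤ surv d W G n b r := by
  induction n generalizing b r with
  | zero => unfold surv; split_ifs <;> norm_num
  | succ n ih =>
    unfold surv
    split_ifs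
    · refine Finset.sum_nonneg fun j _ => mul_nonneg (mul_nonneg (Nat.cast_nonneg _)
        (mul_nonneg (pow_nonneg (pr_nonneg hW _ _) _) (pow_nonneg ?_ _))) (ih _ _)
      linarith [pr_le_one hW b r]
    · exact le_rfl

section
variable {Ω : Type*} [MeasurableSpace Ω] {μ : Measure Ω} {X : ℕ → Ω → Conf d}
  {W : ℕ → ℝ} {c₀ : Conf d}

/-- one step adds `d` balls -/
def Adds (d : ℕ) (c c' : Conf d) : Prop := blk c' + red c' = blk c + red c + d

lemma adds_add (c : Conf d) (S : Finset (Fin d)) : Adds d c (add c S) := by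
  unfold Adds
  rw [blk_add, red_add]
  have : S.card ≤ d := by simpa using Finset.card_le_univ S
  omega

lemma meas_good (h : IsUrn μ X W c₀) (G : ℕ → ℕ → Prop) (m n : ℕ) :
    MeasurableSet {ω | ∀ j, j ≤ n → G (blk (X (m + j) ω)) (red (X (m + j) ω)) ∧
      (j < n → Adds d (X (m + j) ω) (X (m + j + 1) ω))} := by
  have : {ω | ∀ j, j ≤ n → G (blk (X (m + j) ω)) (red (X (m + j) ω)) ∧
      (j < n → Adds d (X (m + j) ω) (X (m + j + 1) ω))} =
      ⋂ j : ℕ, ⋂ _ : j ≤ n, (fun ω => (X (m + j) ω, X (m + j + 1) ω)) ⁻¹'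
        {c | G (blk c.1) (red c.1) ∧ (j < n → Adds d c.1 c.2)} := by
    ext ω; simp
  rw [this]
  exact MeasurableSet.iInter fun j => MeasurableSet.iInter fun _ =>
    ((h.meas (m + j)).prodMk (h.meas (m + j + 1))) (Set.to_countable _).measurableSet

lemma good_ge (hW : ∀ n, 0 ≤ W n) (h : IsUrn μ X W c₀) (G : ℕ → ℕ → Prop)
    [∀ b r, Decidable (G b r)] (n : ℕ) :
    ∀ (m : ℕ) (A : Set (Fin (m + 1) → Conf d)) (c : Conf d),
    μ {ω | (fun i : Fin (m + 1) => X i ω) ∈ A ∧ X m ω = c} *
      ENNReal.ofReal (surv d W G n (blk c) (red c)) ≤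
    μ {ω | ((fun i : Fin (m + 1) => X i ω) ∈ A ∧ X m ω = c) ∧
      ∀ j, j ≤ n → G (blk (X (m + j) ω)) (red (X (m + j) ω)) ∧
        (j < n → Adds d (X (m + j) ω) (X (m + j + 1) ω))} := by
  classical
  induction n with
  | zero =>
    intro m A c
    unfold surv
    split_ifs with hG
    · rw [ENNReal.ofReal_one, mul_one]
      refine measure_mono ?_
      rintro ω ⟨h1, h2⟩
      refine ⟨⟨h1, h2⟩, fun j hj => ?_⟩
      obtain rfl : j = 0 := by omega
      rw [Nat.add_zero, h2]; exact ⟨hG, fun h => absurd h (lt_irrefl _)⟩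
    · simp
  | succ n ih =>
    intro m A c
    unfold surv
    split_ifs with hG
    · set p := pr W (blk c) (red c) with hp
      have hp0 : 0 ≤ p := pr_nonneg hW _ _
      have hp1 : 0 ≤ 1 - p := by linarith [pr_le_one hW (blk c) (red c)]
      have hsum : ∑ j ∈ Finset.range (d + 1), (d.choose j : ℝ) * (p ^ j * (1 - p) ^ (d - j)) *
          surv d W G n (blk c + j) (red c + (d - j)) =
          ∑ S : Finset (Fin d), (p ^ S.card * (1 - p) ^ (d - S.card)) *
            surv d W G n (blk (add c S)) (red (add c S)) := by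
        have := Finset.sum_powerset_apply_card (x := (Finset.univ : Finset (Fin d)))
          (fun j => (p ^ j * (1 - p) ^ (d - j)) * surv d W G n (blk c + j) (red c + (d - j)))
        rw [Finset.powerset_univ, Finset.card_univ, Fintype.card_fin] at this
        simp_rw [blk_add, red_add]
        rw [this]
        refine Finset.sum_congr rfl fun j _ => ?_
        rw [nsmul_eq_mul]; ring
      rw [hsum, ENNReal.ofReal_sum_of_nonneg (fun S _ => mul_nonneg (mul_nonneg
        (pow_nonneg hp0 _) (pow_nonneg hp1 _)) (surv_nonneg hW G _ _ _)), Finset.mul_sum]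
      let A' : Finset (Fin d) → Set (Fin (m + 1 + 1) → Conf d) := fun S =>
        {f | (fun i : Fin (m + 1) => f ⟨i, by omega⟩) ∈ A ∧ f ⟨m, by omega⟩ = c ∧
          f ⟨m + 1, by omega⟩ = add c S}
      have hterm : ∀ S : Finset (Fin d),
          μ {ω | (fun i : Fin (m + 1) => X i ω) ∈ A ∧ X m ω = c} *
            ENNReal.ofReal ((p ^ S.card * (1 - p) ^ (d - S.card)) *
              surv d W G n (blk (add c S)) (red (add c S))) ≤
          μ {ω | ((fun i : Fin (m + 1 + 1) => X i ω) ∈ A' S ∧ X (m + 1) ω = add c S) ∧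
            ∀ j, j ≤ n → G (blk (X (m + 1 + j) ω)) (red (X (m + 1 + j) ω)) ∧
              (j < n → Adds d (X (m + 1 + j) ω) (X (m + 1 + j + 1) ω))} := by
        intro S
        refine le_trans (le_of_eq ?_) (ih (m + 1) (A' S) (add c S))
        rw [ENNReal.ofReal_mul (mul_nonneg (pow_nonneg hp0 _) (pow_nonneg hp1 _)), ← mul_assoc,
          ← h.step m A c S]
        congr 2
        ext ω
        simp only [A', Set.mem_ofPred_eq]
        tauto
      refine (Finset.sum_le_sum fun S _ => hterm S).trans ?_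
      rw [← measure_biUnion_finset]
      · refine measure_mono ?_
        intro ω hω
        simp only [Set.mem_iUnion, Finset.mem_univ, exists_true_left, Set.mem_ofPred_eq, A'] at hω ⊢
        obtain ⟨S, ⟨⟨h1, h2, h3⟩, h4⟩, h5⟩ := hω
        refine ⟨⟨h1, h2⟩, fun j hj => ?_⟩
        rcases j with _ | j
        · rw [Nat.add_zero, h2, h4]; exact ⟨hG, fun _ => adds_add c S⟩
        · have := h5 j (by omega)
          rw [show m + 1 + j = m + (j + 1) by ring] at this
          exact ⟨this.1, fun hj' => this.2 (by omega)⟩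
      · intro S _ T _ hST
        rw [Function.onFun, Set.disjoint_left]
        rintro ω ⟨⟨_, h1⟩, _⟩ ⟨⟨_, h2⟩, _⟩
        exact hST (add_injective c (h1.symm.trans h2))
      · intro S _
        refine MeasurableSet.inter (MeasurableSet.inter ?_ ?_) (meas_good h G (m + 1) n)
        · exact (measurable_pi_lambda _ fun i : Fin (m + 1 + 1) => h.meas i)
            (Set.to_countable (A' S)).measurableSet
        · exact (h.meas (m + 1)) (measurableSet_singleton _)
    · simp

/-- lower bound for the probability of staying in `G` for ever -/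
lemma good_forever [IsProbabilityMeasure μ] (hW : ∀ n, 0 ≤ W n) (h : IsUrn μ X W c₀)
    (G : ℕ → ℕ → Prop) [∀ b r, Decidable (G b r)] {v : ℝ}
    (hv : ∀ n, v ≤ surv d W G n (blk c₀) (red c₀)) :
    ENNReal.ofReal v ≤ μ {ω | ∀ j, G (blk (X j ω)) (red (X j ω)) ∧
      Adds d (X j ω) (X (j + 1) ω)} := by
  have h1 : ∀ n, ENNReal.ofReal v ≤ μ {ω | ∀ j, j ≤ n →
      G (blk (X (0 + j) ω)) (red (X (0 + j) ω)) ∧
      (j < n → Adds d (X (0 + j) ω) (X (0 + j + 1) ω))} := by
    intro n
    have h2 := good_ge hW h G n 0 Set.univ c₀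
    have h3 : μ {ω | (fun i : Fin (0 + 1) => X i ω) ∈ Set.univ ∧ X 0 ω = c₀} = 1 := by
      have : ∀ᵐ ω ∂μ, ((fun i : Fin (0 + 1) => X i ω) ∈ Set.univ ∧ X 0 ω = c₀) := by
        filter_upwards [h.init] with ω hω
        exact ⟨Set.mem_univ _, hω⟩
      rw [measure_congr (Filter.eventuallyEq_univ.2 this), measure_univ]
    rw [h3, one_mul] at h2
    refine (ENNReal.ofReal_le_ofReal (hv n)).trans (h2.trans (measure_mono ?_))
    rintro ω ⟨_, h4⟩ j hj
    exact h4 j hj
  have h2 : {ω | ∀ j, G (blk (X j ω)) (red (X j ω)) ∧ Adds d (X j ω) (X (j + 1) ω)} =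
      ⋂ n : ℕ, {ω | ∀ j, j ≤ n → G (blk (X (0 + j) ω)) (red (X (0 + j) ω)) ∧
      (j < n → Adds d (X (0 + j) ω) (X (0 + j + 1) ω))} := by
    ext ω
    simp only [Set.mem_iInter, Set.mem_ofPred_eq, Nat.zero_add]
    exact ⟨fun h n j _ => ⟨(h j).1, fun _ => (h j).2⟩,
      fun h j => ⟨(h j j le_rfl).1, (h (j + 1) j (Nat.le_succ j)).2 (Nat.lt_succ_self j)⟩⟩
  rw [h2, Antitone.measure_iInter]
  · exact le_iInf h1
  · intro n m hnm ω hω j hj
    have := hω j (hj.trans hnm)
    exact ⟨this.1, fun hj' => this.2 (by omega)⟩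
  · exact fun n => (meas_good h G 0 n).nullMeasurableSet
  · exact ⟨0, measure_ne_top _ _⟩

/-- If on `G` both totals are comparable, monopoly is excluded on `G for ever`. -/
lemma monopoly_le [IsProbabilityMeasure μ] (hd : 0 < d) (hW : ∀ n, 0 ≤ W n)
    (h : IsUrn μ X W c₀) (G : ℕ → ℕ → Prop) [∀ b r, Decidable (G b r)]
    (hG : ∀ b r, G b r → b ≤ 3 * r + 1 ∧ r ≤ 3 * b + 1) {v : ℝ} (hv0 : 0 ≤ v)
    (hv : ∀ n, v ≤ surv d W G n (blk c₀) (red c₀)) :
    μ {ω | Monopoly (fun n => X n ω)} ≤ ENNReal.ofReal (1 - v) := by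
  have hm : MeasurableSet {ω | ∀ j, G (blk (X j ω)) (red (X j ω)) ∧
      Adds d (X j ω) (X (j + 1) ω)} := by
    have : {ω | ∀ j, G (blk (X j ω)) (red (X j ω)) ∧ Adds d (X j ω) (X (j + 1) ω)} =
      ⋂ j : ℕ, (fun ω => (X j ω, X (j + 1) ω)) ⁻¹'
        {c | G (blk c.1) (red c.1) ∧ Adds d c.1 c.2} := by
      ext ω; simp
    rw [this]
    exact MeasurableSet.iInter fun j =>
      ((h.meas j).prodMk (h.meas (j + 1))) (Set.to_countable _).measurableSet
  have hsub : {ω | Monopoly (fun n => X n ω)} ⊆ {ω | ∀ j, G (blk (X j ω)) (red (X j ω)) ∧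
      Adds d (X j ω) (X (j + 1) ω)}ᶜ := by
    intro ω hω hgood
    have htot : ∀ n, n ≤ blk (X n ω) + red (X n ω) := by
      intro n
      induction n with
      | zero => exact Nat.zero_le _
      | succ n ih =>
        have := (hgood n).2
        unfold Adds at this
        omega
    rcases hω with ⟨m, hmon⟩ | ⟨m, hmon⟩
    · have hc : ∀ n, red (X (m + n) ω) = red (X m ω) := by
        intro n
        induction n with
        | zero => rfl
        | succ n ih => rw [← ih]; exact hmon (m + n) (by omega)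
      have h1 := htot (m + (4 * red (X m ω) + 2))
      have h2 := (hG _ _ (hgood (m + (4 * red (X m ω) + 2))).1).1
      rw [hc] at h1 h2
      omega
    · have hc : ∀ n, blk (X (m + n) ω) = blk (X m ω) := by
        intro n
        induction n with
        | zero => rfl
        | succ n ih => rw [← ih]; exact hmon (m + n) (by omega)
      have h1 := htot (m + (4 * blk (X m ω) + 2))
      have h2 := (hG _ _ (hgood (m + (4 * blk (X m ω) + 2))).1).2
      rw [hc] at h1 h2
      omega
  refine (measure_mono hsub).trans ?_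
  rw [prob_compl_eq_one_sub hm, ENNReal.ofReal_sub _ hv0, ENNReal.ofReal_one]
  exact tsub_le_tsub_left (good_forever hW h G hv) _

end

end Pool.Agent.W86.Urn
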