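import Pool.Agent.W86.Urn1

set_option autoImplicit false
open Filter Topology

namespace Pool.Agent.W86.Urn

/-- rate of the exponents -/
def Q (N : ℕ) : ℕ := 2 * (N + 1) ^ 2 + 2

/-- The reinforcement sequence: with `N = ⌊√n⌋`, on the sites `n = N² + even` it decreases very
fast, on the sites `n = N² + odd` it increases very fast. -/
noncomputable def V (n : ℕ) : ℝ :=
  if Even (n - Nat.sqrt n ^ 2) then 2 ^ (Q (Nat.sqrt n) * ((Nat.sqrt n + 1) ^ 2 - n))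
  else 2 ^ (Q (Nat.sqrt n + 1) * ((Nat.sqrt n + 2) ^ 2 + n))

lemma V_D {N k : ℕ} (hk : k ≤ N) : V (N ^ 2 + 2 * k) = 2 ^ (Q N * (2 * (N - k) + 1)) := by
  have h1 : Nat.sqrt (N ^ 2 + 2 * k) = N := Nat.sqrt_add_eq' N (by omega)
  unfold V
  rw [h1, if_pos (by simp)]
  congr 2
  rw [add_sq]
  omega

lemma V_U {N k : ℕ} (hk : k < N) :
    V (N ^ 2 + 2 * k + 1) = 2 ^ (Q (N + 1) * ((N + 2) ^ 2 + N ^ 2 + 2 * k + 1)) := by
  have h1 : Nat.sqrt (N ^ 2 + 2 * k + 1) = N := by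
    rw [add_assoc]; exact Nat.sqrt_add_eq' N (by omega)
  unfold V
  rw [h1, if_neg]
  · congr 2
    ring
  · rw [show N ^ 2 + 2 * k + 1 - N ^ 2 = 2 * k + 1 by omega]
    simp

lemma V_pos (n : ℕ) : 0 < V n := by
  unfold V; split_ifs <;> positivity

lemma V_ge (n : ℕ) : (2:ℝ) ^ n ≤ V n := by
  have h1 : n < (Nat.sqrt n + 1) ^ 2 := by
    have := Nat.lt_succ_sqrt' n
    simpa using this
  unfold V
  split_ifs
  · refine pow_le_pow_right₀ (by norm_num) ?_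
    have h2 : 1 ≤ (Nat.sqrt n + 1) ^ 2 - n := by omega
    calc n ≤ Q (Nat.sqrt n) * 1 := by unfold Q; omega
      _ ≤ _ := Nat.mul_le_mul_left _ h2
  · refine pow_le_pow_right₀ (by norm_num) ?_
    calc n ≤ 1 * ((Nat.sqrt n + 2) ^ 2 + n) := by omega
      _ ≤ _ := Nat.mul_le_mul_right _ (by unfold Q; omega)

lemma V_strong : Summable fun n => 1 / V n := by
  refine Summable.of_nonneg_of_le (fun n => by have := V_pos n; positivity) (fun n => ?_)
    (summable_geometric_two)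
  rw [one_div_pow]
  exact one_div_le_one_div_of_le (by positivity) (V_ge n)

/-- the good pairs of totals -/
def G (b r : ℕ) : Prop := ∃ N k, k < N ∧
  ((b = N ^ 2 + 2 * k ∧ r = N ^ 2 + 2 * k) ∨ (b = N ^ 2 + 2 * k + 1 ∧ r = N ^ 2 + 2 * k + 1) ∨
    (b = N ^ 2 + 2 * k + 2 ∧ r = N ^ 2 + 2 * k) ∨ (b = N ^ 2 + 2 * k ∧ r = N ^ 2 + 2 * k + 2) ∨
    ∃ k', k < k' ∧ k' ≤ N ∧ ((b = N ^ 2 + 2 * k' + 1 ∧ r = N ^ 2 + 2 * k + 1) ∨
      (b = N ^ 2 + 2 * k + 1 ∧ r = N ^ 2 + 2 * k' + 1)))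

noncomputable instance : ∀ b r, Decidable (G b r) := fun _ _ => Classical.dec _

lemma G_symm {b r : ℕ} (h : G b r) : G r b := by
  obtain ⟨N, k, hk, h⟩ := h
  refine ⟨N, k, hk, ?_⟩
  rcases h with h | h | h | h | ⟨k', h1, h2, h | h⟩
  · exact Or.inl ⟨h.2, h.1⟩
  · exact Or.inr (Or.inl ⟨h.2, h.1⟩)
  · exact Or.inr (Or.inr (Or.inr (Or.inl ⟨h.2, h.1⟩)))
  · exact Or.inr (Or.inr (Or.inl ⟨h.2, h.1⟩))
  · exact Or.inr (Or.inr (Or.inr (Or.inr ⟨k', h1, h2, Or.inr ⟨h.2, h.1⟩⟩)))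
  · exact Or.inr (Or.inr (Or.inr (Or.inr ⟨k', h1, h2, Or.inl ⟨h.2, h.1⟩⟩)))

lemma G_comm (b r : ℕ) : G b r ↔ G r b := ⟨G_symm, G_symm⟩

lemma G_le (b r : ℕ) (h : G b r) : b ≤ 3 * r + 1 ∧ r ≤ 3 * b + 1 := by
  obtain ⟨N, k, hk, h⟩ := h
  have hN : N ≤ N ^ 2 := Nat.le_self_pow (by norm_num) N
  rcases h with h | h | h | h | ⟨k', h1, h2, h | h⟩ <;> obtain ⟨rfl, rfl⟩ := h <;> constructor <;>
    omega

/-- survival probability for two urns -/
noncomputable def S (n b r : ℕ) : ℝ := surv 2 V G n b r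

lemma V_nonneg (n : ℕ) : 0 ≤ V n := (V_pos n).le

lemma S_nonneg (n b r : ℕ) : 0 ≤ S n b r := surv_nonneg V_nonneg G n b r

lemma S_zero {b r : ℕ} (h : G b r) : S 0 b r = 1 := by
  unfold S surv; rw [if_pos h]

lemma S_succ {b r : ℕ} (h : G b r) (n : ℕ) : S (n + 1) b r =
    (1 - pr V b r) ^ 2 * S n b (r + 2) + 2 * (pr V b r * (1 - pr V b r)) * S n (b + 1) (r + 1) +
      pr V b r ^ 2 * S n (b + 2) r := by
  unfold S
  rw [surv, if_pos h]
  simp [Finset.sum_range_succ, Nat.choose]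

lemma S_off {b r : ℕ} (h : ¬ G b r) (n : ℕ) : S n b r = 0 := by
  unfold S
  cases n <;> unfold surv <;> rw [if_neg h]

lemma pr_swap (b r : ℕ) : pr V r b = 1 - pr V b r := by
  unfold pr
  have h1 := V_pos b
  have h2 := V_pos r
  have h3 : V b + V r ≠ 0 := by positivity
  rw [add_comm (V r) (V b), eq_sub_iff_add_eq, ← add_div, add_comm (V r) (V b), div_self h3]

lemma pr0 (b r : ℕ) : 0 ≤ pr V b r := pr_nonneg V_nonneg b r
lemma pr1 (b r : ℕ) : pr V b r ≤ 1 := pr_le_one V_nonneg b r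

lemma S_le_one (n b r : ℕ) : S n b r ≤ 1 := by
  induction n generalizing b r with
  | zero =>
    by_cases h : G b r
    · rw [S_zero h]
    · rw [S_off h]; norm_num
  | succ n ih =>
    by_cases h : G b r
    · rw [S_succ h]
      have h0 := pr0 b r
      have h1 := pr1 b r
      have a1 := mul_le_mul_of_nonneg_left (ih b (r + 2)) (sq_nonneg (1 - pr V b r))
      have a2 := mul_le_mul_of_nonneg_left (ih (b + 1) (r + 1))
        (mul_nonneg (by norm_num : (0:ℝ) ≤ 2) (mul_nonneg h0 (by linarith : 0 ≤ 1 - pr V b r)))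
      have a3 := mul_le_mul_of_nonneg_left (ih (b + 2) r) (sq_nonneg (pr V b r))
      nlinarith
    · rw [S_off h]; norm_num

lemma S_symm (n b r : ℕ) : S n b r = S n r b := by
  induction n generalizing b r with
  | zero =>
    by_cases h : G b r
    · rw [S_zero h, S_zero (G_symm h)]
    · rw [S_off h, S_off (fun h' => h (G_symm h'))]
  | succ n ih =>
    by_cases h : G b r
    · rw [S_succ h, S_succ (G_symm h), pr_swap b r, ih b (r + 2), ih (b + 1) (r + 1), ih (b + 2) r]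
      ring
    · rw [S_off h, S_off (fun h' => h (G_symm h'))]

lemma pr_self (b : ℕ) : pr V b b = 1 / 2 := by
  unfold pr
  have := V_pos b
  field_simp
  norm_num

lemma pr_small {b r x y m : ℕ} (hb : V b = 2 ^ x) (hr : V r = 2 ^ y) (h : x + m ≤ y) :
    pr V b r ≤ (1 / 2) ^ m := by
  unfold pr
  rw [hb, hr, one_div_pow, div_le_div_iff₀ (by positivity) (by positivity), one_mul, ← pow_add]
  have : (2:ℝ) ^ (x + m) ≤ 2 ^ y := pow_le_pow_right₀ (by norm_num) h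
  have h2 : (0:ℝ) < 2 ^ x := by positivity
  linarith

/-- tie step -/
lemma step_tie {b n : ℕ} (h : G b b) {x y : ℝ} (hx : x - (1 / 2) ^ (b + b + 2) ≤ S n (b + 2) b)
    (hy : y - (1 / 2) ^ (b + b + 2) ≤ S n (b + 1) (b + 1)) :
    (x + y) / 2 - (1 / 2) ^ (b + b) ≤ S (n + 1) b b := by
  rw [S_succ h, pr_self, S_symm n b (b + 2)]
  have h1 : ((1:ℝ) / 2) ^ (b + b + 2) ≤ (1 / 2) ^ (b + b) :=
    pow_le_pow_of_le_one (by norm_num) (by norm_num) (by omega)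
  linarith

/-- red gets both balls -/
lemma step_red {b r n : ℕ} (h : G b r) (hp : pr V b r ≤ (1 / 2) ^ (b + r + 2)) {x : ℝ}
    (hx : x - (1 / 2) ^ (b + r + 2) ≤ S n b (r + 2)) :
    x - (1 / 2) ^ (b + r) ≤ S (n + 1) b r := by
  rw [S_succ h]
  have h0 := pr0 b r
  have h1 := pr1 b r
  have s0 := S_nonneg n b (r + 2)
  have s1 := S_le_one n b (r + 2)
  have t0 := mul_nonneg (mul_nonneg (by norm_num : (0:ℝ) ≤ 2) (mul_nonneg h0
    (by linarith : 0 ≤ 1 - pr V b r))) (S_nonneg n (b + 1) (r + 1))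
  have t1 := mul_nonneg (sq_nonneg (pr V b r)) (S_nonneg n (b + 2) r)
  have e : ((1:ℝ) / 2) ^ (b + r + 2) = (1 / 2) ^ (b + r) * (1 / 4) := by
    rw [pow_add]; norm_num
  have e0 : (0:ℝ) < (1 / 2) ^ (b + r) := by positivity
  have k1 : (1 - 2 * pr V b r) * S n b (r + 2) ≤ (1 - pr V b r) ^ 2 * S n b (r + 2) := by
    refine mul_le_mul_of_nonneg_right ?_ s0
    nlinarith
  have k2 : pr V b r * S n b (r + 2) ≤ pr V b r := by nlinarith
  rw [e] at hp hx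
  nlinarith

/-- black gets both balls -/
lemma step_black {b r n : ℕ} (h : G b r) (hp : pr V r b ≤ (1 / 2) ^ (b + r + 2)) {x : ℝ}
    (hx : x - (1 / 2) ^ (b + r + 2) ≤ S n (b + 2) r) :
    x - (1 / 2) ^ (b + r) ≤ S (n + 1) b r := by
  rw [S_symm, add_comm b r]
  refine step_red (G_symm h) (by rwa [add_comm r b]) ?_
  rw [S_symm, add_comm r b]; exact hx

lemma main (n : ℕ) : ∀ N : ℕ, 1 ≤ N →
    (∀ k, k ≤ N → 1 - (3 / 4) ^ (N - k) - 3 * (3 / 4) ^ N -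
      (1 / 2) ^ (N ^ 2 + 2 * k + (N ^ 2 + 2 * k)) ≤ S n (N ^ 2 + 2 * k) (N ^ 2 + 2 * k)) ∧
    (∀ k, k < N → 1 - (3 / 4) ^ (N - (k + 1)) / 2 - 3 * (3 / 4) ^ N -
      (1 / 2) ^ (N ^ 2 + 2 * k + 1 + (N ^ 2 + 2 * k + 1)) ≤
        S n (N ^ 2 + 2 * k + 1) (N ^ 2 + 2 * k + 1)) ∧
    (∀ k, k < N → 1 - (3 / 4) ^ (N - (k + 1)) - 3 * (3 / 4) ^ N -
      (1 / 2) ^ (N ^ 2 + 2 * k + 2 + (N ^ 2 + 2 * k)) ≤
        S n (N ^ 2 + 2 * k + 2) (N ^ 2 + 2 * k)) ∧
    (∀ k k', k < k' → k' ≤ N → 1 - 3 * (3 / 4) ^ N -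
      (1 / 2) ^ (N ^ 2 + 2 * k' + 1 + (N ^ 2 + 2 * k + 1)) ≤
        S n (N ^ 2 + 2 * k' + 1) (N ^ 2 + 2 * k + 1)) := by
  have base : ∀ (b r : ℕ) (x : ℝ), G b r → x ≤ 1 → x ≤ S 0 b r := by
    intro b r x h hx
    rw [S_zero h]; exact hx
  have gT : ∀ {N k : ℕ}, k < N → G (N ^ 2 + 2 * k) (N ^ 2 + 2 * k) := fun {N k} hk =>
    ⟨N, k, hk, Or.inl ⟨rfl, rfl⟩⟩
  have gU : ∀ {N k : ℕ}, k < N → G (N ^ 2 + 2 * k + 1) (N ^ 2 + 2 * k + 1) := fun {N k} hk =>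
    ⟨N, k, hk, Or.inr (Or.inl ⟨rfl, rfl⟩)⟩
  have gP : ∀ {N k : ℕ}, k < N → G (N ^ 2 + 2 * k + 2) (N ^ 2 + 2 * k) := fun {N k} hk =>
    ⟨N, k, hk, Or.inr (Or.inr (Or.inl ⟨rfl, rfl⟩))⟩
  have gR : ∀ {N k k' : ℕ}, k < k' → k' ≤ N → G (N ^ 2 + 2 * k' + 1) (N ^ 2 + 2 * k + 1) :=
    fun {N k k'} h1 h2 =>
      ⟨N, k, by omega, Or.inr (Or.inr (Or.inr (Or.inr ⟨k', h1, h2, Or.inl ⟨rfl, rfl⟩⟩)))⟩
  have hneg : ∀ (N m b : ℕ), (0:ℝ) ≤ (3 / 4) ^ m ∧ (0:ℝ) ≤ 3 * (3 / 4) ^ N ∧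
      (0:ℝ) ≤ (1 / 2) ^ b := fun N m b => ⟨by positivity, by positivity, by positivity⟩
  have top : ∀ (n N : ℕ), 1 - (3 / 4) ^ (N - N) - 3 * (3 / 4) ^ N -
      (1 / 2) ^ (N ^ 2 + 2 * N + (N ^ 2 + 2 * N)) ≤ S n (N ^ 2 + 2 * N) (N ^ 2 + 2 * N) := by
    intro n N
    have := hneg N 0 (N ^ 2 + 2 * N + (N ^ 2 + 2 * N))
    have h2 := S_nonneg n (N ^ 2 + 2 * N) (N ^ 2 + 2 * N)
    rw [Nat.sub_self, pow_zero]
    linarith [this.2.1, this.2.2]
  induction n with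
  | zero =>
    intro N hN
    refine ⟨fun k hk => ?_, fun k hk => ?_, fun k hk => ?_, fun k k' h1 h2 => ?_⟩
    · rcases hk.lt_or_eq with h | rfl
      · refine base _ _ _ (gT h) ?_
        have := hneg N (N - k) (N ^ 2 + 2 * k + (N ^ 2 + 2 * k))
        linarith [this.1, this.2.1, this.2.2]
      · exact top 0 k
    · refine base _ _ _ (gU hk) ?_
      have := hneg N (N - (k + 1)) (N ^ 2 + 2 * k + 1 + (N ^ 2 + 2 * k + 1))
      linarith [this.1, this.2.1, this.2.2]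
    · refine base _ _ _ (gP hk) ?_
      have := hneg N (N - (k + 1)) (N ^ 2 + 2 * k + 2 + (N ^ 2 + 2 * k))
      linarith [this.1, this.2.1, this.2.2]
    · refine base _ _ _ (gR h1 h2) ?_
      have := hneg N 0 (N ^ 2 + 2 * k' + 1 + (N ^ 2 + 2 * k + 1))
      linarith [this.1, this.2.1, this.2.2]
  | succ n ih =>
    intro N hN
    obtain ⟨ia, ib, ic, id⟩ := ih N hN
    refine ⟨fun k hk => ?_, fun k hk => ?_, fun k hk => ?_, fun k k' h1 h2 => ?_⟩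
    · rcases hk.lt_or_eq with h | rfl
      · have e : N - k = N - (k + 1) + 1 := by omega
        have hc := ic k h
        have hb := ib k h
        rw [show N ^ 2 + 2 * k + 2 + (N ^ 2 + 2 * k) =
          N ^ 2 + 2 * k + (N ^ 2 + 2 * k) + 2 by ring] at hc
        rw [show N ^ 2 + 2 * k + 1 + (N ^ 2 + 2 * k + 1) =
          N ^ 2 + 2 * k + (N ^ 2 + 2 * k) + 2 by ring] at hb
        have := step_tie (gT h) hc hb
        rw [e, pow_succ]
        linarith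
      · exact top (n + 1) k
    · have hd := id k (k + 1) (by omega) (by omega)
      have ha := ia (k + 1) (by omega)
      rw [show N ^ 2 + 2 * (k + 1) + 1 = N ^ 2 + 2 * k + 1 + 2 by ring,
        show N ^ 2 + 2 * k + 1 + 2 + (N ^ 2 + 2 * k + 1) =
          N ^ 2 + 2 * k + 1 + (N ^ 2 + 2 * k + 1) + 2 by ring] at hd
      rw [show N ^ 2 + 2 * (k + 1) = N ^ 2 + 2 * k + 1 + 1 by ring,
        show N ^ 2 + 2 * k + 1 + 1 + (N ^ 2 + 2 * k + 1 + 1) =
          N ^ 2 + 2 * k + 1 + (N ^ 2 + 2 * k + 1) + 2 by ring] at ha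
      have := step_tie (gU hk) hd ha
      linarith
    · have ha := ia (k + 1) (by omega)
      rw [show N ^ 2 + 2 * (k + 1) = N ^ 2 + 2 * k + 2 by ring,
        show N ^ 2 + 2 * k + 2 + (N ^ 2 + 2 * k + 2) =
          N ^ 2 + 2 * k + 2 + (N ^ 2 + 2 * k) + 2 by ring] at ha
      refine step_red (gP hk) ?_ ha
      have v1 : V (N ^ 2 + 2 * k + 2) = 2 ^ (Q N * (2 * (N - (k + 1)) + 1)) := by
        have := V_D (N := N) (k := k + 1) (by omega)
        rwa [show N ^ 2 + 2 * (k + 1) = N ^ 2 + 2 * k + 2 by ring] at this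
      have v2 := V_D (N := N) (k := k) hk.le
      refine pr_small v1 v2 ?_
      rw [show 2 * (N - k) + 1 = (2 * (N - (k + 1)) + 1) + 2 by omega,
        mul_add (Q N) (2 * (N - (k + 1)) + 1) 2]
      refine Nat.add_le_add_left ?_ _
      unfold Q
      nlinarith
    · rcases h2.lt_or_eq with h2 | rfl
      · -- black moves
        have hd := id k (k' + 1) (by omega) (by omega)
        rw [show N ^ 2 + 2 * (k' + 1) + 1 = N ^ 2 + 2 * k' + 1 + 2 by ring,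
          show N ^ 2 + 2 * k' + 1 + 2 + (N ^ 2 + 2 * k + 1) =
            N ^ 2 + 2 * k' + 1 + (N ^ 2 + 2 * k + 1) + 2 by ring] at hd
        refine step_black (gR h1 h2.le) ?_ hd
        refine pr_small (V_U (by omega : k < N)) (V_U h2) ?_
        have h3 : Q (N + 1) * ((N + 2) ^ 2 + N ^ 2 + 2 * k + 1) + Q (N + 1) * 2 ≤
            Q (N + 1) * ((N + 2) ^ 2 + N ^ 2 + 2 * k' + 1) := by
          rw [← mul_add]
          exact Nat.mul_le_mul_left _ (by omega)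
        refine le_trans (Nat.add_le_add_left ?_ _) h3
        unfold Q
        nlinarith
      · -- red moves
        have v1 : V (k' ^ 2 + 2 * k' + 1) = 2 ^ (Q (k' + 1) * (2 * (k' + 1) + 1)) := by
          have := V_D (N := k' + 1) (k := 0) (Nat.zero_le _)
          rwa [show (k' + 1) ^ 2 + 2 * 0 = k' ^ 2 + 2 * k' + 1 by ring, Nat.sub_zero] at this
        have v2 := V_U h1
        have hp : pr V (k' ^ 2 + 2 * k' + 1) (k' ^ 2 + 2 * k + 1) ≤
            (1 / 2) ^ (k' ^ 2 + 2 * k' + 1 + (k' ^ 2 + 2 * k + 1) + 2) := by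
          refine pr_small v1 v2 ?_
          have h3 : Q (k' + 1) * (2 * (k' + 1) + 1) + Q (k' + 1) * 2 ≤
              Q (k' + 1) * ((k' + 2) ^ 2 + k' ^ 2 + 2 * k + 1) := by
            rw [← mul_add]
            exact Nat.mul_le_mul_left _ (by nlinarith)
          refine le_trans (Nat.add_le_add_left ?_ _) h3
          unfold Q
          nlinarith
        refine step_red (gR h1 le_rfl) hp ?_
        rcases Nat.lt_or_ge (k + 1) k' with h4 | h4
        · have hd := id (k + 1) k' h4 le_rfl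
          rw [show k' ^ 2 + 2 * (k + 1) + 1 = k' ^ 2 + 2 * k + 1 + 2 by ring] at hd
          rw [add_assoc (k' ^ 2 + 2 * k' + 1) (k' ^ 2 + 2 * k + 1) 2]
          exact hd
        · obtain rfl : k' = k + 1 := by omega
          have ha := (ih (k + 1 + 1) (by omega)).1 0 (Nat.zero_le _)
          rw [show (k + 1 + 1) ^ 2 + 2 * 0 = (k + 1) ^ 2 + 2 * (k + 1) + 1 by ring] at ha
          rw [show (k + 1) ^ 2 + 2 * k + 1 + 2 = (k + 1) ^ 2 + 2 * (k + 1) + 1 by ring,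
            add_assoc ((k + 1) ^ 2 + 2 * (k + 1) + 1) ((k + 1) ^ 2 + 2 * k + 1) 2,
            show (k + 1) ^ 2 + 2 * k + 1 + 2 = (k + 1) ^ 2 + 2 * (k + 1) + 1 by ring]
          refine le_trans (le_of_eq ?_) ha
          rw [Nat.sub_zero, pow_succ (3 / 4 : ℝ) (k + 1)]
          ring

end Pool.Agent.W86.Urn
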