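import Pool.Agent.W86.Urn2

set_option autoImplicit false
open Filter Topology MeasureTheory ProbabilityTheory
open scoped ENNReal

namespace Pool.Agent.W86.Urn

variable {d : ℕ}

/-- one-step transition weights on configurations -/
noncomputable def tw (W : ℕ → ℝ) (c c' : Conf d) : ℝ≥0∞ :=
  ∑ S : Finset (Fin d), if c' = add c S then
    ENNReal.ofReal (pr W (blk c) (red c) ^ S.card * (1 - pr W (blk c) (red c)) ^ (d - S.card))
  else 0

lemma tw_add (W : ℕ → ℝ) (c : Conf d) (S : Finset (Fin d)) : tw W c (add c S) =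
    ENNReal.ofReal (pr W (blk c) (red c) ^ S.card *
      (1 - pr W (blk c) (red c)) ^ (d - S.card)) := by
  unfold tw
  rw [Finset.sum_eq_single S]
  · rw [if_pos rfl]
  · intro T _ hT
    rw [if_neg fun h => hT (add_injective c h).symm]
  · intro h; exact absurd (Finset.mem_univ S) h

lemma tsum_tw {W : ℕ → ℝ} (hW : ∀ n, 0 ≤ W n) (c : Conf d) : ∑' c', tw W c c' = 1 := by
  unfold tw
  rw [Summable.tsum_finsetSum (fun _ _ => ENNReal.summable)]
  simp_rw [tsum_ite_eq]
  have hp0 := pr_nonneg hW (blk c) (red c)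
  have hp1 : 0 ≤ 1 - pr W (blk c) (red c) := by linarith [pr_le_one hW (blk c) (red c)]
  rw [← ENNReal.ofReal_sum_of_nonneg (fun S _ => mul_nonneg (pow_nonneg hp0 _) (pow_nonneg hp1 _))]
  have := Finset.sum_pow_mul_eq_add_pow (pr W (blk c) (red c)) (1 - pr W (blk c) (red c))
    (Finset.univ : Finset (Fin d))
  rw [Finset.powerset_univ, Finset.card_univ, Fintype.card_fin] at this
  rw [this]
  simp

/-- the one-step law as a probability mass function -/
noncomputable def upmf {W : ℕ → ℝ} (hW : ∀ n, 0 ≤ W n) (c : Conf d) : PMF (Conf d) :=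
  ⟨fun c' => tw W c c', by
    rw [← tsum_tw hW c]
    exact ENNReal.summable.hasSum⟩

/-- the transition kernel -/
noncomputable def uker {W : ℕ → ℝ} (hW : ∀ n, 0 ≤ W n) : Kernel (Conf d) (Conf d) where
  toFun c := (upmf hW c).toMeasure
  measurable' := measurable_of_countable _

instance {W : ℕ → ℝ} (hW : ∀ n, 0 ≤ W n) : IsMarkovKernel (uker (d := d) hW) :=
  ⟨fun c => by
    show IsProbabilityMeasure (upmf hW c).toMeasure
    infer_instance⟩

theorem exists_urn {W : ℕ → ℝ} (hW : ∀ n, 0 ≤ W n) (c₀ : Conf d) :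
    ∃ (μ : Measure (ℕ → Conf d)), IsProbabilityMeasure μ ∧ IsUrn μ (fun n ω => ω n) W c₀ := by
  classical
  let κ : (n : ℕ) → Kernel (Π _i : Finset.Iic n, Conf d) (Conf d) := fun n =>
    (uker hW).comap (fun f => f ⟨n, Finset.mem_Iic.2 le_rfl⟩) (measurable_pi_apply _)
  have hκ : ∀ n, IsMarkovKernel (κ n) := fun n => by
    show IsMarkovKernel (Kernel.comap _ _ _)
    infer_instance
  let μ : Measure (ℕ → Conf d) := Kernel.trajMeasure (X := fun _ => Conf d)
    (Measure.dirac c₀) κ
  have hμ : IsProbabilityMeasure μ := by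
    show IsProbabilityMeasure (Kernel.trajMeasure (X := fun _ => Conf d) (Measure.dirac c₀) κ)
    infer_instance
  refine ⟨μ, hμ, fun t => measurable_pi_apply t, ?_, ?_⟩
  · have h0 : μ.map (Preorder.frestrictLe 0) = (Measure.dirac c₀).map
        (MeasurableEquiv.piUnique (fun _i : Finset.Iic 0 => Conf d)).symm := by
      show (Kernel.trajMeasure (X := fun _ => Conf d) (Measure.dirac c₀) κ).map _ = _
      rw [Kernel.trajMeasure, Measure.map_comp _ _ (by fun_prop), Kernel.traj_map_frestrictLe,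
        Kernel.partialTraj_self, Measure.id_comp]
    let S0 : Set (Π _i : Finset.Iic 0, Conf d) := {f | ¬ f ⟨0, Finset.mem_Iic.2 le_rfl⟩ = c₀}
    have hS0 : MeasurableSet S0 := (Set.to_countable S0).measurableSet
    have h1 : μ.map (Preorder.frestrictLe 0) S0 = 0 := by
      rw [h0, Measure.map_apply (MeasurableEquiv.measurable _) hS0, Measure.dirac_apply]
      apply Set.indicator_of_notMem
      intro hmem
      exact hmem rfl
    rw [Measure.map_apply (by fun_prop) hS0] at h1
    rw [ae_iff]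
    exact h1
  · intro t B x T
    let S : Set (Π _i : Finset.Iic t, Conf d) :=
      {f | (fun i : Fin (t + 1) => f ⟨i, Finset.mem_Iic.2 (by omega)⟩) ∈ B ∧
        f ⟨t, Finset.mem_Iic.2 le_rfl⟩ = x}
    have hS : MeasurableSet S := (Set.to_countable S).measurableSet
    have key := Kernel.map_frestrictLe_trajMeasure_compProd_eq_map_trajMeasure
      (X := fun _ => Conf d) (κ := κ) (μ₀ := Measure.dirac c₀) (a := t)
    have h1 := congrArg (fun ν => ν (S ×ˢ {add x T})) key
    rw [Measure.compProd_apply_prod hS (measurableSet_singleton (add x T)),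
      Measure.map_apply (by fun_prop) (hS.prod (measurableSet_singleton (add x T)))] at h1
    have h2 : ∫⁻ f in S, κ t f {add x T} ∂(μ.map (Preorder.frestrictLe t)) =
        ∫⁻ _f in S, tw W x (add x T) ∂(μ.map (Preorder.frestrictLe t)) := by
      refine setLIntegral_congr_fun hS fun f hf => ?_
      show (uker hW) (f ⟨t, Finset.mem_Iic.2 le_rfl⟩) {add x T} = _
      rw [hf.2]
      show (upmf hW x).toMeasure {add x T} = _
      rw [PMF.toMeasure_apply_singleton _ _ (measurableSet_singleton _)]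
      rfl
    have h3 : μ {ω : ℕ → Conf d | (fun i : Fin (t + 1) => ω i) ∈ B ∧ ω t = x ∧
        ω (t + 1) = add x T} = ∫⁻ f in S, κ t f {add x T} ∂(μ.map (Preorder.frestrictLe t)) := by
      rw [h1]
      congr 1
      ext ω
      simp [S, Preorder.frestrictLe, and_assoc]
    rw [h3, h2, setLIntegral_const, Measure.map_apply (by fun_prop) hS, mul_comm, tw_add]
    congr 1

/-- **No monopoly**: from the start with `2 M²` black and `2 M²` red balls in each of the two
urns, the probability of monopoly is small. -/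
theorem monopoly_small {Ω : Type*} [MeasurableSpace Ω] {μ : Measure Ω} [IsProbabilityMeasure μ]
    {X : ℕ → Ω → Conf 2} {M : ℕ} (hM : 6 ≤ M)
    (h : IsUrn μ X V (fun _ => 2 * M ^ 2, fun _ => 2 * M ^ 2)) :
    μ {ω | Monopoly (fun n => X n ω)} ≤
      ENNReal.ofReal (4 * (3 / 4) ^ (2 * M) + (1 / 2) ^ (8 * M ^ 2)) := by
  have hb : blk ((fun _ => 2 * M ^ 2, fun _ => 2 * M ^ 2) : Conf 2) = (2 * M) ^ 2 + 2 * 0 := by
    simp [blk]; ring
  have hr : red ((fun _ => 2 * M ^ 2, fun _ => 2 * M ^ 2) : Conf 2) = (2 * M) ^ 2 + 2 * 0 := by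
    simp [red]; ring
  have key := monopoly_le (v := 1 - (4 * (3 / 4) ^ (2 * M) + (1 / 2) ^ (8 * M ^ 2)))
    (by norm_num) V_nonneg h G G_le ?_ ?_
  · simpa using key
  · have h1 : ((3:ℝ) / 4) ^ (2 * M) ≤ (3 / 4) ^ 12 :=
      pow_le_pow_of_le_one (by norm_num) (by norm_num) (by omega)
    have h2 : ((1:ℝ) / 2) ^ (8 * M ^ 2) ≤ (1 / 2) ^ 1 :=
      pow_le_pow_of_le_one (by norm_num) (by norm_num) (by nlinarith)
    norm_num at h1 h2
    linarith
  · intro n
    have h1 := (main n (2 * M) (by omega)).1 0 (Nat.zero_le _)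
    rw [hb, hr]
    refine le_trans (le_of_eq ?_) h1
    rw [Nat.sub_zero, show (2 * M) ^ 2 + 2 * 0 + ((2 * M) ^ 2 + 2 * 0) = 8 * M ^ 2 by ring]
    ring

end Pool.Agent.W86.Urn
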